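import Pool.Agent.Y760.ZF.DSh

/-!
# Double shuffle relations, arbitrary constant term (helper760)
-/

set_option autoImplicit false

namespace Pool.Agent.Y760.ZF

open Filter Topology Pool.Agent.Y760.ZG
open Pool.Agent.TH507.DS (word decA sh H el ds Zh stI Good)

lemma hr_le_two {s : ℕ} {l : List ℕ} (hs : l.length + 2 ≤ s) (m : ℕ) : hr (s :: l) m ≤ 2 := by
  have h0 : ∀ m : ℕ, ∑ j ∈ Finset.Ico 1 m, 1 / (j : ℝ) ^ 2 ≤ 2 - 1 / ((m : ℝ) + 1) := by
    intro m
    induction m with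
    | zero => norm_num
    | succ m ih =>
      rcases Nat.eq_zero_or_pos m with rfl | hm
      · norm_num
      · rw [Finset.sum_Ico_succ_top hm]
        rcases Nat.lt_or_ge m 2 with h2 | h2
        · have : m = 1 := by omega
          subst this
          norm_num
        · have h3 : ∀ m : ℕ, 2 ≤ m → ∑ j ∈ Finset.Ico 1 m, 1 / (j : ℝ) ^ 2 ≤
              2 - 1 / ((m : ℝ) - 1) := by
            intro m hm2
            induction m, hm2 using Nat.le_induction with
            | base => norm_num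
            | succ m hm2 ih2 =>
              rw [Finset.sum_Ico_succ_top (by omega)]
              have h4 : (2 : ℝ) ≤ m := by exact_mod_cast hm2
              have h5 : 1 / (m : ℝ) ^ 2 ≤ 1 / ((m : ℝ) - 1) - 1 / (m : ℝ) := by
                rw [div_sub_div _ _ (by linarith only [h4]) (by linarith only [h4]),
                  div_le_div_iff₀ (by positivity) (by nlinarith only [h4])]
                nlinarith only [h4]
              push_cast
              have e1 : (m : ℝ) + 1 - 1 = m := by ring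
              rw [e1]
              linarith only [ih2, h5]
          have h4 := h3 (m + 1) (by omega)
          rw [Finset.sum_Ico_succ_top hm] at h4
          refine h4.trans ?_
          push_cast
          have h5 : (2 : ℝ) ≤ m := by exact_mod_cast h2
          have h6 : 1 / ((m : ℝ) + 1 + 1) ≤ 1 / ((m : ℝ) + 1 - 1) := by
            apply one_div_le_one_div_of_le <;> linarith only [h5]
          linarith only [h6]
  rw [hr_cons]
  refine le_trans (Finset.sum_le_sum fun j hj => ?_) ((h0 m).trans (by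
    have : (0 : ℝ) ≤ 1 / ((m : ℝ) + 1) := by positivity
    linarith only [this]))
  rw [Finset.mem_Ico] at hj
  have hj1 : (1 : ℝ) ≤ j := by exact_mod_cast hj.1
  rw [div_le_div_iff₀ (by positivity) (by positivity), one_mul]
  calc hr l j * (j : ℝ) ^ 2 ≤ (j : ℝ) ^ l.length * (j : ℝ) ^ 2 :=
        mul_le_mul_of_nonneg_right (hr_le l j hj.1) (by positivity)
    _ = (j : ℝ) ^ (l.length + 2) := (pow_add _ _ _).symm
    _ ≤ (j : ℝ) ^ s := pow_le_pow_right₀ hj1 hs

lemma mz_bd {w : List ℕ} (hw : Cv w) : |mz w| ≤ 2 := by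
  have h1 := tendsto_hr w hw
  have h2 : ∀ m, hr w m ≤ 2 := by
    intro m
    cases w with
    | nil =>
      rw [hr_nil]
      norm_num
    | cons s l =>
      have h3 := hw s (by simp)
      rw [List.length_cons] at h3
      exact hr_le_two (by omega) m
  rw [abs_of_nonneg (ge_of_tendsto' h1 fun m => hr_nonneg w m)]
  exact le_of_tendsto' h1 h2

lemma Zh_val {Λ : Finset (List ℕ)} {P : Finset (List ℕ × List ℕ)} {n r : ℕ} {K : ℝ}
    (hΛ : ∀ w ∈ Λ, Cl n K r w) (hP : ∀ p ∈ P, Cl n K r p.1 ∧ Cl n K r p.2) (hn : r + 1 ≤ n)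
    (a : ℤ) (c : List ℕ → ℤ) (d : List ℕ × List ℕ → ℤ) :
    Zh (elt Λ P a c d) = a + (∑ w ∈ Λ, (c w : ℝ) * mz w +
      ∑ p ∈ P, (d p : ℝ) * (mz p.1 * mz p.2)) := by
  unfold elt
  rw [map_add, map_add, map_sum, map_sum, map_zsmul, Pool.Agent.TH507.DS.Zh_single]
  have e1 : Pool.Agent.TH507.WD.mz (decA 0 []) = 1 := by
    rw [decA, Pool.Agent.TH507.WD.mz]
  rw [e1, zsmul_eq_mul, Int.cast_one, mul_one, mul_one, add_assoc]
  congr 1
  congr 1
  · refine Finset.sum_congr rfl fun w hw => ?_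
    rw [map_zsmul, Pool.Agent.TH507.DS.Zh_single,
      mz_word (fun s hs => ((hΛ w hw).2.1 s hs).1), Int.cast_one, one_mul, zsmul_eq_mul]
  · refine Finset.sum_congr rfl fun p hp => ?_
    rw [map_zsmul, Pool.Agent.TH507.DS.Zh_el, zsmul_eq_mul,
      ← Pool.Agent.TH507.DS.mz_shuffle ((hP p hp).1.good hn)
        ((hP p hp).2.good hn), mz_eq, mz_eq]

/-- **relations are double shuffle relations, arbitrary constant term** -/
theorem dsA (N r : ℕ) (κ C : ℝ) :
    ∃ B : ℝ, 1 < B ∧ ∃ n0 : ℕ, ∀ n : ℕ, n0 ≤ n → ∀ (Λ : Finset (List ℕ))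
      (P : Finset (List ℕ × List ℕ)), Λ.card ≤ N → P.card ≤ N → (∀ w ∈ Λ, Cl n (κ * n) r w) →
      (∀ p ∈ P, Cl n (κ * n) r p.1 ∧ Cl n (κ * n) r p.2) → ∀ (a : ℤ) (c : List ℕ → ℤ)
      (d : List ℕ × List ℕ → ℤ), (∀ w ∈ Λ, |(c w : ℝ)| ≤ C ^ n) →
      (∀ p ∈ P, |(d p : ℝ)| ≤ C ^ n) →
      (elt Λ P a c d = ∑ p ∈ P, d p • ds p.1 p.2 ∧ Zh (elt Λ P a c d) = 0) ∨
        (B ^ n)⁻¹ < |Zh (elt Λ P a c d)| := by
  set C' : ℝ := (6 * N + 2) * (|C| + 1) with hC'
  have hC0 : 0 ≤ |C| := abs_nonneg C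
  have hN0 : (0 : ℝ) ≤ N := Nat.cast_nonneg N
  obtain ⟨B, hB, n0, hmain⟩ := dsW N r κ C'
  refine ⟨B, hB, n0 + r + 1, fun n hn Λ P hΛN hPN hΛ hP a c d hc hd => ?_⟩
  have hCn : ∀ z : ℝ, |z| ≤ C ^ n → |z| ≤ |C| ^ n := fun z hz =>
    hz.trans ((le_abs_self _).trans (abs_pow _ _).le)
  have hCC : |C| ^ n ≤ C' ^ n := by
    refine pow_le_pow_left₀ hC0 ?_ _
    rw [hC']
    nlinarith only [hC0, hN0, mul_nonneg hN0 hC0]
  by_cases ha : |(a : ℝ)| ≤ C' ^ n
  · exact hmain n (by omega) Λ P hΛN hPN hΛ hP a c d ha (fun w hw => (hCn _ (hc w hw)).trans hCC)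
      (fun p hp => (hCn _ (hd p hp)).trans hCC)
  · right
    push Not at ha
    rw [Zh_val hΛ hP (by omega)]
    have h1 : |∑ w ∈ Λ, (c w : ℝ) * mz w| ≤ N * (|C| ^ n * 2) := by
      refine (Finset.abs_sum_le_sum_abs _ _).trans ?_
      calc ∑ w ∈ Λ, |(c w : ℝ) * mz w| ≤ ∑ _w ∈ Λ, |C| ^ n * 2 := Finset.sum_le_sum fun w hw => by
            rw [abs_mul]
            exact mul_le_mul (hCn _ (hc w hw)) (mz_bd ((hΛ w hw).cv (by omega))) (abs_nonneg _)
              (by positivity)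
        _ = Λ.card * (|C| ^ n * 2) := by rw [Finset.sum_const, nsmul_eq_mul]
        _ ≤ N * (|C| ^ n * 2) := mul_le_mul_of_nonneg_right (by exact_mod_cast hΛN)
            (by positivity)
    have h2 : |∑ p ∈ P, (d p : ℝ) * (mz p.1 * mz p.2)| ≤ N * (|C| ^ n * 4) := by
      refine (Finset.abs_sum_le_sum_abs _ _).trans ?_
      calc ∑ p ∈ P, |(d p : ℝ) * (mz p.1 * mz p.2)| ≤ ∑ _p ∈ P, |C| ^ n * 4 :=
          Finset.sum_le_sum fun p hp => by
            rw [abs_mul, abs_mul]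
            refine mul_le_mul (hCn _ (hd p hp)) ?_ (by positivity) (by positivity)
            have h3 := mz_bd ((hP p hp).1.cv (by omega))
            have h4 := mz_bd ((hP p hp).2.cv (by omega))
            have h5 := abs_nonneg (mz p.1)
            have h6 := abs_nonneg (mz p.2)
            nlinarith only [h3, h4, h5, h6]
        _ = P.card * (|C| ^ n * 4) := by rw [Finset.sum_const, nsmul_eq_mul]
        _ ≤ N * (|C| ^ n * 4) := mul_le_mul_of_nonneg_right (by exact_mod_cast hPN)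
            (by positivity)
    have h3 : (6 * N + 2) * (|C| + 1) ^ n ≤ C' ^ n := by
      rw [hC', mul_pow]
      refine mul_le_mul_of_nonneg_right ?_ (by positivity)
      exact le_self_pow₀ (by linarith only [hN0]) (by omega)
    have h4 : |C| ^ n ≤ (|C| + 1) ^ n := pow_le_pow_left₀ hC0 (by linarith only []) _
    have h5 : (1 : ℝ) ≤ (|C| + 1) ^ n := one_le_pow₀ (by linarith only [hC0])
    have h6 : (B ^ n)⁻¹ ≤ 1 := inv_le_one_of_one_le₀ (one_le_pow₀ hB.le)
    have h7 := abs_sub_abs_le_abs_sub (a : ℝ) (-(∑ w ∈ Λ, (c w : ℝ) * mz w +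
      ∑ p ∈ P, (d p : ℝ) * (mz p.1 * mz p.2)))
    rw [sub_neg_eq_add, abs_neg] at h7
    have h8 := abs_add_le (∑ w ∈ Λ, (c w : ℝ) * mz w) (∑ p ∈ P, (d p : ℝ) * (mz p.1 * mz p.2))
    have h9 : (6 * (N : ℝ)) * |C| ^ n ≤ (6 * N) * (|C| + 1) ^ n :=
      mul_le_mul_of_nonneg_left h4 (by positivity)
    nlinarith only [h1, h2, h3, h5, h6, h7, h8, h9, ha]

end Pool.Agent.Y760.ZF
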