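import Pool.Agent.Y760.ZF.FinV

/-!
# Products of multiple zeta values with first argument at least `n` (helper760)
-/

set_option autoImplicit false

namespace Pool.Agent.Y760.ZF

open Filter Topology Pool.Agent.Y760.ZG

/-- the stuffle product of indices -/
def sti : List ℕ → List ℕ → List (List ℕ)
  | [], l => [l]
  | i :: k, [] => [i :: k]
  | i :: k, j :: l => (sti k (j :: l)).map (i :: ·) ++ (sti (i :: k) l).map (j :: ·) ++
      (sti k l).map ((i + j) :: ·)
termination_by k l => k.length + l.length

/-- the stuffle product of several indices -/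
def stil : List (List ℕ) → List (List ℕ)
  | [] => [[]]
  | u :: M => (stil M).flatMap (sti u)

/-- the class of words -/
def Cl (n : ℕ) (K : ℝ) (r : ℕ) (w : List ℕ) : Prop :=
  w.length ≤ r ∧ (∀ m ∈ w, 1 ≤ m ∧ (m : ℝ) ≤ K) ∧ ∀ k ∈ w.head?, n ≤ k

lemma sti_length (u v : List ℕ) : ∀ w ∈ sti u v, w.length ≤ u.length + v.length := by
  induction u, v using sti.induct with
  | case1 v =>
    intro w hw
    rw [sti, List.mem_singleton] at hw
    rw [hw]
    omega
  | case2 i k =>
    intro w hw
    rw [sti, List.mem_singleton] at hw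
    rw [hw]
    omega
  | case3 i k j l ih1 ih2 ih3 =>
    intro w hw
    rw [sti, List.mem_append, List.mem_append, List.mem_map, List.mem_map, List.mem_map] at hw
    rcases hw with (⟨w', hw', rfl⟩ | ⟨w', hw', rfl⟩) | ⟨w', hw', rfl⟩
    · have := ih1 w' hw'
      simp only [List.length_cons] at this ⊢
      omega
    · have := ih2 w' hw'
      simp only [List.length_cons] at this ⊢
      omega
    · have := ih3 w' hw'
      simp only [List.length_cons] at this ⊢
      omega

lemma sti_letters {K K' : ℝ} (hK : 0 ≤ K) (hK' : 0 ≤ K') (u v : List ℕ) :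
    (∀ m ∈ u, 1 ≤ m ∧ (m : ℝ) ≤ K) → (∀ m ∈ v, 1 ≤ m ∧ (m : ℝ) ≤ K') →
    ∀ w ∈ sti u v, ∀ m ∈ w, 1 ≤ m ∧ (m : ℝ) ≤ K + K' := by
  induction u, v using sti.induct with
  | case1 v =>
    intro _ hv w hw m hm
    rw [sti, List.mem_singleton] at hw
    rw [hw] at hm
    have := hv m hm
    exact ⟨this.1, by linarith only [this.2, hK]⟩
  | case2 i k =>
    intro hu _ w hw m hm
    rw [sti, List.mem_singleton] at hw
    rw [hw] at hm
    have := hu m hm
    exact ⟨this.1, by linarith only [this.2, hK']⟩
  | case3 i k j l ih1 ih2 ih3 =>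
    intro hu hv w hw m hm
    have hi := hu i List.mem_cons_self
    have hj := hv j List.mem_cons_self
    have hu' : ∀ m ∈ k, 1 ≤ m ∧ (m : ℝ) ≤ K := fun m hm => hu m (List.mem_cons_of_mem _ hm)
    have hv' : ∀ m ∈ l, 1 ≤ m ∧ (m : ℝ) ≤ K' := fun m hm => hv m (List.mem_cons_of_mem _ hm)
    rw [sti, List.mem_append, List.mem_append, List.mem_map, List.mem_map, List.mem_map] at hw
    rcases hw with (⟨w', hw', rfl⟩ | ⟨w', hw', rfl⟩) | ⟨w', hw', rfl⟩
    · rcases List.mem_cons.1 hm with rfl | hm
      · exact ⟨hi.1, by linarith only [hi.2, hK']⟩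
      · exact ih1 hu' hv w' hw' m hm
    · rcases List.mem_cons.1 hm with rfl | hm
      · exact ⟨hj.1, by linarith only [hj.2, hK]⟩
      · exact ih2 hu hv' w' hw' m hm
    · rcases List.mem_cons.1 hm with rfl | hm
      · refine ⟨by omega, ?_⟩
        push_cast
        linarith only [hi.2, hj.2]
      · exact ih3 hu' hv' w' hw' m hm

lemma sti_head {n : ℕ} (u v : List ℕ) (hu : ∀ k ∈ u.head?, n ≤ k) (hv : ∀ k ∈ v.head?, n ≤ k) :
    ∀ w ∈ sti u v, ∀ k ∈ w.head?, n ≤ k := by
  intro w hw
  cases u with
  | nil =>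
    rw [sti, List.mem_singleton] at hw
    rw [hw]
    exact hv
  | cons i k =>
    cases v with
    | nil =>
      rw [sti, List.mem_singleton] at hw
      rw [hw]
      exact hu
    | cons j l =>
      have hi : n ≤ i := hu i (by simp)
      have hj : n ≤ j := hv j (by simp)
      rw [sti, List.mem_append, List.mem_append, List.mem_map, List.mem_map, List.mem_map] at hw
      rcases hw with (⟨w', _, rfl⟩ | ⟨w', _, rfl⟩) | ⟨w', _, rfl⟩
      · intro k hk
        simp only [List.head?_cons, Option.mem_def, Option.some.injEq] at hk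
        omega
      · intro k hk
        simp only [List.head?_cons, Option.mem_def, Option.some.injEq] at hk
        omega
      · intro k hk
        simp only [List.head?_cons, Option.mem_def, Option.some.injEq] at hk
        omega

lemma sti_Cl {n : ℕ} {K K' : ℝ} (hK : 0 ≤ K) (hK' : 0 ≤ K') {r r' : ℕ} {u v : List ℕ}
    (hu : Cl n K r u) (hv : Cl n K' r' v) : ∀ w ∈ sti u v, Cl n (K + K') (r + r') w := by
  intro w hw
  refine ⟨(sti_length u v w hw).trans (Nat.add_le_add hu.1 hv.1),
    sti_letters hK hK' u v hu.2.1 hv.2.1 w hw, sti_head u v hu.2.2 hv.2.2 w hw⟩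

lemma sti_count (u v : List ℕ) : (sti u v).length ≤ 3 ^ (u.length + v.length) := by
  induction u, v using sti.induct with
  | case1 v =>
    rw [sti, List.length_singleton]
    exact Nat.one_le_pow _ _ (by omega)
  | case2 i k =>
    rw [sti, List.length_singleton]
    exact Nat.one_le_pow _ _ (by omega)
  | case3 i k j l ih1 ih2 ih3 =>
    rw [sti, List.length_append, List.length_append, List.length_map, List.length_map,
      List.length_map]
    simp only [List.length_cons] at ih1 ih2 ih3 ⊢
    have e1 : k.length + 1 + (l.length + 1) = k.length + l.length + 2 := by ring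
    have e2 : k.length + (l.length + 1) = k.length + l.length + 1 := by ring
    have e3 : k.length + 1 + l.length = k.length + l.length + 1 := by ring
    rw [e2] at ih1
    rw [e3] at ih2
    rw [e1]
    have h4 : 3 ^ (k.length + l.length + 1) = 3 * 3 ^ (k.length + l.length) := by
      rw [pow_succ]
      ring
    have h5 : 3 ^ (k.length + l.length + 2) = 9 * 3 ^ (k.length + l.length) := by
      rw [pow_succ, pow_succ]
      ring
    omega

lemma list_swap {α : Type*} (L : List α) (s : Finset ℕ) (F : α → ℕ → ℝ) :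
    (L.map fun a => ∑ j ∈ s, F a j).sum = ∑ j ∈ s, (L.map fun a => F a j).sum := by
  induction L with
  | nil => simp
  | cons a L ih =>
    simp only [List.map_cons, List.sum_cons]
    rw [ih, Finset.sum_add_distrib]

lemma list_div {α : Type*} (L : List α) (F : α → ℝ) (c : ℝ) :
    (L.map fun a => F a / c).sum = (L.map F).sum / c := by
  induction L with
  | nil => simp
  | cons a L ih =>
    simp only [List.map_cons, List.sum_cons]
    rw [ih, add_div]

lemma prod_Ico (f g : ℕ → ℝ) (m : ℕ) :
    (∑ i ∈ Finset.Ico 1 m, f i) * (∑ j ∈ Finset.Ico 1 m, g j) =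
      ∑ i ∈ Finset.Ico 1 m, f i * (∑ j ∈ Finset.Ico 1 i, g j) +
      ∑ j ∈ Finset.Ico 1 m, g j * (∑ i ∈ Finset.Ico 1 j, f i) +
      ∑ i ∈ Finset.Ico 1 m, f i * g i := by
  induction m with
  | zero => simp
  | succ m ih =>
    rcases Nat.eq_zero_or_pos m with rfl | hm
    · simp
    · simp only [Finset.sum_Ico_succ_top hm]
      linear_combination ih

lemma hr_map (i : ℕ) (L : List (List ℕ)) (m : ℕ) :
    ((L.map (i :: ·)).map fun w => hr w m).sum =
      ∑ j ∈ Finset.Ico 1 m, (L.map fun w => hr w j).sum / (j : ℝ) ^ i := by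
  rw [List.map_map]
  have h1 : ((fun w => hr w m) ∘ (i :: ·)) = fun w =>
      ∑ j ∈ Finset.Ico 1 m, hr w j / (j : ℝ) ^ i := by
    funext w
    simp only [Function.comp]
    rw [hr_cons]
  rw [h1, list_swap]
  exact Finset.sum_congr rfl fun j _ => list_div _ _ _

lemma hr_mul (u v : List ℕ) : ∀ m, hr u m * hr v m = ((sti u v).map fun w => hr w m).sum := by
  induction u, v using sti.induct with
  | case1 v =>
    intro m
    rw [sti, hr_nil, one_mul]
    simp
  | case2 i k =>
    intro m
    rw [sti, hr_nil, mul_one]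
    simp
  | case3 i k j l ih1 ih2 ih3 =>
    intro m
    rw [sti, List.map_append, List.map_append, List.sum_append, List.sum_append, hr_map, hr_map,
      hr_map]
    rw [hr_cons, hr_cons, prod_Ico]
    refine congrArg₂ _ (congrArg₂ _ ?_ ?_) ?_
    · refine Finset.sum_congr rfl fun t _ => ?_
      rw [← ih1, hr_cons]
      ring
    · refine Finset.sum_congr rfl fun t _ => ?_
      rw [← ih2, hr_cons]
      ring
    · refine Finset.sum_congr rfl fun t _ => ?_
      rw [← ih3]
      rw [div_mul_div_comm, ← pow_add]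

/-- convergence -/
def Cv (w : List ℕ) : Prop := ∀ k ∈ w.head?, w.length + 1 ≤ k

lemma Cl.cv {n : ℕ} {K : ℝ} {r : ℕ} {w : List ℕ} (h : Cl n K r w) (hn : r + 1 ≤ n) : Cv w :=
  fun k hk => by
    have h1 := h.2.2 k hk
    have h2 := h.1
    omega

lemma tendsto_hr (w : List ℕ) (hw : Cv w) : Tendsto (fun m => hr w m) atTop (𝓝 (mz w)) := by
  cases w with
  | nil =>
    simp only [hr_nil, mz]
    exact tendsto_const_nhds
  | cons s l =>
    have hs : l.length + 2 ≤ s := by
      have := hw s (by simp)
      rw [List.length_cons] at this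
      omega
    have h1 : Summable fun m => (fun m => hr l m / (m : ℝ) ^ s) (m + 1) :=
      tail_sum (f := fun m => hr l m / (m : ℝ) ^ s) (k := 1) (C := 1)
        (A := l.length) (σ := s) zero_le_one hs (fun m hm => by
        have h2 := hr_le l m hm
        rw [abs_of_nonneg (div_nonneg (hr_nonneg _ _) (by positivity)), div_eq_mul_inv, one_mul]
        exact mul_le_mul_of_nonneg_right h2 (by positivity)) le_rfl
    have h2 := h1.hasSum.tendsto_sum_nat
    rw [← tendsto_add_atTop_iff_nat 1]
    refine h2.congr fun m => ?_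
    rw [hr_cons, Finset.sum_Ico_eq_sum_range, Nat.add_sub_cancel]
    refine Finset.sum_congr rfl fun i _ => ?_
    rw [add_comm 1 i]

lemma tendsto_list (L : List (List ℕ)) (hL : ∀ w ∈ L, Cv w) :
    Tendsto (fun m => (L.map fun w => hr w m).sum) atTop (𝓝 (L.map mz).sum) := by
  induction L with
  | nil => simp
  | cons w L ih =>
    simp only [List.map_cons, List.sum_cons]
    exact (tendsto_hr w (hL w List.mem_cons_self)).add
      (ih fun w' hw' => hL w' (List.mem_cons_of_mem _ hw'))

/-- **the stuffle product** -/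
lemma mz_mul {u v : List ℕ} (hu : Cv u) (hv : Cv v) (h : ∀ w ∈ sti u v, Cv w) :
    mz u * mz v = ((sti u v).map mz).sum := by
  refine tendsto_nhds_unique ((tendsto_hr u hu).mul (tendsto_hr v hv))
    ((tendsto_list (sti u v) h).congr fun m => ?_)
  rw [hr_mul]

lemma stil_Cl {n : ℕ} {K : ℝ} (hK : 0 ≤ K) {r : ℕ} (M : List (List ℕ))
    (hM : ∀ u ∈ M, Cl n K r u) : ∀ w ∈ stil M, Cl n (M.length * K) (M.length * r) w := by
  induction M with
  | nil =>
    intro w hw
    rw [stil, List.mem_singleton] at hw
    subst hw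
    exact ⟨Nat.zero_le _, fun m hm => absurd hm List.not_mem_nil, fun k hk => by simp at hk⟩
  | cons u M ih =>
    intro w hw
    rw [stil, List.mem_flatMap] at hw
    obtain ⟨v, hv, hw⟩ := hw
    have h1 := sti_Cl hK (by positivity) (hM u List.mem_cons_self)
      (ih (fun u hu => hM u (List.mem_cons_of_mem _ hu)) v hv) w hw
    rw [List.length_cons]
    push_cast
    have e1 : ((M.length : ℝ) + 1) * K = K + M.length * K := by ring
    have e2 : (M.length + 1) * r = r + M.length * r := by ring
    rw [e1, e2]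
    exact h1

lemma mz_prod {n : ℕ} {K : ℝ} (hK : 0 ≤ K) {r : ℕ} (M : List (List ℕ))
    (hM : ∀ u ∈ M, Cl n K r u) (hn : M.length * r + 1 ≤ n) :
    (M.map mz).prod = ((stil M).map mz).sum := by
  induction M with
  | nil =>
    rw [stil]
    simp [mz]
  | cons u M ih =>
    rw [List.length_cons, Nat.succ_mul] at hn
    have hM' : ∀ u ∈ M, Cl n K r u := fun u hu => hM u (List.mem_cons_of_mem _ hu)
    have hu := hM u List.mem_cons_self
    rw [List.map_cons, List.prod_cons, ih hM' (by omega), stil]
    have h3 : ∀ v ∈ stil M, Cl n (M.length * K) (M.length * r) v := stil_Cl hK M hM'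
    clear ih
    revert h3
    generalize stil M = T
    intro h3
    induction T with
    | nil => simp
    | cons v T ih2 =>
      have h5 := h3 v List.mem_cons_self
      rw [List.map_cons, List.sum_cons, mul_add, List.flatMap_cons, List.map_append,
        List.sum_append, ih2 fun v' hv' => h3 v' (List.mem_cons_of_mem _ hv')]
      congr 1
      refine mz_mul (hu.cv (by omega)) (h5.cv (by omega)) fun w hw => ?_
      exact (sti_Cl hK (by positivity) hu h5 w hw).cv (by omega)

lemma stil_count (r : ℕ) (M : List (List ℕ)) (hM : ∀ u ∈ M, u.length ≤ r) :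
    (∀ w ∈ stil M, w.length ≤ M.length * r) ∧
      (stil M).length ≤ (3 ^ (M.length * r)) ^ M.length := by
  induction M with
  | nil =>
    constructor
    · intro w hw
      rw [stil, List.mem_singleton] at hw
      rw [hw]
      exact Nat.zero_le _
    · rw [stil]
      simp
  | cons u M ih =>
    obtain ⟨h1, h2⟩ := ih fun u hu => hM u (List.mem_cons_of_mem _ hu)
    have hu := hM u List.mem_cons_self
    constructor
    · intro w hw
      rw [stil, List.mem_flatMap] at hw
      obtain ⟨v, hv, hw⟩ := hw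
      have h3 := sti_length u v w hw
      have h4 := h1 v hv
      rw [List.length_cons, Nat.succ_mul]
      omega
    · rw [stil, List.length_flatMap, List.length_cons]
      have h3 : ((stil M).map fun v => (sti u v).length).sum ≤
          (stil M).length * 3 ^ ((M.length + 1) * r) := by
        have h4 : ∀ T : List (List ℕ), (∀ v ∈ T, v.length ≤ M.length * r) →
            (T.map fun v => (sti u v).length).sum ≤ T.length * 3 ^ ((M.length + 1) * r) := by
          intro T hT
          induction T with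
          | nil => simp
          | cons v T ihT =>
            rw [List.map_cons, List.sum_cons, List.length_cons, Nat.succ_mul]
            have h5 := ihT fun v' hv' => hT v' (List.mem_cons_of_mem _ hv')
            have h6 : (sti u v).length ≤ 3 ^ ((M.length + 1) * r) := by
              refine (sti_count u v).trans (Nat.pow_le_pow_right (by omega) ?_)
              have h7 := hT v List.mem_cons_self
              rw [Nat.succ_mul]
              omega
            omega
        exact h4 _ h1
      refine h3.trans ?_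
      rw [pow_succ]
      refine Nat.mul_le_mul_right _ (h2.trans ?_)
      refine Nat.pow_le_pow_left (Nat.pow_le_pow_right (by omega) ?_) _
      exact Nat.mul_le_mul_right _ (Nat.le_succ _)

/-- the coefficient of the word `w` in the expansion of `∑ c M • M` -/
def co {l : ℕ} (T : Finset (List (List ℕ))) (c : List (List ℕ) → Fin l → ℤ) (w : List ℕ)
    (j : Fin l) : ℤ := ∑ M ∈ T, c M j * ((stil M).countP (· = w) : ℤ)

lemma list_count (L : List (List ℕ)) (F : List ℕ → ℝ) (s : Finset (List ℕ)) (hs : ∀ w ∈ L, w ∈ s) :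
    (L.map F).sum = ∑ w ∈ s, ((L.countP (· = w) : ℕ) : ℝ) * F w := by
  induction L with
  | nil => simp
  | cons a L ih =>
    rw [List.map_cons, List.sum_cons, ih fun w hw => hs w (List.mem_cons_of_mem _ hw)]
    have h1 : ∀ w, (((a :: L).countP (· = w) : ℕ) : ℝ) * F w =
        ((L.countP (· = w) : ℕ) : ℝ) * F w + if a = w then F w else 0 := by
      intro w
      rw [List.countP_cons]
      by_cases h : a = w
      · simp only [h, decide_true, if_true]
        push_cast
        ring
      · simp only [h, decide_false, if_false, Bool.false_eq_true]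
        push_cast
        ring
    simp only [h1]
    rw [Finset.sum_add_distrib, Finset.sum_ite_eq, if_pos (hs a List.mem_cons_self), add_comm]

lemma val_expand {l : ℕ} (β : Fin l → ℝ) {n : ℕ} {K : ℝ} (hK : 0 ≤ K) {r d : ℕ}
    (T : Finset (List (List ℕ))) (hT : ∀ M ∈ T, M.length ≤ d ∧ ∀ u ∈ M, Cl n K r u)
    (hn : d * r + 1 ≤ n) (c : List (List ℕ) → Fin l → ℤ) (La : Finset (List ℕ))
    (hLa : ∀ M ∈ T, ∀ w ∈ stil M, w ∈ La) :
    ∑ M ∈ T, (∑ j, β j * c M j) * (M.map mz).prod =
      ∑ w ∈ La, ∑ j, (β j * co T c w j) * mz w := by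
  have h1 : ∀ M ∈ T, (∑ j, β j * c M j) * (M.map mz).prod =
      ∑ w ∈ La, ∑ j, (β j * (c M j * (((stil M).countP (· = w) : ℕ) : ℝ))) * mz w := by
    intro M hM
    have h2 := (hT M hM).1
    have h3 : M.length * r ≤ d * r := Nat.mul_le_mul_right _ h2
    rw [mz_prod hK M (hT M hM).2 (by omega), list_count _ _ La (hLa M hM), Finset.mul_sum]
    refine Finset.sum_congr rfl fun w _ => ?_
    rw [Finset.sum_mul]
    refine Finset.sum_congr rfl fun j _ => ?_
    ring
  rw [Finset.sum_congr rfl h1, Finset.sum_comm]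
  refine Finset.sum_congr rfl fun w _ => ?_
  rw [Finset.sum_comm]
  refine Finset.sum_congr rfl fun j _ => ?_
  unfold co
  push_cast
  rw [Finset.mul_sum, Finset.sum_mul]

/-- **bounded numbers of products of multiple zeta values** -/
theorem mainM {l : ℕ} (β : Fin l → ℝ) (hβ : ∀ j, IsAlgebraic ℚ (β j))
    (hli : LinearIndependent ℚ β) (N r d : ℕ) (κ C : ℝ) :
    ∃ B : ℝ, 1 < B ∧ ∃ n0 : ℕ, ∀ n : ℕ, n0 ≤ n → ∀ T : Finset (List (List ℕ)), T.card ≤ N →
      (∀ M ∈ T, M.length ≤ d ∧ ∀ u ∈ M, Cl n (κ * n) r u) → ∀ c : List (List ℕ) → Fin l → ℤ,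
      (∀ M ∈ T, ∀ j, |(c M j : ℝ)| ≤ C ^ n) →
      ((∀ w j, co T c w j = 0) ∧ ∑ M ∈ T, (∑ j, β j * c M j) * (M.map mz).prod = 0) ∨
      (B ^ n)⁻¹ < |∑ M ∈ T, (∑ j, β j * c M j) * (M.map mz).prod| := by
  classical
  set S : ℕ := (3 ^ (d * r)) ^ d with hS
  obtain ⟨B, hB, n0, hmain⟩ := mainW β hβ hli (N * S) (d * r) (d * |κ|) ((N * S + 1) * |C|)
  refine ⟨B, hB, n0 + d * r + 1, fun n hn T hTN hT c hc => ?_⟩
  have hn1 : (1 : ℝ) ≤ n := by exact_mod_cast (by omega : 1 ≤ n)
  have hT' : ∀ M ∈ T, M.length ≤ d ∧ ∀ u ∈ M, Cl n (|κ| * n) r u := by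
    intro M hM
    refine ⟨(hT M hM).1, fun u hu => ?_⟩
    obtain ⟨h1, h2, h3⟩ := (hT M hM).2 u hu
    refine ⟨h1, fun m hm => ⟨(h2 m hm).1, (h2 m hm).2.trans ?_⟩, h3⟩
    exact mul_le_mul_of_nonneg_right (le_abs_self κ) (by linarith only [hn1])
  set La : Finset (List ℕ) := T.biUnion fun M => (stil M).toFinset with hLa
  have hLaM : ∀ M ∈ T, ∀ w ∈ stil M, w ∈ La := fun M hM w hw =>
    Finset.mem_biUnion.2 ⟨M, hM, List.mem_toFinset.2 hw⟩
  have hcnt : ∀ M ∈ T, (stil M).length ≤ S := by
    intro M hM
    have h1 := (hT M hM).1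
    refine (stil_count r M fun u hu => ((hT M hM).2 u hu).1).2.trans ?_
    rw [hS]
    refine (Nat.pow_le_pow_left (Nat.pow_le_pow_right (by omega) (Nat.mul_le_mul_right r h1))
      _).trans ?_
    exact Nat.pow_le_pow_right (Nat.one_le_pow _ _ (by omega)) h1
  have hcard : La.card ≤ N * S := by
    calc La.card ≤ ∑ M ∈ T, (stil M).toFinset.card := Finset.card_biUnion_le
      _ ≤ ∑ _M ∈ T, S := Finset.sum_le_sum fun M hM =>
          (List.toFinset_card_le _).trans (hcnt M hM)
      _ = T.card * S := by rw [Finset.sum_const, smul_eq_mul]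
      _ ≤ N * S := Nat.mul_le_mul_right _ hTN
  have hLaC : ∀ w ∈ La, w.length ≤ d * r ∧ Adm n (d * |κ|) w := by
    intro w hw
    obtain ⟨M, hM, hw⟩ := Finset.mem_biUnion.1 hw
    have h1 := stil_Cl (by positivity) M (hT' M hM).2 w (List.mem_toFinset.1 hw)
    have h2 := (hT M hM).1
    refine ⟨h1.1.trans (Nat.mul_le_mul_right _ h2), fun m hm => ⟨(h1.2.1 m hm).1, ?_⟩, h1.2.2⟩
    refine (h1.2.1 m hm).2.trans ?_
    rw [mul_assoc]
    refine mul_le_mul_of_nonneg_right (by exact_mod_cast h2) (by positivity)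
  have hexp := val_expand β (K := |κ| * n) (by positivity) T hT' (by omega : d * r + 1 ≤ n) c La
    hLaM
  have hCn : ∀ z : ℝ, |z| ≤ C ^ n → |z| ≤ |C| ^ n := fun z hz =>
    hz.trans ((le_abs_self _).trans (abs_pow _ _).le)
  have hbound : ∀ w ∈ La, ∀ j, |(co T c w j : ℝ)| ≤ ((N * S + 1 : ℝ) * |C|) ^ n := by
    intro w _ j
    unfold co
    push_cast
    calc |∑ M ∈ T, (c M j : ℝ) * (((stil M).countP (· = w) : ℕ) : ℝ)| ≤
        ∑ M ∈ T, |C| ^ n * (S : ℝ) := by
          refine (Finset.abs_sum_le_sum_abs _ _).trans (Finset.sum_le_sum fun M hM => ?_)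
          rw [abs_mul, Nat.abs_cast]
          refine mul_le_mul (hCn _ (hc M hM j)) ?_ (Nat.cast_nonneg _) (by positivity)
          exact_mod_cast List.countP_le_length.trans (hcnt M hM)
      _ = T.card * (|C| ^ n * S) := by rw [Finset.sum_const, nsmul_eq_mul]
      _ ≤ N * (|C| ^ n * S) := mul_le_mul_of_nonneg_right (by exact_mod_cast hTN) (by positivity)
      _ ≤ (N * S + 1) * |C| ^ n := by
          have : (0 : ℝ) ≤ |C| ^ n := by positivity
          nlinarith only [this]
      _ ≤ (N * S + 1) ^ n * |C| ^ n := by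
          refine mul_le_mul_of_nonneg_right ?_ (by positivity)
          refine le_self_pow₀ ?_ (by omega)
          have : (0 : ℝ) ≤ N * S := by positivity
          linarith only [this]
      _ = ((N * S + 1 : ℝ) * |C|) ^ n := (mul_pow _ _ _).symm
  by_cases hz : ∃ w ∈ La, ∃ j, co T c w j ≠ 0
  · right
    rw [hexp]
    exact hmain n (by omega) La hcard hLaC (fun w j => co T c w j) hz (by
      intro w hw j
      exact hbound w hw j)
  · left
    push Not at hz
    have hz' : ∀ w j, co T c w j = 0 := by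
      intro w j
      by_cases hw : w ∈ La
      · exact hz w hw j
      · unfold co
        refine Finset.sum_eq_zero fun M hM => ?_
        rw [List.countP_eq_zero.2, Nat.cast_zero, mul_zero]
        intro w' hw'
        rw [decide_eq_true_eq]
        rintro rfl
        exact hw (hLaM M hM _ hw')
    refine ⟨hz', ?_⟩
    rw [hexp]
    refine Finset.sum_eq_zero fun w _ => Finset.sum_eq_zero fun j _ => ?_
    rw [hz' w j, Int.cast_zero, mul_zero, zero_mul]

end Pool.Agent.Y760.ZF
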