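import Pool.Agent.Y760.ZF.Prod
import Pool.Agent.TH507.DS.C

/-!
# Relations between multiple zeta values with first argument at least `n` are double shuffle
relations (helper760)
-/

set_option autoImplicit false

namespace Pool.Agent.Y760.ZF

open Filter Topology Pool.Agent.Y760.ZG
open Pool.Agent.TH507.DS (word decA sh H el ds Zh stI Good)

lemma hr_eq (l : List ℕ) : ∀ m, Pool.Agent.TH507.WD.hr l m = hr l m := by
  induction l with
  | nil =>
    intro m
    rw [Pool.Agent.TH507.WD.hr, hr_nil]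
  | cons a l ih =>
    intro m
    rw [Pool.Agent.TH507.WD.hr, hr_cons]
    exact Finset.sum_congr rfl fun j _ => by rw [ih]

lemma mz_eq (l : List ℕ) : Pool.Agent.TH507.WD.mz l = mz l := by
  cases l with
  | nil => rw [Pool.Agent.TH507.WD.mz, mz]
  | cons a l =>
    rw [Pool.Agent.TH507.WD.mz, mz]
    exact tsum_congr fun k => by rw [hr_eq]

lemma sti_eq (u v : List ℕ) : stI u v = sti u v := by
  induction u, v using sti.induct with
  | case1 v => rw [stI, sti]
  | case2 i k => rw [stI, sti]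
  | case3 i k j l ih1 ih2 ih3 => rw [stI, sti, ih1, ih2, ih3]

lemma stil_one (w : List ℕ) : stil [w] = [w] := by
  rw [stil, stil, List.flatMap_cons, List.flatMap_nil, List.append_nil]
  cases w with
  | nil => rw [sti]
  | cons i k => rw [sti]

lemma stil_two (u v : List ℕ) : stil [u, v] = sti u v := by
  rw [stil, stil_one, List.flatMap_cons, List.flatMap_nil, List.append_nil]

lemma list_countZ {M : Type*} [AddCommGroup M] (L : List (List ℕ)) (F : List ℕ → M)
    (s : Finset (List ℕ)) (hs : ∀ w ∈ L, w ∈ s) :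
    (L.map F).sum = ∑ w ∈ s, ((L.countP (· = w) : ℕ) : ℤ) • F w := by
  induction L with
  | nil => simp
  | cons a L ih =>
    rw [List.map_cons, List.sum_cons, ih fun w hw => hs w (List.mem_cons_of_mem _ hw)]
    have h1 : ∀ w, (((a :: L).countP (· = w) : ℕ) : ℤ) • F w =
        ((L.countP (· = w) : ℕ) : ℤ) • F w + if a = w then F w else 0 := by
      intro w
      rw [List.countP_cons]
      by_cases h : a = w
      · simp only [h, decide_true, if_true]
        push_cast
        rw [add_smul, one_smul]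
      · simp only [h, decide_false, if_false, Bool.false_eq_true]
        rw [add_zero, add_zero]
    simp only [h1]
    rw [Finset.sum_add_distrib, Finset.sum_ite_eq, if_pos (hs a List.mem_cons_self), add_comm]

lemma expandG {M : Type*} [AddCommGroup M] {l : ℕ} (T : Finset (List (List ℕ)))
    (c : List (List ℕ) → Fin l → ℤ) (j : Fin l) (hco : ∀ w, co T c w j = 0) (G : List ℕ → M) :
    ∑ m ∈ T, c m j • ((stil m).map G).sum = 0 := by
  classical
  set La : Finset (List ℕ) := T.biUnion fun M => (stil M).toFinset with hLa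
  have h1 : ∀ m ∈ T, c m j • ((stil m).map G).sum =
      ∑ w ∈ La, (c m j * ((stil m).countP (· = w) : ℤ)) • G w := by
    intro m hm
    rw [list_countZ (stil m) G La (fun w hw =>
      Finset.mem_biUnion.2 ⟨m, hm, List.mem_toFinset.2 hw⟩), Finset.smul_sum]
    exact Finset.sum_congr rfl fun w _ => by rw [smul_smul]
  rw [Finset.sum_congr rfl h1, Finset.sum_comm]
  refine Finset.sum_eq_zero fun w _ => ?_
  rw [← Finset.sum_smul]
  have h2 := hco w
  unfold co at h2
  rw [h2, zero_smul]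

lemma Cl.good {n : ℕ} {K : ℝ} {r : ℕ} {w : List ℕ} (h : Cl n K r w) (hn : r + 1 ≤ n) : Good w := by
  refine ⟨fun s hs => (h.2.1 s hs).1, fun s l' hw => ?_⟩
  have h1 := h.2.2 s (by rw [hw]; simp)
  have h2 := h.1
  rw [hw, List.length_cons] at h2
  omega

lemma mz_word {w : List ℕ} (hw : ∀ s ∈ w, 1 ≤ s) :
    Pool.Agent.TH507.WD.mz (decA 0 (word w)) = mz w := by
  rw [← Pool.Agent.TH507.DS.Zb_eq _ (Pool.Agent.TH507.DS.Vd_word _),
    ← Pool.Agent.TH507.DS.mz_eq _ hw, mz_eq]

/-- the element `a + ∑ c_w w + ∑ d_(u, v) (u sh v)` -/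
noncomputable def elt (Λ : Finset (List ℕ)) (P : Finset (List ℕ × List ℕ)) (a : ℤ)
    (c : List ℕ → ℤ) (d : List ℕ × List ℕ → ℤ) : H :=
  a • Finsupp.single [] 1 + ∑ w ∈ Λ, c w • Finsupp.single (word w) 1 +
    ∑ p ∈ P, d p • el (sh (word p.1) (word p.2))

/-- the coefficients of the products -/
def cf (a : ℤ) (c : List ℕ → ℤ) (d : List ℕ × List ℕ → ℤ) : List (List ℕ) → Fin 1 → ℤ
  | [], _ => a
  | [w], _ => c w
  | [u, v], _ => d (u, v)
  | _, _ => 0

/-- the products -/
def pd (Λ : Finset (List ℕ)) (P : Finset (List ℕ × List ℕ)) : Finset (List (List ℕ)) :=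
  insert [] (Λ.image fun w => [w]) ∪ P.image fun p => [p.1, p.2]

lemma pd_sum {M : Type*} [AddCommMonoid M] (Λ : Finset (List ℕ)) (P : Finset (List ℕ × List ℕ))
    (f : List (List ℕ) → M) :
    ∑ m ∈ pd Λ P, f m = f [] + ∑ w ∈ Λ, f [w] + ∑ p ∈ P, f [p.1, p.2] := by
  unfold pd
  rw [Finset.sum_union, Finset.sum_insert, Finset.sum_image, Finset.sum_image]
  · intro p _ q _ h
    simp only [List.cons.injEq, and_true] at h
    exact Prod.ext h.1 h.2
  · intro p _ q _ h
    simpa using h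
  · intro h
    obtain ⟨w, _, h⟩ := Finset.mem_image.1 h
    exact absurd h (by simp)
  · rw [Finset.disjoint_left]
    intro m hm hm'
    obtain ⟨p, _, rfl⟩ := Finset.mem_image.1 hm'
    rcases Finset.mem_insert.1 hm with h | h
    · exact absurd h (by simp)
    · obtain ⟨w, _, h⟩ := Finset.mem_image.1 h
      exact absurd h (by simp)

lemma pd_card (Λ : Finset (List ℕ)) (P : Finset (List ℕ × List ℕ)) :
    (pd Λ P).card ≤ 1 + Λ.card + P.card := by
  unfold pd
  refine (Finset.card_union_le _ _).trans ?_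
  have h1 := Finset.card_insert_le ([] : List (List ℕ)) (Λ.image fun w => [w])
  have h2 : (Λ.image fun w => [w]).card ≤ Λ.card := Finset.card_image_le
  have h3 : (P.image fun p => [p.1, p.2]).card ≤ P.card := Finset.card_image_le
  omega

lemma mem_pd {Λ : Finset (List ℕ)} {P : Finset (List ℕ × List ℕ)} {m : List (List ℕ)}
    (h : m ∈ pd Λ P) : m = [] ∨ (∃ w ∈ Λ, m = [w]) ∨ ∃ p ∈ P, m = [p.1, p.2] := by
  unfold pd at h
  rcases Finset.mem_union.1 h with h | h
  · rcases Finset.mem_insert.1 h with h | h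
    · exact Or.inl h
    · obtain ⟨w, hw, rfl⟩ := Finset.mem_image.1 h
      exact Or.inr (Or.inl ⟨w, hw, rfl⟩)
  · obtain ⟨p, hp, rfl⟩ := Finset.mem_image.1 h
    exact Or.inr (Or.inr ⟨p, hp, rfl⟩)

/-- **relations are double shuffle relations** -/
theorem dsW (N r : ℕ) (κ C : ℝ) :
    ∃ B : ℝ, 1 < B ∧ ∃ n0 : ℕ, ∀ n : ℕ, n0 ≤ n → ∀ (Λ : Finset (List ℕ))
      (P : Finset (List ℕ × List ℕ)), Λ.card ≤ N → P.card ≤ N → (∀ w ∈ Λ, Cl n (κ * n) r w) →
      (∀ p ∈ P, Cl n (κ * n) r p.1 ∧ Cl n (κ * n) r p.2) → ∀ (a : ℤ) (c : List ℕ → ℤ)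
      (d : List ℕ × List ℕ → ℤ), |(a : ℝ)| ≤ C ^ n → (∀ w ∈ Λ, |(c w : ℝ)| ≤ C ^ n) →
      (∀ p ∈ P, |(d p : ℝ)| ≤ C ^ n) →
      (elt Λ P a c d = ∑ p ∈ P, d p • ds p.1 p.2 ∧ Zh (elt Λ P a c d) = 0) ∨
        (B ^ n)⁻¹ < |Zh (elt Λ P a c d)| := by
  classical
  obtain ⟨B, hB, n0, hmain⟩ := mainM (l := 1) (fun _ => 1) (fun _ => isAlgebraic_one)
    (LinearIndependent.of_subsingleton 0 one_ne_zero) (1 + N + N) r 2 κ C
  refine ⟨B, hB, n0 + r + 1, fun n hn Λ P hΛN hPN hΛ hP a c d ha hc hd => ?_⟩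
  have h1 := hmain n (by omega) (pd Λ P) ((pd_card Λ P).trans (by omega)) (by
      intro m hm
      rcases mem_pd hm with rfl | ⟨w, hw, rfl⟩ | ⟨p, hp, rfl⟩
      · exact ⟨Nat.zero_le _, fun u hu => absurd hu List.not_mem_nil⟩
      · refine ⟨by simp, fun u hu => ?_⟩
        rw [List.mem_singleton] at hu
        rw [hu]
        exact hΛ w hw
      · refine ⟨by simp, fun u hu => ?_⟩
        rcases List.mem_cons.1 hu with rfl | hu
        · exact (hP p hp).1
        · rw [List.mem_singleton] at hu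
          rw [hu]
          exact (hP p hp).2) (cf a c d) (by
      intro m hm j
      rcases mem_pd hm with rfl | ⟨w, hw, rfl⟩ | ⟨p, hp, rfl⟩
      · exact ha
      · exact hc w hw
      · exact hd p hp)
  have hval : ∑ M ∈ pd Λ P, (∑ j : Fin 1, (1 : ℝ) * cf a c d M j) * (M.map mz).prod =
      Zh (elt Λ P a c d) := by
    rw [pd_sum]
    unfold elt
    rw [map_add, map_add, map_sum, map_sum, map_zsmul, Pool.Agent.TH507.DS.Zh_single]
    have e1 : Pool.Agent.TH507.WD.mz (decA 0 []) = 1 := by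
      rw [decA, Pool.Agent.TH507.WD.mz]
    rw [e1]
    simp only [Finset.univ_unique, Finset.sum_singleton, List.map_nil, List.prod_nil,
      List.map_cons, List.prod_cons, one_mul, mul_one]
    congr 1
    · congr 1
      · rw [zsmul_eq_mul, Int.cast_one, mul_one]
        rfl
      · refine Finset.sum_congr rfl fun w hw => ?_
        rw [map_zsmul, Pool.Agent.TH507.DS.Zh_single,
          mz_word (fun s hs => ((hΛ w hw).2.1 s hs).1), Int.cast_one, one_mul, zsmul_eq_mul]
        rfl
    · refine Finset.sum_congr rfl fun p hp => ?_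
      rw [map_zsmul, Pool.Agent.TH507.DS.Zh_el, zsmul_eq_mul,
        ← Pool.Agent.TH507.DS.mz_shuffle ((hP p hp).1.good (by omega))
          ((hP p hp).2.good (by omega)), mz_eq, mz_eq]
      rfl
  rw [hval] at h1
  rcases h1 with ⟨h1, h2⟩ | h1
  · left
    refine ⟨?_, h2⟩
    have h3 := expandG (pd Λ P) (cf a c d) 0 (fun w => h1 w 0)
      (fun w => (Finsupp.single (word w) 1 : H))
    rw [pd_sum] at h3
    simp only [stil_one, stil_two] at h3
    have e1 : stil [] = [[]] := by rw [stil]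
    rw [e1] at h3
    simp only [List.map_cons, List.map_nil, List.sum_cons, List.sum_nil, add_zero] at h3
    have h4 : elt Λ P a c d - ∑ p ∈ P, d p • ds p.1 p.2 =
        a • Finsupp.single [] 1 + ∑ w ∈ Λ, c w • Finsupp.single (word w) 1 +
          ∑ p ∈ P, d p • el ((stI p.1 p.2).map word) := by
      unfold elt
      simp only [ds, smul_sub, Finset.sum_sub_distrib]
      abel
    have h5 : elt Λ P a c d - ∑ p ∈ P, d p • ds p.1 p.2 = 0 := by
      rw [h4, ← h3]
      congr 1
      refine Finset.sum_congr rfl fun p _ => ?_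
      rw [el, List.map_map, sti_eq]
      rfl
    exact sub_eq_zero.1 h5
  · exact Or.inr h1

end Pool.Agent.Y760.ZF
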