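import Pool.Agent.Y760.ZF.IndF
import Pool.Agent.Y760.ZG.FinD

/-!
# Multiple zeta values with large first argument: relations of all exponential heights (helper760)
-/

set_option autoImplicit false

namespace Pool.Agent.Y760.ZF

open Filter Topology Pool.Agent.TH932.Abs Pool.Agent.TH932.Germs Pool.Agent.TH932.Chi
open Pool.Agent.TH796.AL Pool.Agent.TH883.Zg Pool.Agent.Y760.ZG

lemma exists_lim0 {I : Type} {n : ℕ → ℕ} (hn : ∀ t, t ≤ n t) {s : ℕ → I → ℕ} {κ : ℝ}
    (hs : ∀ t i, (s t i : ℝ) ≤ κ * n t) :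
    ∃ x : I → ℝ, (∀ i, 0 ≤ x i) ∧ Lim s x (fun t => (n t : ℝ)) := by
  have h1 : ∀ i, ∃ x : ℝ, x ∈ Set.Icc 0 κ ∧
      Tendsto (fun t => (s t i : ℝ) / n t) (UU : Filter ℕ) (𝓝 x) := by
    intro i
    obtain ⟨x, hx, hx'⟩ := (isCompact_Icc (a := (0 : ℝ)) (b := κ)).ultrafilter_le_nhds
      (UU.map fun t => (s t i : ℝ) / n t) (by
        rw [Filter.le_principal_iff, Ultrafilter.coe_map, Filter.mem_map]
        filter_upwards [ev_of_atTop (eventually_ge_atTop 1)] with t ht
        have h2 := hn t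
        have h3 : (0 : ℝ) < n t := by exact_mod_cast (by omega : 0 < n t)
        refine ⟨by positivity, ?_⟩
        rw [div_le_iff₀ h3]
        exact hs t i)
    exact ⟨x, hx, hx'⟩
  choose x hx hx' using h1
  refine ⟨x, fun i => (hx i).1, fun i ε hε => ?_⟩
  have h2 := (Metric.tendsto_nhds.1 (hx' i)) ε hε
  filter_upwards [h2, ev_of_atTop (eventually_ge_atTop 1)] with t h3 ht
  have h4 := hn t
  have h5 : (0 : ℝ) < n t := by exact_mod_cast (by omega : 0 < n t)
  rw [Real.dist_eq] at h3
  have h6 : (s t i : ℝ) - x i * n t = ((s t i : ℝ) / n t - x i) * n t := by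
    field_simp
  rw [h6, abs_mul, abs_of_pos h5]
  exact mul_le_mul_of_nonneg_right h3.le h5.le

/-- the first letter has value at least `n` -/
def Hd {g : ℕ} (n : ℕ) (s : Fin g → ℕ) (w : List (Fin g)) : Prop := ∀ i ∈ w.head?, n ≤ s i

/-- **patterns** -/
theorem mainP {l g : ℕ} (β : Fin l → ℝ) (hβ : ∀ j, IsAlgebraic ℚ (β j))
    (hli : LinearIndependent ℚ β) (Λ : Finset (List (Fin g))) (κ C : ℝ) :
    ∃ B : ℝ, 1 < B ∧ ∃ n0 : ℕ, ∀ n : ℕ, n0 ≤ n → ∀ s : Fin g → ℕ, Function.Injective s →
      (∀ i, 1 ≤ s i ∧ (s i : ℝ) ≤ κ * n) → ∀ a : Λ → Fin l → ℤ, a ≠ 0 →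
      (∀ w j, a w j ≠ 0 → Hd n s w.1) → (∀ w j, |(a w j : ℝ)| ≤ C ^ n) →
      (B ^ n)⁻¹ < |∑ w : Λ, ∑ j, (β j * a w j) * mz (w.1.map s)| := by
  classical
  by_contra hcon
  push Not at hcon
  have h1 : ∀ t : ℕ, ∃ n : ℕ, t ≤ n ∧ ∃ s : Fin g → ℕ, Function.Injective s ∧
      (∀ i, 1 ≤ s i ∧ (s i : ℝ) ≤ κ * n) ∧ ∃ a : Λ → Fin l → ℤ, a ≠ 0 ∧
      (∀ w j, a w j ≠ 0 → Hd n s w.1) ∧ (∀ w j, |(a w j : ℝ)| ≤ C ^ n) ∧
      |∑ w : Λ, ∑ j, (β j * a w j) * mz (w.1.map s)| ≤ (((t : ℝ) + 2) ^ n)⁻¹ :=
    fun t => hcon ((t : ℝ) + 2) (by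
      have : (0 : ℝ) ≤ t := Nat.cast_nonneg t
      linarith only [this]) t
  choose n hn s hinj hs a0 ha0 hhd hC hsmall using h1
  obtain ⟨x', hx', hlim'⟩ := exists_lim0 hn fun t i => (hs t i).2
  -- the scale
  obtain ⟨μ, hμ0, hμ1, hμx⟩ : ∃ μ : ℝ, 0 < μ ∧ μ ≤ 1 ∧ ∀ i, 0 < x' i → 2 * μ ≤ x' i := by
    set T : Finset ℝ := insert 2 ((Finset.univ.filter fun i => 0 < x' i).image x') with hT
    have hTne : T.Nonempty := ⟨2, Finset.mem_insert_self _ _⟩
    have hpos : ∀ z ∈ T, 0 < z := by
      intro z hz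
      rw [hT, Finset.mem_insert, Finset.mem_image] at hz
      rcases hz with rfl | ⟨i, hi, rfl⟩
      · norm_num
      · exact (Finset.mem_filter.1 hi).2
    have h2 := hpos _ (T.min'_mem hTne)
    have h3 := T.min'_le 2 (Finset.mem_insert_self _ _)
    refine ⟨T.min' hTne / 2, by linarith only [h2], by linarith only [h3], fun i hi => ?_⟩
    have h4 := T.min'_le (x' i) (Finset.mem_insert_of_mem
      (Finset.mem_image_of_mem _ (Finset.mem_filter.2 ⟨Finset.mem_univ _, hi⟩)))
    linarith only [h4]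
  set L : ℕ → ℝ := fun t => μ * (n t : ℝ) with hLdef
  have hL : Tendsto L atTop atTop :=
    (tendsto_natCast_atTop_atTop.comp (tendsto_atTop_mono hn tendsto_id)).const_mul_atTop hμ0
  set x : Fin g → ℝ := fun i => x' i / μ with hxdef
  have hlim : Lim s x L := by
    intro i ε hε
    filter_upwards [hlim' i (ε * μ) (mul_pos hε hμ0)] with t ht
    rw [hxdef, hLdef]
    simp only
    have h2 : x' i / μ * (μ * (n t : ℝ)) = x' i * n t := by
      field_simp
    rw [h2]
    refine ht.trans (le_of_eq ?_)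
    ring
  have hx : ∀ i, x i = 0 ∨ 1 ≤ x i := by
    intro i
    rcases (hx' i).eq_or_lt with h | h
    · left
      rw [hxdef]
      simp only
      rw [← h, zero_div]
    · right
      rw [hxdef]
      simp only
      rw [le_div_iff₀ hμ0, one_mul]
      have := hμx i h
      linarith only [this, hμ0]
  set B : Fin g → Bool := fun i => decide (1 ≤ x i) with hBdef
  have hB : ∀ i, B i = true ↔ 1 ≤ x i := fun i => by
    rw [hBdef]
    simp only [decide_eq_true_eq]
  have hB' : ∀ i, B i = false → x' i = 0 := by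
    intro i hi
    rcases hx i with h | h
    · rw [hxdef] at h
      simp only at h
      rcases div_eq_zero_iff.1 h with h | h
      · exact h
      · exact absurd h hμ0.ne'
    · rw [(hB i).2 h] at hi
      exact absurd hi (by decide)
  have hLs : ∀ᶠ t in (UU : Filter ℕ), ∀ i, B i = true → L t ≤ (s t i : ℝ) := by
    rw [Filter.eventually_all]
    intro i
    by_cases hi : B i = true
    · filter_upwards [hlim' i μ hμ0] with t ht _
      have h2 : 2 * μ ≤ x' i := by
        rcases (hx' i).eq_or_lt with h | h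
        · exfalso
          have h3 := (hB i).1 hi
          rw [hxdef] at h3
          simp only at h3
          rw [← h, zero_div] at h3
          linarith only [h3]
        · exact hμx i h
      have h3 := (abs_le.1 ht).1
      have h4 : (0 : ℝ) ≤ n t := Nat.cast_nonneg _
      show μ * (n t : ℝ) ≤ s t i
      nlinarith only [h2, h3, h4]
    · exact Eventually.of_forall fun t h => absurd h hi
  have hs1 : ∀ t i, 1 ≤ s t i := fun t i => (hs t i).1
  -- the number field
  set F : IntermediateField ℚ ℝ := IntermediateField.adjoin ℚ (Set.range β) with hFdef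
  have hF : FiniteDimensional ℚ F :=
    IntermediateField.finiteDimensional_adjoin fun x hx => by
      obtain ⟨j, rfl⟩ := hx
      exact (hβ j).isIntegral
  have hβF : ∀ j, β j ∈ F := fun j => IntermediateField.subset_adjoin ℚ _ ⟨j, rfl⟩
  have hβS : ∀ j, algebraMap ℝ HR (β j) ∈ SF hL F := fun j =>
    SF_of_NQ (q := 0) (m := 0) (NQ.coe ⟨_, cst_mem_KA hL F ⟨β j, hβF j⟩⟩)
  -- the words whose first letter is large
  set Λ' : Type := {w : Λ // Lg B w.1} with hΛ'
  have hout : ∀ᶠ t in (UU : Filter ℕ), ∀ w : Λ, ¬ Lg B w.1 → ∀ j, a0 t w j = 0 := by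
    rw [Filter.eventually_all]
    intro w
    by_cases hw : Lg B w.1
    · exact Eventually.of_forall fun t h => absurd hw h
    · obtain ⟨i, u, hiu⟩ : ∃ i u, w.1 = i :: u := by
        cases h : w.1 with
        | nil =>
          exact absurd (Or.inl h) hw
        | cons i u => exact ⟨i, u, rfl⟩
      have hi : B i = false := by
        cases h : B i with
        | true => exact absurd (Or.inr ⟨i, u, hiu, h⟩) hw
        | false => rfl
      filter_upwards [hlim' i (1 / 2) (by norm_num), ev_of_atTop (eventually_ge_atTop 1)]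
        with t ht ht1 _ j
      by_contra hne
      have h2 := hhd t w j hne
      unfold Hd at h2
      have h3 := h2 i (by rw [hiu]; simp)
      rw [hB' i hi, zero_mul, sub_zero] at ht
      have h4 := (le_abs_self _).trans ht
      have h5 : (n t : ℝ) ≤ s t i := by exact_mod_cast h3
      have h6 := hn t
      have h7 : (1 : ℝ) ≤ n t := by exact_mod_cast (by omega : 1 ≤ n t)
      linarith only [h4, h5, h7]
  set y : Λ' × Fin l → HR := fun p => algebraMap ℝ HR (β p.2) * Xg s B p.1.1.1 with hy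
  set a : Λ' × Fin l → GG := fun p => gm fun t => (a0 t p.1.1 p.2 : ℚ) with ha
  have hIG : ∀ p, IG L (Real.log (|C| + 1) / μ) (a p) := by
    intro p
    refine ⟨fun t => a0 t p.1.1 p.2, rfl, Eventually.of_forall fun t => ?_⟩
    refine (hC t p.1.1 p.2).trans ?_
    have h2 : 0 ≤ |C| := abs_nonneg C
    have h3 : Real.log (|C| + 1) / μ * L t = (n t : ℝ) * Real.log (|C| + 1) := by
      rw [hLdef]
      field_simp
    rw [h3, Real.exp_nat_mul, Real.exp_log (by linarith only [h2])]
    refine (le_abs_self _).trans ?_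
    rw [abs_pow]
    exact pow_le_pow_left₀ h2 (by linarith only []) _
  have hnul : Nul L (∑ p, rho (a p) * y p) := by
    have e1 : ∑ p, rho (a p) * y p = gr fun t =>
        ∑ w : Λ, ∑ j, (β j * a0 t w j) * mz (w.1.map (s t)) := by
      have e2 : ∀ p, rho (a p) * y p = gr fun t =>
          (β p.2 * a0 t p.1.1 p.2) * mz (p.1.1.1.map (s t)) := by
        intro p
        rw [ha, hy]
        simp only
        unfold Xg
        rw [rho_gm, cst_eq, gr_mul, gr_mul]
        congr 1
        funext t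
        rw [Xt_mz s B t p.1.2]
        unfold aw
        push_cast
        ring
      rw [Finset.sum_congr rfl fun p _ => e2 p, gr_sum, gr_eq]
      filter_upwards [hout] with t ht
      rw [Fintype.sum_prod_type]
      show ∑ w : {w : Λ // Lg B w.1}, ∑ j, (β j * a0 t w.1 j) * mz (w.1.1.map (s t)) = _
      rw [← Finset.sum_filter_add_sum_filter_not Finset.univ (fun w : Λ => Lg B w.1),
        Finset.sum_eq_zero (s := Finset.univ.filter fun w : Λ => ¬ Lg B w.1) (fun w hw =>
          Finset.sum_eq_zero fun j _ => by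
            rw [ht w (Finset.mem_filter.1 hw).2 j, Int.cast_zero, mul_zero, zero_mul]), add_zero]
      exact (Finset.sum_subtype (Finset.univ.filter fun w : Λ => Lg B w.1) (fun w => by
        rw [Finset.mem_filter]
        exact ⟨fun h => h.2, fun h => ⟨Finset.mem_univ _, h⟩⟩)
        (fun w => ∑ j, (β j * a0 t w j) * mz (w.1.map (s t)))).symm
    rw [e1]
    intro T
    rw [mem_SR]
    intro ε hε
    have h2 : ∀ᶠ t : ℕ in (UU : Filter ℕ), Real.exp |T| ≤ (t : ℝ) :=
      ev_of_atTop (tendsto_natCast_atTop_atTop.eventually_ge_atTop _)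
    filter_upwards [h2] with t h3
    refine (hsmall t).trans ?_
    have hn0 : (0 : ℝ) ≤ n t := Nat.cast_nonneg _
    have h6 : Real.exp (|T| * (n t : ℝ)) ≤ ((t : ℝ) + 2) ^ (n t) := by
      rw [mul_comm, Real.exp_nat_mul]
      exact pow_le_pow_left₀ (Real.exp_pos _).le (by linarith only [h3]) _
    calc (((t : ℝ) + 2) ^ (n t))⁻¹ ≤ (Real.exp (|T| * (n t : ℝ)))⁻¹ :=
          inv_anti₀ (Real.exp_pos _) h6
      _ = Real.exp (-(|T| * (n t : ℝ))) := (Real.exp_neg _).symm
      _ ≤ Real.exp (-(T - ε) * L t) := by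
          apply Real.exp_le_exp.2
          rw [hLdef]
          simp only
          have h7 : T * (μ * (n t : ℝ)) ≤ |T| * (n t : ℝ) := by
            have h8 := le_abs_self T
            have h9 := abs_nonneg T
            have h10 : T * (μ * (n t : ℝ)) ≤ |T| * (μ * (n t : ℝ)) :=
              mul_le_mul_of_nonneg_right h8 (by positivity)
            have h11 : μ * (n t : ℝ) ≤ n t := mul_le_of_le_one_left hn0 hμ1
            exact h10.trans (mul_le_mul_of_nonneg_left h11 h9)
          have h8 : 0 ≤ ε * (μ * (n t : ℝ)) := by positivity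
          linarith only [h7, h8]
  have hmain := gen hF (Fintype.card (Λ' × Fin l)) (Λ' × Fin l) rfl y
    (fun p => (DD.of_SF (hβS p.2)).mul (DD_Xg hL hLs hlim p.1.2)) ?_ _ a hIG hnul
  · have h2 : ∀ᶠ t in (UU : Filter ℕ), ∀ p : Λ' × Fin l, (a0 t p.1.1 p.2 : ℚ) = 0 := by
      rw [Filter.eventually_all]
      intro p
      have h3 := hmain p
      simp only [ha] at h3
      rw [← gm_zero, gm_eq] at h3
      exact h3
    obtain ⟨t, ht, ht'⟩ := (h2.and hout).exists
    apply ha0 t
    funext w j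
    by_cases hw : Lg B w.1
    · exact_mod_cast ht (⟨w, hw⟩, j)
    · exact ht' w hw j
  · intro p hp hpn
    have h2 : Nul L (∑ w : Λ', (∑ j, algebraMap ℝ HR (β j) * rho (p (w, j))) *
        Xg s B w.1.1) := by
      have e1 : ∑ q, rho (p q) * y q =
          ∑ w : Λ', (∑ j, algebraMap ℝ HR (β j) * rho (p (w, j))) * Xg s B w.1.1 := by
        rw [Fintype.sum_prod_type]
        refine Finset.sum_congr rfl fun e _ => ?_
        rw [Finset.sum_mul]
        refine Finset.sum_congr rfl fun j _ => ?_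
        simp only [hy]
        ring
      rw [← e1]
      exact hpn
    have h3 := indW hF hlim hx hB hs1 hLs hinj (∑ w : Λ', w.1.1.length) Λ' (fun w => w.1.1)
      (fun w w' h => Subtype.ext (Subtype.ext h)) (fun w => w.2)
      (fun w => Finset.single_le_sum (f := fun w : Λ' => w.1.1.length) (fun _ _ => Nat.zero_le _)
        (Finset.mem_univ w))
      (fun w => ∑ j, algebraMap ℝ HR (β j) * rho (p (w, j))) (fun w =>
        (SF hL F).sum_mem fun j _ => (SF hL F).mul_mem (hβS j) (hp _)) h2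
    rintro ⟨w, j⟩
    exact disj_thm (Fin l) inferInstance β hli (fun j => p (w, j)) (h3 w) j

end Pool.Agent.Y760.ZF
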