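import Pool.Agent.Y760.ZF.FinF

/-!
# Bounded numbers of multiple zeta values with first argument at least `n` (helper760)
-/

set_option autoImplicit false

namespace Pool.Agent.Y760.ZF

open Filter Topology Pool.Agent.Y760.ZG

/-- the first argument is at least `n`, all arguments are positive and at most `κ n` -/
def Adm (n : ℕ) (κ : ℝ) (w : List ℕ) : Prop :=
  (∀ m ∈ w, 1 ≤ m ∧ (m : ℝ) ≤ κ * n) ∧ ∀ k ∈ w.head?, n ≤ k

/-- the words -/
lemma exists_words (r g : ℕ) : ∃ Λ : Finset (List (Fin g)), ∀ w, w ∈ Λ ↔ w.length ≤ r := by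
  classical
  have h1 : ({l : List (Fin g) | l.length ≤ r}).Finite := List.finite_length_le _ r
  exact ⟨h1.toFinset, fun w => by rw [Set.Finite.mem_toFinset]; rfl⟩

/-- **bounded numbers of multiple zeta values** -/
theorem mainW {l : ℕ} (β : Fin l → ℝ) (hβ : ∀ j, IsAlgebraic ℚ (β j))
    (hli : LinearIndependent ℚ β) (N r : ℕ) (κ C : ℝ) :
    ∃ B : ℝ, 1 < B ∧ ∃ n0 : ℕ, ∀ n : ℕ, n0 ≤ n → ∀ W : Finset (List ℕ), W.card ≤ N →
      (∀ w ∈ W, w.length ≤ r ∧ Adm n κ w) → ∀ a : List ℕ → Fin l → ℤ,
      (∃ w ∈ W, ∃ j, a w j ≠ 0) → (∀ w ∈ W, ∀ j, |(a w j : ℝ)| ≤ C ^ n) →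
      (B ^ n)⁻¹ < |∑ w ∈ W, ∑ j, (β j * a w j) * mz w| := by
  classical
  choose Λ hΛ using fun g => exists_words r g
  choose B hB n0 hmain using fun g => mainP (g := g) β hβ hli (Λ g) κ C
  refine ⟨∑ g ∈ Finset.range (N * r + 1), B g, ?_, 
    ∑ g ∈ Finset.range (N * r + 1), n0 g, ?_⟩
  · refine (hB 0).trans_le ?_
    exact Finset.single_le_sum (f := B) (fun g _ => by linarith only [hB g])
      (Finset.mem_range.2 (by omega))
  intro n hn W hWN hW a ha hC
  set LL : Finset ℕ := W.biUnion fun w => w.toFinset with hLL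
  have hcard : LL.card ≤ N * r := by
    calc LL.card ≤ ∑ w ∈ W, w.toFinset.card := Finset.card_biUnion_le
      _ ≤ ∑ _w ∈ W, r := Finset.sum_le_sum fun w hw =>
          (List.toFinset_card_le w).trans (hW w hw).1
      _ = W.card * r := by rw [Finset.sum_const, smul_eq_mul]
      _ ≤ N * r := Nat.mul_le_mul_right _ hWN
  set g : ℕ := LL.card with hg
  set s : Fin g ↪o ℕ := LL.orderEmbOfFin rfl with hs
  have hsLL : ∀ i, s i ∈ LL := fun i => LL.orderEmbOfFin_mem rfl i
  have hsurj : ∀ m ∈ LL, ∃ i, s i = m := by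
    intro m hm
    have h1 := LL.range_orderEmbOfFin rfl
    have h2 : m ∈ Set.range (LL.orderEmbOfFin rfl) := by
      rw [h1]
      exact hm
    exact h2
  have hgr : g ∈ Finset.range (N * r + 1) := Finset.mem_range.2 (by omega)
  have hn0 : n0 g ≤ n := by
    have h1 : n0 g ≤ ∑ g ∈ Finset.range (N * r + 1), n0 g :=
      Finset.single_le_sum (f := n0) (fun _ _ => Nat.zero_le _) hgr
    omega
  have hmem : ∀ w ∈ W, ∀ m ∈ w, m ∈ LL := by
    intro w hw m hm
    rw [hLL, Finset.mem_biUnion]
    exact ⟨w, hw, List.mem_toFinset.2 hm⟩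
  -- coding
  have hcode : ∀ w : List ℕ, w ∈ W → ∃ w' : List (Fin g), w'.map s = w := by
    intro w hw
    refine ⟨w.attach.map fun m => (hsurj m.1 (hmem w hw m.1 m.2)).choose, ?_⟩
    rw [List.map_map]
    conv_rhs => rw [← List.attach_map_subtype_val w]
    refine List.map_congr_left fun m _ => ?_
    exact (hsurj m.1 (hmem w hw m.1 m.2)).choose_spec
  choose! enc henc using hcode
  have hencΛ : ∀ w ∈ W, enc w ∈ Λ g := by
    intro w hw
    rw [hΛ]
    have h1 := congrArg List.length (henc w hw)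
    rw [List.length_map] at h1
    rw [h1]
    exact (hW w hw).1
  have hinjm : Function.Injective (List.map s) := List.map_injective_iff.2 s.injective
  set a' : Λ g → Fin l → ℤ := fun w' j => if w'.1.map s ∈ W then a (w'.1.map s) j else 0 with ha'
  have ha'W : ∀ w (hw : w ∈ W) j, a' ⟨enc w, hencΛ w hw⟩ j = a w j := by
    intro w hw j
    rw [ha']
    simp only
    rw [henc w hw, if_pos hw]
  obtain ⟨w1, hw1, j1, hj1⟩ := ha
  have hC0 : 0 ≤ C ^ n := (abs_nonneg _).trans (hC w1 hw1 j1)
  have h1 := hmain g n hn0 s s.injective (fun i => by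
      have h2 := hsLL i
      rw [hLL, Finset.mem_biUnion] at h2
      obtain ⟨w, hw, h3⟩ := h2
      exact (hW w hw).2.1 _ (List.mem_toFinset.1 h3)) a' (by
      intro h2
      apply hj1
      rw [← ha'W w1 hw1 j1, h2]
      rfl) (fun w' j hne => by
      rw [ha'] at hne
      simp only at hne
      split_ifs at hne with h2
      · intro i hi
        have h3 := (hW _ h2).2.2 (s i) (by
          rw [List.head?_map]
          exact Option.mem_map_of_mem s hi)
        exact h3
      · exact absurd rfl hne) (fun w' j => by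
      rw [ha']
      simp only
      split_ifs with h2
      · exact hC _ h2 j
      · rw [Int.cast_zero, abs_zero]
        exact hC0)
  have h2 : ∑ w' : Λ g, ∑ j, (β j * a' w' j) * mz (w'.1.map s) =
      ∑ w ∈ W, ∑ j, (β j * a w j) * mz w := by
    have h3 : ∀ w' : Λ g, ¬ w'.1.map s ∈ W →
        ∑ j, (β j * a' w' j) * mz (w'.1.map s) = 0 := by
      intro w' hw'
      refine Finset.sum_eq_zero fun j _ => ?_
      rw [ha']
      simp only
      rw [if_neg hw', Int.cast_zero, mul_zero, zero_mul]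
    rw [← Finset.sum_filter_add_sum_filter_not Finset.univ (fun w' : Λ g => w'.1.map s ∈ W),
      Finset.sum_eq_zero (s := Finset.univ.filter fun w' : Λ g => ¬ w'.1.map s ∈ W)
        (fun w' hw' => h3 w' (Finset.mem_filter.1 hw').2), add_zero]
    refine Finset.sum_bij' (fun w' _ => w'.1.map s)
      (fun w hw => (⟨enc w, hencΛ w hw⟩ : Λ g)) ?_ ?_ ?_ ?_ ?_
    · intro w' hw'
      exact (Finset.mem_filter.1 hw').2
    · intro w hw
      rw [Finset.mem_filter]
      refine ⟨Finset.mem_univ _, ?_⟩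
      simp only
      rw [henc w hw]
      exact hw
    · intro w' hw'
      refine Subtype.ext (hinjm ?_)
      exact henc _ (Finset.mem_filter.1 hw').2
    · intro w hw
      exact henc w hw
    · intro w' hw'
      refine Finset.sum_congr rfl fun j _ => ?_
      rw [ha']
      simp only
      rw [if_pos (Finset.mem_filter.1 hw').2]
  rw [h2] at h1
  refine lt_of_le_of_lt ?_ h1
  have hBg : B g ≤ ∑ g ∈ Finset.range (N * r + 1), B g :=
    Finset.single_le_sum (f := B) (fun g _ => by linarith only [hB g]) hgr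
  have hBg0 : 0 < B g := by linarith only [hB g]
  gcongr

end Pool.Agent.Y760.ZF
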