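import Pool.Agent.Y760.ZG.Ch

/-!
# Inverting a system of negligible height (helper760)
-/

set_option autoImplicit false

namespace Pool.Agent.Y760.ZF

open Filter Topology Pool.Agent.TH932.Abs Pool.Agent.TH932.Germs Pool.Agent.TH932.Chi
open Pool.Agent.TH796.AL Pool.Agent.Y760.ZG

lemma inv_sys {L : ℕ → ℝ} (hL : Tendsto L atTop atTop) {J P : Type} [Fintype J] [DecidableEq J]
    [Fintype P] [DecidableEq P] (M : P → J → GG) (hM : ∀ k j, M k j ∈ KK L hL)
    (hker : ∀ v : J → GG, (∀ k, ∑ j, M k j * v j = 0) → ∀ j, v j = 0) :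
    ∃ N : J → P → GG, (∀ j k, N j k ∈ KK L hL) ∧
      ∀ j j', ∑ k, N j k * M k j' = if j' = j then 1 else 0 := by
  set f : (J → KK L hL) →ₗ[KK L hL] (P → KK L hL) :=
    { toFun := fun v k => ∑ j, (⟨M k j, hM k j⟩ : KK L hL) * v j
      map_add' := fun v v' => by
        funext k
        simp only [Pi.add_apply, mul_add]
        rw [Finset.sum_add_distrib]
      map_smul' := fun c v => by
        funext k
        simp only [Pi.smul_apply, smul_eq_mul, RingHom.id_apply]
        rw [Finset.mul_sum]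
        exact Finset.sum_congr rfl fun j _ => mul_left_comm _ _ _ } with hf
  have hfa : ∀ v k, f v k = ∑ j, (⟨M k j, hM k j⟩ : KK L hL) * v j := fun v k => rfl
  have hinj : LinearMap.ker f = ⊥ := by
    rw [LinearMap.ker_eq_bot']
    intro v hv
    funext j
    apply Subtype.ext
    refine hker (fun j => (v j : GG)) (fun k => ?_) j
    have h1 := congrArg (fun z : KK L hL => (z : GG)) (congrFun hv k)
    rw [hfa] at h1
    simpa using h1
  obtain ⟨g, hg⟩ := f.exists_leftInverse_of_injective hinj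
  refine ⟨fun j k => (g (Pi.single k 1) j : GG), fun j k => (g (Pi.single k 1) j).2,
    fun j j' => ?_⟩
  have h1 : g (f (Pi.single j' 1)) = Pi.single j' 1 := by
    have := congrArg (fun h => h (Pi.single j' (1 : KK L hL))) hg
    simpa using this
  have h2 : f (Pi.single j' 1) = ∑ k, (⟨M k j', hM k j'⟩ : KK L hL) • (Pi.single k 1 : P → KK L hL) := by
    funext k
    rw [hfa, Finset.sum_eq_single j']
    · rw [Pi.single_eq_same, mul_one, Finset.sum_apply, Finset.sum_eq_single k]
      · rw [Pi.smul_apply, Pi.single_eq_same, smul_eq_mul, mul_one]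
      · intro k' _ hk'
        rw [Pi.smul_apply, Pi.single_eq_of_ne (Ne.symm hk'), smul_zero]
      · intro h
        exact absurd (Finset.mem_univ k) h
    · intro j _ hj
      rw [Pi.single_eq_of_ne hj, mul_zero]
    · intro h
      exact absurd (Finset.mem_univ j') h
  rw [h2, map_sum] at h1
  have h3 := congrArg (fun z : KK L hL => (z : GG)) (congrFun h1 j)
  simp only [Finset.sum_apply, map_smul, Pi.smul_apply, smul_eq_mul] at h3
  rw [Pi.single_apply] at h3
  have h4 : ((∑ k, (⟨M k j', hM k j'⟩ : KK L hL) * g (Pi.single k 1) j : KK L hL) : GG) =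
      ∑ k, M k j' * (g (Pi.single k 1) j : GG) := by
    rw [AddSubmonoidClass.coe_finset_sum]
    rfl
  rw [h4] at h3
  rw [Finset.sum_congr rfl fun k _ => mul_comm (g (Pi.single k 1) j : GG) (M k j'), h3]
  by_cases h : j = j'
  · rw [if_pos h, if_pos h.symm]
    rfl
  · rw [if_neg h, if_neg (Ne.symm h)]
    rfl

lemma inv_SR {L : ℕ → ℝ} (hL : Tendsto L atTop atTop) {J P : Type} [Fintype J] [DecidableEq J]
    [Fintype P] [DecidableEq P] (M : P → J → GG) (hM : ∀ k j, M k j ∈ KK L hL)
    (hker : ∀ v : J → GG, (∀ k, ∑ j, M k j * v j = 0) → ∀ j, v j = 0) {y : J → HR} {δ : ℝ}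
    (h : ∀ k, ∑ j, rho (M k j) * y j ∈ SR L δ) (j : J) : y j ∈ SR L δ := by
  obtain ⟨N, hN, hNM⟩ := inv_sys hL M hM hker
  have h1 : y j = ∑ k, rho (N j k) * ∑ j', rho (M k j') * y j' := by
    simp only [Finset.mul_sum]
    rw [Finset.sum_comm]
    have e1 : ∀ j', ∑ k, rho (N j k) * (rho (M k j') * y j') = (if j' = j then 1 else 0) * y j' := by
      intro j'
      have h2 := congrArg rho (hNM j j')
      rw [map_sum] at h2
      have h3 : rho (if j' = j then (1 : GG) else 0) = (if j' = j then 1 else 0 : HR) := by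
        split_ifs
        · exact map_one _
        · exact map_zero _
      rw [h3] at h2
      rw [← h2, Finset.sum_mul]
      refine Finset.sum_congr rfl fun k _ => ?_
      rw [map_mul, mul_assoc]
    rw [Finset.sum_congr rfl fun j' _ => e1 j', Finset.sum_eq_single j]
    · rw [if_pos rfl, one_mul]
    · intro j' _ hj'
      rw [if_neg hj', zero_mul]
    · intro h
      exact absurd (Finset.mem_univ j) h
  rw [h1]
  refine SR_sum hL _ _ fun k _ => ?_
  have h2 := SR_mul hL (SR_KA hL ⊤ ⟨_, rho_mem_KA hL ⊤ ⟨_, hN j k⟩⟩) (h k)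
  rwa [zero_add] at h2

end Pool.Agent.Y760.ZF
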