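import Pool.Agent.Y760.ZF.Ze

/-!
# The zero estimate with powers (helper760)
-/

set_option autoImplicit false

namespace Pool.Agent.Y760.ZF

open Polynomial Pool.Agent.Y760.ZG

/-- all final parts -/
def tls (Λ : Finset (List ℕ+)) : Finset (List ℕ+) := Λ.biUnion fun β => β.tails.toFinset

lemma mem_tls {Λ : Finset (List ℕ+)} {β : List ℕ+} : β ∈ tls Λ ↔ ∃ γ ∈ Λ, β <:+ γ := by
  unfold tls
  simp only [Finset.mem_biUnion, List.mem_toFinset, List.mem_tails]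

lemma tls_card {Λ : Finset (List ℕ+)} {m ℓ : ℕ} (hm : Λ.card ≤ m)
    (hℓ : ∀ β ∈ Λ, β.length ≤ ℓ) : (tls Λ).card ≤ m * (ℓ + 1) := by
  unfold tls
  refine (Finset.card_biUnion_le_card_mul _ _ (ℓ + 1) fun β hβ => ?_).trans
    (Nat.mul_le_mul_right _ hm)
  refine (List.toFinset_card_le _).trans ?_
  rw [List.length_tails]
  have := hℓ β hβ
  omega

lemma wa_of_card {f : ℕ → ℝ} {Q : Finset ℕ} {R : ℕ} (hR : R < Q.card)
    (hQ : ∀ k ∈ Q, 1 ≤ k ∧ f k = 0) : ∃ hi, WA f 1 hi R := by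
  set u : ℕ → ℕ := fun i => if h : i < Q.card then Q.orderEmbOfFin rfl ⟨i, h⟩ else 0 with hu
  have h1 : ∀ i (h : i < Q.card), u i = Q.orderEmbOfFin rfl ⟨i, h⟩ := fun i h => by
    rw [hu]
    simp only
    rw [dif_pos h]
  have h2 : ∀ i, i ≤ R → u i ∈ Q := fun i hi => by
    rw [h1 i (by omega)]
    exact Finset.orderEmbOfFin_mem _ _ _
  refine ⟨u R, u, 1, Or.inl rfl, (hQ _ (h2 0 (Nat.zero_le _))).1, le_rfl, fun i hi => ?_,
    fun i hi => ?_⟩
  · rw [h1 i (by omega), h1 (i + 1) (by omega)]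
    refine (Q.orderEmbOfFin rfl).strictMono ?_
    rw [Fin.mk_lt_mk]
    exact Nat.lt_succ_self i
  · rw [(hQ _ (h2 i hi)).2, mul_zero]

/-- **the uniform zero estimate with powers** -/
theorem zek (ι : Type) [Fintype ι] (m ℓ : ℕ) : ∃ R : ℕ, ∀ s : ι → ℕ, Function.Injective s →
    ∀ Λ : Finset (List ℕ+), Λ.card ≤ m → (∀ β ∈ Λ, β.length ≤ ℓ) → ∀ κ : ι → List ℕ+ → ℝ,
    (∃ i, ∃ β ∈ Λ, κ i β ≠ 0) → ∀ Q : Finset ℕ, (∀ k ∈ Q, 1 ≤ k ∧
      ∑ i, ((k : ℝ) ^ s i)⁻¹ * ∑ β ∈ Λ, κ i β * hr (cl β) k = 0) → Q.card ≤ R := by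
  classical
  obtain ⟨R, hR⟩ := ze (m * (ℓ + 1)) 1 (Fintype.card ι * 1)
  refine ⟨R, fun s hs Λ hm hℓ κ hκ Q hQ => ?_⟩
  by_contra hcon
  push Not at hcon
  set S : ℕ := ∑ i, s i with hS
  have hsS : ∀ i, s i ≤ S := fun i =>
    Finset.single_le_sum (f := s) (fun _ _ => Nat.zero_le _) (Finset.mem_univ i)
  set φ : List ℕ+ → ℝ[X] := fun β => if β ∈ Λ then ∑ i, C (κ i β) * X ^ (S - s i) else 0 with hφ
  have hval : ∀ k, 1 ≤ k → Fc (tls Λ) φ k = (k : ℝ) ^ S *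
      ∑ i, ((k : ℝ) ^ s i)⁻¹ * ∑ β ∈ Λ, κ i β * hr (cl β) k := by
    intro k hk
    have hk0 : (k : ℝ) ≠ 0 := by exact_mod_cast (by omega : k ≠ 0)
    unfold Fc
    have hsub : Λ ⊆ tls Λ := fun β hβ => mem_tls.2 ⟨β, hβ, List.suffix_refl _⟩
    rw [← Finset.sum_subset hsub]
    · simp only [Finset.mul_sum]
      rw [Finset.sum_comm]
      refine Finset.sum_congr rfl fun β hβ => ?_
      rw [hφ]
      simp only
      rw [if_pos hβ, eval_finset_sum, Finset.sum_mul]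
      refine Finset.sum_congr rfl fun i _ => ?_
      rw [eval_mul, eval_C, eval_pow, eval_X]
      have h1 : (k : ℝ) ^ S = (k : ℝ) ^ (S - s i) * (k : ℝ) ^ s i := by
        rw [← pow_add]
        congr 1
        have := hsS i
        omega
      rw [h1]
      field_simp
    · intro β _ hβ
      rw [hφ]
      simp only
      rw [if_neg hβ, eval_zero, zero_mul]
  obtain ⟨hi, hWA⟩ := wa_of_card (f := Fc (tls Λ) φ) hcon fun k hk => by
    refine ⟨(hQ k hk).1, ?_⟩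
    rw [hval k (hQ k hk).1, (hQ k hk).2, mul_zero]
  refine hR (tls Λ) (tls_card hm hℓ) ?_ φ ?_ ?_ 1 hi le_rfl hWA
  · intro t β h
    obtain ⟨γ, hγ, h1⟩ := mem_tls.1 h
    exact mem_tls.2 ⟨γ, hγ, (List.suffix_cons t β).trans h1⟩
  · intro β _
    rw [hφ]
    simp only
    split_ifs with h
    · rw [← Finset.card_univ]
      exact EC.sum _ _ fun i _ => (EC.X_pow 0 _).smul _
    · exact EC.zero.mono (Nat.zero_le _)
  · obtain ⟨i, β, hβ, h0⟩ := hκ
    refine ⟨β, mem_tls.2 ⟨β, hβ, List.suffix_refl _⟩, fun h1 => h0 ?_⟩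
    rw [hφ] at h1
    simp only at h1
    rw [if_pos hβ] at h1
    have h2 := congrArg (fun p => coeff p (S - s i)) h1
    simp only [finset_sum_coeff, coeff_C_mul, coeff_X_pow, coeff_zero] at h2
    rw [Finset.sum_eq_single i] at h2
    · simpa using h2
    · intro j _ hj
      rw [if_neg, mul_zero]
      intro h3
      apply hj
      apply hs
      have h4 := hsS i
      have h5 := hsS j
      omega
    · intro h
      exact absurd (Finset.mem_univ i) h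

end Pool.Agent.Y760.ZF
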