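import Pool.Agent.Y760.ZF.Mz
import Pool.Agent.Y760.ZF.Inv
import Pool.Agent.Y760.ZF.Zk

/-!
# The heads of a small combination of multiple zeta values, arbitrary letters (helper760)
-/

set_option autoImplicit false

namespace Pool.Agent.Y760.ZF

open Filter Topology Pool.Agent.TH932.Abs Pool.Agent.TH932.Germs Pool.Agent.TH932.Chi
open Pool.Agent.TH796.AL Pool.Agent.Y760.ZG

variable {I : Type} [Fintype I] [DecidableEq I]

open Classical in
/-- the coefficient of a small word in an expansion -/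
noncomputable def Xb (s : ℕ → I → ℕ) (B : I → Bool) (t : List I) (β : List I) : HR :=
  ((sp B t).map fun p => if p.1 = β then Xg s B p.2 else 0).sum

omit [Fintype I] in
open Classical in
lemma Xb_sum (s : ℕ → I → ℕ) (B : I → Bool) (Λ : Finset (List I)) (l : List (List I × List I))
    (hl : ∀ p ∈ l, p.1 ∈ Λ) (f : List I → HR) :
    (l.map fun p => f p.1 * Xg s B p.2).sum =
      ∑ β : Λ, f β * (l.map fun p => if p.1 = β.1 then Xg s B p.2 else 0).sum := by
  induction l with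
  | nil => simp
  | cons p l ih =>
    simp only [List.map_cons, List.sum_cons]
    rw [ih fun p' hp' => hl p' (List.mem_cons_of_mem _ hp')]
    simp only [mul_add]
    rw [Finset.sum_add_distrib]
    congr 1
    rw [Finset.sum_eq_single (⟨p.1, hl p List.mem_cons_self⟩ : Λ)]
    · rw [if_pos rfl]
    · intro β _ hβ
      rw [if_neg, mul_zero]
      intro h
      exact hβ (Subtype.ext h.symm)
    · intro h
      exact absurd (Finset.mem_univ _) h

section

variable {L : ℕ → ℝ} {hL : Tendsto L atTop atTop} {F : IntermediateField ℚ ℝ}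
  {s : ℕ → I → ℕ} {x : I → ℝ} {B : I → Bool}

lemma lg_KK (hs : Lim s x L) {a : I} (ha : x a = 0) {m : ℕ} (hm : 1 ≤ m) :
    lg s a m ∈ KK L hL := by
  rw [lg_primes s a hm le_rfl]
  refine (KK L hL).prod_mem fun q _ => (KK L hL).pow_mem ?_ _
  have h1 := lg_const (hL := hL) hs a q
  rwa [ha, neg_zero, ch1_zero, div_one] at h1

lemma Gq_KK (hs : Lim s x L) (u : List I) (hu : ∀ a ∈ u, x a = 0) : ∀ k, Gq s u k ∈ KK L hL := by
  induction u with
  | nil =>
    intro k
    rw [Gq_nil]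
    exact (KK L hL).one_mem
  | cons a u ih =>
    intro k
    rw [Gq_cons]
    refine (KK L hL).sum_mem fun m hm => ?_
    rw [Finset.mem_Ico] at hm
    exact (KK L hL).mul_mem (lg_KK hs (hu a List.mem_cons_self) hm.1)
      (ih (fun b hb => hu b (List.mem_cons_of_mem _ hb)) m)

/-- a letter as a positive number -/
def pl (n : ℕ) (hs1 : ∀ n i, 1 ≤ s n i) (i : I) : ℕ+ := Nat.toPNat (s n i) (hs1 n i)

omit [Fintype I] [DecidableEq I] in
lemma pl_coe (n : ℕ) (hs1 : ∀ n i, 1 ≤ s n i) (i : I) : ((pl n hs1 i : ℕ+) : ℕ) = s n i := rfl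

/-- a word as a list of positive numbers -/
def cvt (n : ℕ) (hs1 : ∀ n i, 1 ≤ s n i) (β : List I) : List ℕ+ := β.map (pl n hs1)

omit [Fintype I] [DecidableEq I] in
lemma cl_cvt (n : ℕ) (hs1 : ∀ n i, 1 ≤ s n i) (β : List I) : cl (cvt n hs1 β) = aw s n β := by
  induction β with
  | nil => rfl
  | cons i β ih =>
    unfold cvt at ih ⊢
    rw [List.map_cons, cl, ih, pl_coe, aw_cons]

omit [Fintype I] [DecidableEq I] in
lemma cvt_inj (n : ℕ) (hs1 : ∀ n i, 1 ≤ s n i) (hinj : ∀ n, Function.Injective (s n)) :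
    Function.Injective (cvt n hs1) := by
  unfold cvt
  refine List.map_injective_iff.2 fun i j h => hinj n ?_
  rw [← pl_coe n hs1, h, pl_coe]

omit [Fintype I] [DecidableEq I] in
lemma cvt_length (n : ℕ) (hs1 : ∀ n i, 1 ≤ s n i) (β : List I) :
    (cvt n hs1 β).length = β.length := by
  unfold cvt
  rw [List.length_map]

/-- **the system has no kernel** -/
lemma ker_triv (hs1 : ∀ n i, 1 ≤ s n i) (hinj : ∀ n, Function.Injective (s n)) (y : ℝ)
    (Λ : Finset (List I)) : ∃ R : ℕ, ∀ (Q0 : ℕ) (v : {i // x i = y} × Λ → GG),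
      (∀ k : Fin (R + 1), ∑ j, (ug s (Q0 + k) j.1.1 / ch1 hL (Q0 + k) (-y)) *
        Gq s j.2.1 (pr (Q0 + k)) * v j = 0) → ∀ j, v j = 0 := by
  classical
  obtain ⟨R, hR⟩ := zek {i // x i = y} Λ.card (Λ.sup List.length)
  refine ⟨R, fun Q0 v hv j0 => ?_⟩
  by_contra hj0
  choose vr hvr using fun j => gm_surj (v j)
  choose a ha using fun q => gm_surj (ch1 hL q (-y))
  have h1 : ∀ k : Fin (R + 1), ∀ᶠ n in (UU : Filter ℕ), ∑ j : {i // x i = y} × Λ,
      (((pr (Q0 + k) : ℝ) ^ s n j.1.1)⁻¹ * ((a (Q0 + k) n : ℚ) : ℝ)⁻¹) *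
        hr (aw s n j.2.1) (pr (Q0 + k)) * ((vr j n : ℚ) : ℝ) = 0 := by
    intro k
    have h2 := congrArg rho (hv k)
    rw [map_zero, map_sum, ← gr_zero] at h2
    have h3 : ∀ j : {i // x i = y} × Λ, rho ((ug s (Q0 + k) j.1.1 / ch1 hL (Q0 + k) (-y)) *
        Gq s j.2.1 (pr (Q0 + k)) * v j) = gr fun n =>
        (((pr (Q0 + k) : ℝ) ^ s n j.1.1)⁻¹ * ((a (Q0 + k) n : ℚ) : ℝ)⁻¹) *
        hr (aw s n j.2.1) (pr (Q0 + k)) * ((vr j n : ℚ) : ℝ) := by
      intro j
      rw [map_mul, map_mul, rho_Gq, ← hvr j, ← ha (Q0 + k), map_div₀, div_eq_mul_inv]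
      unfold ug
      rw [rho_gm, rho_gm, rho_gm, gr_inv, gr_mul, gr_mul, gr_mul]
      congr 1
      funext n
      push_cast
      rfl
    rw [Finset.sum_congr rfl fun j _ => h3 j, gr_sum, gr_eq] at h2
    exact h2
  have h2 : ∀ k : Fin (R + 1), ∀ᶠ n in (UU : Filter ℕ), a (Q0 + k) n ≠ 0 := by
    intro k
    have h3 := ch1_ne hL (Q0 + k) (-y)
    rw [← ha] at h3
    exact gm_ne_zero.1 h3
  have h3 : ∀ᶠ n in (UU : Filter ℕ), vr j0 n ≠ 0 := by
    rw [← hvr j0] at hj0
    exact gm_ne_zero.1 hj0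
  obtain ⟨n, hn1, hn2, hn3⟩ := ((eventually_all.2 h1).and ((eventually_all.2 h2).and h3)).exists
  set κ : {i // x i = y} → List ℕ+ → ℝ := fun i γ =>
    ∑ β : Λ, if cvt n hs1 β.1 = γ then ((vr (i, β) n : ℚ) : ℝ) else 0 with hκ
  have h4 := hR (fun i => s n i.1) (fun i j hij => Subtype.ext (hinj n hij))
    (Λ.image (cvt n hs1)) Finset.card_image_le (fun γ hγ => by
      obtain ⟨β, hβ, rfl⟩ := Finset.mem_image.1 hγ
      rw [cvt_length]
      exact Finset.le_sup (f := List.length) hβ) κ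
    ⟨j0.1, cvt n hs1 j0.2.1, Finset.mem_image_of_mem _ j0.2.2, by
      rw [hκ]
      simp only
      rw [Finset.sum_eq_single j0.2]
      · rw [if_pos rfl]
        exact_mod_cast hn3
      · intro β _ hβ
        rw [if_neg]
        intro h
        exact hβ (Subtype.ext (cvt_inj n hs1 hinj h))
      · intro h
        exact absurd (Finset.mem_univ _) h⟩
    (Finset.univ.image fun k : Fin (R + 1) => pr (Q0 + k)) (fun p hp => by
      obtain ⟨k, _, rfl⟩ := Finset.mem_image.1 hp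
      refine ⟨(pr_prime _).pos, ?_⟩
      have h5 := hn1 k
      have h6 : ((a (Q0 + k) n : ℚ) : ℝ) ≠ 0 := by exact_mod_cast hn2 k
      have h7 : ∑ j : {i // x i = y} × Λ,
          (((pr (Q0 + k) : ℝ) ^ s n j.1.1)⁻¹ * ((a (Q0 + k) n : ℚ) : ℝ)⁻¹) *
          hr (aw s n j.2.1) (pr (Q0 + k)) * ((vr j n : ℚ) : ℝ) =
          ((a (Q0 + k) n : ℚ) : ℝ)⁻¹ * ∑ i : {i // x i = y}, ((pr (Q0 + k) : ℝ) ^ s n i.1)⁻¹ *
            ∑ γ ∈ Λ.image (cvt n hs1), κ i γ * hr (cl γ) (pr (Q0 + k)) := by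
        rw [Fintype.sum_prod_type, Finset.mul_sum]
        refine Finset.sum_congr rfl fun i _ => ?_
        have h8 : ∑ γ ∈ Λ.image (cvt n hs1), κ i γ * hr (cl γ) (pr (Q0 + k)) =
            ∑ β : Λ, ((vr (i, β) n : ℚ) : ℝ) * hr (aw s n β.1) (pr (Q0 + k)) := by
          rw [hκ]
          simp only [Finset.sum_mul]
          rw [Finset.sum_comm]
          refine Finset.sum_congr rfl fun β _ => ?_
          rw [Finset.sum_eq_single (cvt n hs1 β.1)]
          · rw [if_pos rfl, cl_cvt]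
          · intro γ _ hγ
            rw [if_neg (Ne.symm hγ), zero_mul]
          · intro h
            exact absurd (Finset.mem_image_of_mem _ β.2) h
        rw [h8, Finset.mul_sum, Finset.mul_sum]
        refine Finset.sum_congr rfl fun β _ => ?_
        ring
      rw [h7] at h5
      exact (mul_eq_zero.1 h5).resolve_left (inv_ne_zero h6))
  rw [Finset.card_image_of_injective _ (fun k k' h => by
    have h5 := pr_inj h
    exact Fin.ext (by omega)), Finset.card_univ, Fintype.card_fin] at h4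
  omega

end

end Pool.Agent.Y760.ZF
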