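import Pool.Agent.Y760.ZF.Hd

/-!
# The heads of a small combination of multiple zeta values, arbitrary letters, continued (helper760)
-/

set_option autoImplicit false

namespace Pool.Agent.Y760.ZF

open Filter Topology Pool.Agent.TH932.Abs Pool.Agent.TH932.Germs Pool.Agent.TH932.Chi
open Pool.Agent.TH796.AL Pool.Agent.Y760.ZG

variable {I : Type} [Fintype I] [DecidableEq I]

section

variable {L : ℕ → ℝ} {hL : Tendsto L atTop atTop} {F : IntermediateField ℚ ℝ}
  {s : ℕ → I → ℕ} {x : I → ℝ} {B : I → Bool}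

open Classical in
lemma heads (hF : FiniteDimensional ℚ F) (hs : Lim s x L) (hx : ∀ i, x i = 0 ∨ 1 ≤ x i)
    (hB : ∀ i, B i = true ↔ 1 ≤ x i) (hs1 : ∀ n i, 1 ≤ s n i)
    (hLs : ∀ᶠ n in (UU : Filter ℕ), ∀ i, B i = true → L n ≤ (s n i : ℝ)) (hinj : ∀ n, Function.Injective (s n))
    {W : Type} [Fintype W] (w : W → List I) (hst : ∀ v, Lg B (w v)) (c : W → HR)
    (hc : ∀ v, c v ∈ SF hL F) (hn : Nul L (∑ v, c v * Xg s B (w v))) {y : ℝ} (hy : 1 ≤ y)
    (hw : ∀ v, c v ≠ 0 → w v = [] ∨ ∃ i u, w v = i :: u ∧ y ≤ x i) {i : I} (hi : x i = y)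
    (β : List I) :
    Nul L (∑ v ∈ Finset.univ.filter (fun v => hd i (w v)), c v * Xb s B (w v).tail β) := by
  set Λ : Finset (List I) := Finset.univ.biUnion fun v =>
    ((sp B (w v).tail).map Prod.fst).toFinset with hΛ
  have hΛm : ∀ v, ∀ p ∈ sp B (w v).tail, p.1 ∈ Λ := by
    intro v p hp
    rw [hΛ, Finset.mem_biUnion]
    refine ⟨v, Finset.mem_univ _, ?_⟩
    rw [List.mem_toFinset, List.mem_map]
    exact ⟨p, hp, rfl⟩
  have hΛs : ∀ β ∈ Λ, ∀ a ∈ β, x a = 0 := by
    intro β hβ a ha
    rw [hΛ, Finset.mem_biUnion] at hβ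
    obtain ⟨v, _, hv⟩ := hβ
    rw [List.mem_toFinset, List.mem_map] at hv
    obtain ⟨p, hp, rfl⟩ := hv
    have h1 := sp_small B _ p hp a ha
    refine (hx a).resolve_right fun h2 => ?_
    rw [(hB a).2 h2] at h1
    exact absurd h1 (by decide)
  set Y : I → List I → HR := fun i β =>
    ∑ v ∈ Finset.univ.filter (fun v => hd i (w v)), c v * Xb s B (w v).tail β with hY
  by_cases hβ : β ∈ Λ
  swap
  · have h1 : ∀ v, Xb s B (w v).tail β = 0 := by
      intro v
      unfold Xb
      refine List.sum_eq_zero fun z hz => ?_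
      obtain ⟨p, hp, rfl⟩ := List.mem_map.1 hz
      rw [if_neg]
      intro h
      exact hβ (h ▸ hΛm v p hp)
    intro t
    have h2 : ∑ v ∈ Finset.univ.filter (fun v => hd i (w v)), c v * Xb s B (w v).tail β = 0 :=
      Finset.sum_eq_zero fun v _ => by rw [h1, mul_zero]
    rw [h2]
    exact SR_zero t
  -- bounds for the coefficients
  choose c0 hc0 hc0' using fun v => SF_bdd (hc v)
  set K : ℝ := ∑ v, c0 v with hK
  have hcK : ∀ v, c v ∈ SR L (-K) := fun v =>
    SR_anti hL (neg_le_neg (Finset.single_le_sum (f := c0) (fun v _ => hc0 v)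
      (Finset.mem_univ v))) (hc0' v)
  obtain ⟨m0, hm0⟩ := SF_common hc
  have hU : ∀ q (i : {i // x i = y}), ug s q i.1 / ch1 hL q (-y) ∈ KK L hL := by
    intro q i
    have h1 := ug_const hL hs q i.1
    rwa [i.2] at h1
  have hlog2 : 0 < Real.log 2 := Real.log_pos (by norm_num)
  obtain ⟨R, hR⟩ := ker_triv (hL := hL) hs1 hinj y Λ
  -- the step
  have hstep : ∀ t : ℝ, (∀ j : {i // x i = y} × Λ, Y j.1.1 j.2.1 ∈ SR L t) →
      ∀ j : {i // x i = y} × Λ, Y j.1.1 j.2.1 ∈ SR L (t + Real.log 2) := by
    intro t ht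
    obtain ⟨q0, hq0⟩ := exists_nat_ge (Real.exp (Real.log 2 + K + t))
    refine inv_SR hL (fun (k : Fin (R + 1)) (j : {i // x i = y} × Λ) =>
      (ug s (q0 + m0 + k) j.1.1 / ch1 hL (q0 + m0 + k) (-y)) *
        Gq s j.2.1 (pr (q0 + m0 + k))) (fun k j => (KK L hL).mul_mem (hU _ _)
          (Gq_KK hs _ (hΛs _ j.2.2) _)) (hR (q0 + m0)) (fun k => ?_)
    set q : ℕ := q0 + m0 + k with hq
    have hp := pr_prime q
    have hp0 : 0 < pr q := hp.pos
    have hp2 : 2 ≤ pr q := hp.two_le
    have hpr : (0 : ℝ) < pr q := by exact_mod_cast hp0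
    have hlog : 0 < Real.log (pr q) := Real.log_pos (by exact_mod_cast hp.one_lt)
    set N : ℕ := (pr q) ^ (⌈y⌉₊) with hN
    have hy1 : 1 ≤ ⌈y⌉₊ := Nat.one_le_ceil_iff.2 (by linarith only [hy])
    have hN2 : 2 ≤ N := hp2.trans (Nat.le_self_pow (by omega) _)
    have h1 := trunc_sum hL hLs hst hcK hn (k := pr q * N) (Nat.mul_pos hp0 (by omega))
    have h2 := lead_sum hF hs hx w c hm0 hcK hy hw (q := q) (by omega) (N := N) (by omega)
      (SR_anti hL (by
        have h3 : Real.log ((pr q * N : ℕ) : ℝ) = (1 + (⌈y⌉₊ : ℝ)) * Real.log (pr q) := by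
          rw [hN]
          push_cast
          rw [Real.log_mul hpr.ne' (pow_pos hpr _).ne', Real.log_pow]
          ring
        rw [h3]
        have h4 := Nat.le_ceil y
        nlinarith only [h4, hlog]) h1)
    have hlogp : Real.log 2 + K + t ≤ Real.log (pr q) := by
      rw [Real.le_log_iff_exp_le hpr]
      refine hq0.trans ?_
      have := pr_ge q
      exact_mod_cast (by omega : q0 ≤ pr q)
    have hUS : ∀ i : {i // x i = y}, rho (ug s q i.1 / ch1 hL q (-y)) ∈ SR L 0 := fun i =>
      SR_KA hL ⊤ ⟨_, rho_mem_KA hL ⊤ ⟨_, hU q i⟩⟩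
    have hGS : ∀ (β : Λ) (m : ℕ), rho (Gq s β.1 m) ∈ SR L 0 := fun β m => SR_Gq hL hs hx β.1 m
    -- the expansions
    have h3 : ∑ i ∈ Finset.univ.filter (fun i => x i = y), rho (ug s q i / ch1 hL q (-y)) *
        ∑ m ∈ Finset.Ico 1 N, rho (lg s i m) *
          ∑ β : Λ, rho (Gq s β.1 (pr q * m)) * Y i β ∈
        SR L (Real.log (pr q) - K) := by
      have h4 : ∑ i ∈ Finset.univ.filter (fun i => x i = y), rho (ug s q i / ch1 hL q (-y)) *
          ∑ v ∈ Finset.univ.filter (fun v => hd i (w v)), c v *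
            ∑ m ∈ Finset.Ico 1 N, rho (lg s i m) * Rg s B (w v).tail (pr q * m) ∈
          SR L (Real.log (pr q) - K) := by
        refine SR_sum hL _ _ fun i hi => ?_
        rw [Finset.mem_filter] at hi
        have h5 : ∑ v ∈ Finset.univ.filter (fun v => hd i (w v)), c v *
            ∑ m ∈ Finset.Ico 1 N, rho (lg s i m) * Rg s B (w v).tail (pr q * m) ∈
            SR L (Real.log (pr q) - K) := by
          refine SR_sum hL _ _ fun v _ => ?_
          have h6 : ∑ m ∈ Finset.Ico 1 N, rho (lg s i m) * Rg s B (w v).tail (pr q * m) ∈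
              SR L (Real.log (pr q)) := by
            refine SR_sum hL _ _ fun m hm => ?_
            rw [Finset.mem_Ico] at hm
            have h7 := SR_mul hL (SR_lg_zero hL hs hx i hm.1)
              (SR_Rg hL hLs (w v).tail (k := pr q * m) (Nat.mul_pos hp0 hm.1))
            refine SR_anti hL ?_ h7
            rw [zero_add]
            refine Real.log_le_log hpr ?_
            exact_mod_cast Nat.le_mul_of_pos_right _ hm.1
          have h7 := SR_mul hL (hcK v) h6
          refine SR_anti hL (le_of_eq ?_) h7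
          ring
        have h6 := SR_mul hL (hUS ⟨i, hi.2⟩) h5
        rwa [zero_add] at h6
      have h5 := SR_sub hL h2 h4
      refine (congrArg (fun z => z ∈ SR L (Real.log (pr q) - K)) ?_).mp h5
      rw [← Finset.sum_sub_distrib]
      refine Finset.sum_congr rfl fun i _ => ?_
      rw [← mul_sub]
      congr 1
      rw [← Finset.sum_sub_distrib]
      have e1 : ∀ v, c v * ∑ m ∈ Finset.Ico 1 N,
            rho (lg s i m * Gq s (w v).tail (pr q * m)) -
          c v * ∑ m ∈ Finset.Ico 1 N, rho (lg s i m) * Rg s B (w v).tail (pr q * m) =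
          ∑ m ∈ Finset.Ico 1 N, rho (lg s i m) *
            ∑ β : Λ, rho (Gq s β.1 (pr q * m)) * (c v * Xb s B (w v).tail β) := by
        intro v
        rw [← mul_sub, ← Finset.sum_sub_distrib, Finset.mul_sum]
        refine Finset.sum_congr rfl fun m hm => ?_
        rw [Finset.mem_Ico] at hm
        rw [map_mul, Gq_expand hL hLs (w v).tail (k := pr q * m) (Nat.mul_pos hp0 hm.1),
          Xb_sum s B Λ (sp B (w v).tail) (hΛm v) (fun β => rho (Gq s β (pr q * m)))]
        rw [mul_add, add_sub_cancel_right, mul_left_comm]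
        congr 1
        rw [Finset.mul_sum]
        refine Finset.sum_congr rfl fun β _ => ?_
        rw [mul_left_comm]
        rfl
      rw [Finset.sum_congr rfl fun v _ => e1 v, Finset.sum_comm]
      refine Finset.sum_congr rfl fun m _ => ?_
      rw [← Finset.mul_sum]
      congr 1
      rw [Finset.sum_comm]
      refine Finset.sum_congr rfl fun β _ => ?_
      rw [← Finset.mul_sum]
    -- the first term
    have h5 : ∑ i ∈ Finset.univ.filter (fun i => x i = y), rho (ug s q i / ch1 hL q (-y)) *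
        ∑ β : Λ, rho (Gq s β.1 (pr q)) * Y i β ∈ SR L (t + Real.log 2) := by
      have h6 : ∑ i ∈ Finset.univ.filter (fun i => x i = y), rho (ug s q i / ch1 hL q (-y)) *
          ∑ m ∈ Finset.Ico 2 N, rho (lg s i m) *
            ∑ β : Λ, rho (Gq s β.1 (pr q * m)) * Y i β ∈ SR L (t + Real.log 2) := by
        refine SR_sum hL _ _ fun i hi => ?_
        rw [Finset.mem_filter] at hi
        have h7 : ∑ m ∈ Finset.Ico 2 N, rho (lg s i m) *
            ∑ β : Λ, rho (Gq s β.1 (pr q * m)) * Y i β ∈ SR L (t + Real.log 2) := by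
          refine SR_sum hL _ _ fun m hm => ?_
          rw [Finset.mem_Ico] at hm
          have h8 : ∑ β : Λ, rho (Gq s β.1 (pr q * m)) * Y i β ∈ SR L t := by
            refine SR_sum hL _ _ fun β _ => ?_
            have h9 := SR_mul hL (hGS β (pr q * m)) (ht (⟨i, hi.2⟩, β))
            rwa [zero_add] at h9
          have h9 := SR_mul hL (SR_lg hL hs i (m := m) (by omega)) h8
          refine SR_anti hL ?_ h9
          show t + Real.log 2 ≤ x i * Real.log m + t
          have h10 : Real.log 2 ≤ Real.log m :=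
            Real.log_le_log (by norm_num) (by exact_mod_cast hm.1)
          have h11 : (1 : ℝ) ≤ x i := by rw [hi.2]; exact hy
          nlinarith only [h10, h11, hlog2]
        have h8 := SR_mul hL (hUS ⟨i, hi.2⟩) h7
        rwa [zero_add] at h8
      have h7 := SR_sub hL (SR_anti hL (show t + Real.log 2 ≤ Real.log (pr q) - K by
        linarith only [hlogp]) h3) h6
      refine (congrArg (fun z => z ∈ SR L (t + Real.log 2)) ?_).mp h7
      rw [← Finset.sum_sub_distrib]
      refine Finset.sum_congr rfl fun i _ => ?_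
      rw [← mul_sub]
      congr 1
      rw [Finset.sum_eq_sum_Ico_succ_bot (by omega : 1 < N), add_sub_cancel_right, lg_one, map_one,
        one_mul, mul_one]
    refine (congrArg (fun z => z ∈ SR L (t + Real.log 2)) ?_).mp h5
    rw [Finset.sum_subtype (Finset.univ.filter (fun i => x i = y)) (p := fun i => x i = y)
        (fun i => by rw [Finset.mem_filter]; exact ⟨fun h => h.2, fun h => ⟨Finset.mem_univ _, h⟩⟩),
      Fintype.sum_prod_type]
    refine Finset.sum_congr rfl fun i _ => ?_
    rw [Finset.mul_sum]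
    refine Finset.sum_congr rfl fun β _ => ?_
    rw [map_mul, mul_assoc]
  -- the start
  have hstart : ∀ j : {i // x i = y} × Λ, Y j.1.1 j.2.1 ∈ SR L (-K) := by
    intro j
    rw [hY]
    refine SR_sum hL _ _ fun v _ => ?_
    have h1 : Xb s B (w v).tail j.2.1 ∈ SR L 0 := by
      unfold Xb
      have h2 : ∀ l : List (List I × List I),
          (l.map fun p => if p.1 = j.2.1 then Xg s B p.2 else 0).sum ∈ SR L 0 := by
        intro l
        induction l with
        | nil =>
          rw [List.map_nil, List.sum_nil]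
          exact SR_zero _
        | cons p l ih =>
          rw [List.map_cons, List.sum_cons]
          refine SR_add hL ?_ ih
          split_ifs
          · exact SR_Xg hL hLs _
          · exact SR_zero _
      exact h2 _
    have h2 := SR_mul hL (hcK v) h1
    rwa [add_zero] at h2
  have hall : ∀ (e : ℕ) (j : {i // x i = y} × Λ), Y j.1.1 j.2.1 ∈ SR L (-K + e * Real.log 2) := by
    intro e
    induction e with
    | zero =>
      intro j
      rw [Nat.cast_zero, zero_mul, add_zero]
      exact hstart j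
    | succ e ih =>
      intro j
      have h1 := hstep _ ih j
      refine SR_anti hL (le_of_eq ?_) h1
      push_cast
      ring
  intro t
  obtain ⟨e, he⟩ := exists_nat_ge ((t + K) / Real.log 2)
  rw [div_le_iff₀ hlog2] at he
  exact SR_anti hL (by linarith only [he]) (hall e (⟨i, hi⟩, ⟨β, hβ⟩))

end

end Pool.Agent.Y760.ZF
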