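import Pool.Agent.Y760.ZF.Hh

/-!
# Multiple zeta values with arbitrary inner letters are linearly independent over finite sums of
characters (helper760)
-/

set_option autoImplicit false

namespace Pool.Agent.Y760.ZF

open Filter Topology Pool.Agent.TH932.Abs Pool.Agent.TH932.Germs Pool.Agent.TH932.Chi
open Pool.Agent.TH796.AL Pool.Agent.Y760.ZG

section

variable {I : Type} (B : I → Bool)

/-- the first small letters -/
def pre : List I → List I
  | [] => []
  | i :: u => if B i then [] else i :: pre u

/-- the rest of the word -/
def rst : List I → List I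
  | [] => []
  | i :: u => if B i then i :: u else rst u

lemma pre_nil : pre B [] = [] := by rw [pre]
lemma pre_big {i : I} (hi : B i = true) (u : List I) : pre B (i :: u) = [] := by rw [pre, if_pos hi]
lemma pre_sml {i : I} (hi : B i = false) (u : List I) : pre B (i :: u) = i :: pre B u := by
  rw [pre, if_neg (by simp [hi])]
lemma rst_nil : rst B [] = [] := by rw [rst]
lemma rst_big {i : I} (hi : B i = true) (u : List I) : rst B (i :: u) = i :: u := by
  rw [rst, if_pos hi]
lemma rst_sml {i : I} (hi : B i = false) (u : List I) : rst B (i :: u) = rst B u := by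
  rw [rst, if_neg (by simp [hi])]

lemma pre_rst (t : List I) : t = pre B t ++ rst B t := by
  induction t with
  | nil => rw [pre_nil, rst_nil, List.append_nil]
  | cons a u ih =>
    cases ha : B a with
    | true => rw [pre_big B ha, rst_big B ha, List.nil_append]
    | false => rw [pre_sml B ha, rst_sml B ha, List.cons_append, ← ih]

lemma Lg_rst (t : List I) : Lg B (rst B t) := by
  induction t with
  | nil => exact Or.inl (rst_nil B)
  | cons a u ih =>
    cases ha : B a with
    | true => exact Or.inr ⟨a, u, rst_big B ha u, ha⟩
    | false => rwa [rst_sml B ha]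

lemma rst_length (t : List I) : (rst B t).length ≤ t.length := by
  have h1 := congrArg List.length (pre_rst B t)
  rw [List.length_append] at h1
  omega

end

variable {I : Type} [Fintype I] [DecidableEq I]

omit [Fintype I] in
open Classical in
lemma Xb_pre (s : ℕ → I → ℕ) (B : I → Bool) (t : List I) : ∀ β : List I,
    (pre B t).length ≤ β.length → Xb s B t β = if pre B t = β then Xg s B (rst B t) else 0 := by
  induction t with
  | nil =>
    intro β _
    unfold Xb
    rw [sp_nil, List.map_singleton, List.sum_singleton, pre_nil, rst_nil]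
  | cons a u ih =>
    cases ha : B a with
    | true =>
      intro β _
      unfold Xb
      rw [sp_big B ha, List.map_singleton, List.sum_singleton, pre_big B ha, rst_big B ha]
    | false =>
      intro β hβ
      cases β with
      | nil =>
        rw [pre_sml B ha, List.length_cons, List.length_nil] at hβ
        omega
      | cons b' β' =>
        rw [pre_sml B ha, List.length_cons, List.length_cons] at hβ
        have h1 := ih β' (by omega)
        unfold Xb at h1 ⊢
        rw [sp_sml B ha, List.map_cons, List.sum_cons, List.map_map, pre_sml B ha, rst_sml B ha]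
        rw [if_neg (by simp), zero_add]
        by_cases hb : a = b'
        · subst hb
          simp only [List.cons.injEq, true_and]
          rw [← h1]
          congr 1
          refine List.map_congr_left fun p _ => ?_
          simp
        · rw [if_neg (by
            intro h2
            rw [List.cons.injEq] at h2
            exact hb h2.1)]
          refine List.sum_eq_zero fun z hz => ?_
          obtain ⟨p, _, rfl⟩ := List.mem_map.1 hz
          simp [hb]

section

variable {L : ℕ → ℝ} {hL : Tendsto L atTop atTop} {F : IntermediateField ℚ ℝ}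
  {s : ℕ → I → ℕ} {x : I → ℝ} {B : I → Bool}

/-- **multiple zeta values with large first arguments are linearly independent** -/
theorem indW (hF : FiniteDimensional ℚ F) (hs : Lim s x L) (hx : ∀ i, x i = 0 ∨ 1 ≤ x i)
    (hB : ∀ i, B i = true ↔ 1 ≤ x i) (hs1 : ∀ n i, 1 ≤ s n i)
    (hLs : ∀ᶠ n in (UU : Filter ℕ), ∀ i, B i = true → L n ≤ (s n i : ℝ)) (hinj : ∀ n, Function.Injective (s n)) (r : ℕ) :
    ∀ (W : Type) [Fintype W] (w : W → List I), Function.Injective w →
      (∀ v, Lg B (w v)) → (∀ v, (w v).length ≤ r) → ∀ c : W → HR, (∀ v, c v ∈ SF hL F) →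
      Nul L (∑ v, c v * Xg s B (w v)) → ∀ v, c v = 0 := by
  classical
  have hnil : Xg s B ([] : List I) = 1 := by
    unfold Xg
    simp only [Xt_nil]
    exact gr_one
  have hA : ∀ (W : Type) [Fintype W] (w : W → List I), Function.Injective w →
      ∀ c : W → HR, (∀ v, c v ∈ SF hL F) → Nul L (∑ v, c v * Xg s B (w v)) →
      (∀ v, c v ≠ 0 → w v = []) → ∀ v, c v = 0 := by
    intro W _ w hw c hc hn h0 v
    by_contra hv
    have h1 : ∑ v, c v * Xg s B (w v) = c v := by
      rw [Finset.sum_eq_single v]
      · rw [h0 v hv, hnil, mul_one]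
      · intro v' _ hv'
        by_contra h2
        have h3 : c v' ≠ 0 := left_ne_zero_of_mul h2
        exact hv' (hw ((h0 v' h3).trans (h0 v hv).symm))
      · intro h2
        exact absurd (Finset.mem_univ v) h2
    rw [h1] at hn
    exact hv (SF_nul hF (hc v) hn)
  induction r with
  | zero =>
    intro W _ w hw hst hlen c hc hn
    exact hA W w hw c hc hn fun v _ => List.length_eq_zero_iff.1 (Nat.le_zero.1 (hlen v))
  | succ r ih =>
    intro W _ w hw hst hlen c hc hn
    by_cases hBB : ∀ v, c v ≠ 0 → w v = []
    · exact hA W w hw c hc hn hBB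
    exfalso
    push Not at hBB
    obtain ⟨v2, hv2, hv2'⟩ := hBB
    set φ : W → ℝ := fun v => match w v with
      | i :: _ => x i
      | _ => 0 with hφ
    obtain ⟨v3, hv3, hmin⟩ := Finset.exists_min_image
      (Finset.univ.filter fun v => c v ≠ 0 ∧ w v ≠ []) φ
      ⟨v2, Finset.mem_filter.2 ⟨Finset.mem_univ _, hv2, hv2'⟩⟩
    rw [Finset.mem_filter] at hv3
    obtain ⟨i3, u3, h3, hi3⟩ := (hst v3).resolve_left hv3.2.2
    have hφ3 : φ v3 = x i3 := by
      rw [hφ]
      simp only [h3]
    have hw' : ∀ v, c v ≠ 0 → w v = [] ∨ ∃ i u, w v = i :: u ∧ x i3 ≤ x i := by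
      intro v hv
      rcases hst v with h | ⟨i, u, h, _⟩
      · exact Or.inl h
      · right
        refine ⟨i, u, h, ?_⟩
        have h4 := hmin v (Finset.mem_filter.2 ⟨Finset.mem_univ _, hv, by rw [h]; simp⟩)
        rw [hφ3] at h4
        have h5 : φ v = x i := by
          rw [hφ]
          simp only [h]
        rwa [h5] at h4
    have hheads := fun β => heads hF hs hx hB hs1 hLs hinj w hst c hc hn ((hB i3).1 hi3) hw' rfl β
    obtain ⟨v4, hv4, hmax⟩ := Finset.exists_max_image
      (Finset.univ.filter fun v => c v ≠ 0 ∧ hd i3 (w v)) (fun v => (pre B (w v).tail).length)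
      ⟨v3, Finset.mem_filter.2 ⟨Finset.mem_univ _, hv3.2.1, by rw [h3, hd_cons]⟩⟩
    rw [Finset.mem_filter] at hv4
    set β : List I := pre B (w v4).tail with hβ
    have h5 := ih {v // c v ≠ 0 ∧ hd i3 (w v) ∧ pre B (w v).tail = β}
      (fun v => rst B (w v).tail) (fun v v' hvv => by
        apply Subtype.ext
        apply hw
        rw [hd_eq v.2.2.1, hd_eq v'.2.2.1, pre_rst B (w v).tail, pre_rst B (w v').tail, v.2.2.2,
          v'.2.2.2]
        congr 2) (fun v => Lg_rst B _) (fun v => by
        have h6 := rst_length B (w v).tail
        have h7 := hlen v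
        have h8 := congrArg List.length (hd_eq v.2.2.1)
        rw [List.length_cons] at h8
        omega) (fun v => c v) (fun v => hc v) (by
        refine (congrArg (Nul L) ?_).mp (hheads β)
        have e1 : ∀ v ∈ Finset.univ.filter (fun v => hd i3 (w v)),
            c v * Xb s B (w v).tail β = if c v ≠ 0 ∧ hd i3 (w v) ∧ pre B (w v).tail = β then
              c v * Xg s B (rst B (w v).tail) else 0 := by
          intro v hv
          rw [Finset.mem_filter] at hv
          by_cases hcv : c v = 0
          · rw [hcv, zero_mul, if_neg]
            intro h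
            exact h.1 rfl
          · have h9 := hmax v (Finset.mem_filter.2 ⟨Finset.mem_univ _, hcv, hv.2⟩)
            rw [Xb_pre s B (w v).tail β h9]
            by_cases h10 : pre B (w v).tail = β
            · rw [if_pos h10, if_pos ⟨hcv, hv.2, h10⟩]
            · rw [if_neg h10, if_neg (fun h => h10 h.2.2), mul_zero]
        rw [Finset.sum_congr rfl e1, ← Finset.sum_filter, Finset.filter_filter]
        refine Finset.sum_subtype _ (fun v => ?_) (fun v => c v * Xg s B (rst B (w v).tail))
        rw [Finset.mem_filter]
        constructor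
        · intro h
          exact h.2.2
        · intro h
          exact ⟨Finset.mem_univ _, h.2.1, h⟩) ⟨v4, hv4.2.1, hv4.2.2, rfl⟩
    exact hv4.2.1 h5

end

end Pool.Agent.Y760.ZF
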