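import Pool.Agent.Y760.ZF.Pt
import Pool.Agent.Y760.ZG.Mz

/-!
# Multiple zeta values with arbitrary letters as germs: tails and expansions (helper760)
-/

set_option autoImplicit false

namespace Pool.Agent.Y760.ZF

open Filter Topology Pool.Agent.TH932.Abs Pool.Agent.TH932.Germs Pool.Agent.TH932.Chi
open Pool.Agent.TH796.AL Pool.Agent.Y760.ZG

section

variable {I : Type} (s : ℕ → I → ℕ) (B : I → Bool)

/-- the arguments of a word -/
def aw (n : ℕ) (w : List I) : List ℕ := w.map (s n)

lemma aw_nil (n : ℕ) : aw s n [] = [] := rfl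
lemma aw_cons (n : ℕ) (a : I) (w : List I) : aw s n (a :: w) = s n a :: aw s n w := rfl
lemma aw_length (n : ℕ) (w : List I) : (aw s n w).length = w.length := by
  unfold aw
  rw [List.length_map]

/-- the remainder -/
noncomputable def Rt (n : ℕ) : List I → ℕ → ℝ
  | [], _ => 0
  | i :: u, k => if B i then - tl (fun m => hr (aw s n u) m / (m : ℝ) ^ (s n i)) k
      else - tl (fun m => Rt n u m / (m : ℝ) ^ (s n i)) k

lemma Rt_nil (n k : ℕ) : Rt s B n ([] : List I) k = 0 := by rw [Rt]
lemma Rt_big (n : ℕ) {i : I} (hi : B i = true) (u : List I) (k : ℕ) :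
    Rt s B n (i :: u) k = - tl (fun m => hr (aw s n u) m / (m : ℝ) ^ (s n i)) k := by
  rw [Rt, if_pos hi]
lemma Rt_sml (n : ℕ) {i : I} (hi : B i = false) (u : List I) (k : ℕ) :
    Rt s B n (i :: u) k = - tl (fun m => Rt s B n u m / (m : ℝ) ^ (s n i)) k := by
  rw [Rt, if_neg (by simp [hi])]

/-- the coefficients of the expansions -/
noncomputable def Xt (n : ℕ) : List I → ℝ
  | [] => 1
  | a :: u => - Rt s B n (a :: u) 1

lemma Xt_nil (n : ℕ) : Xt s B n ([] : List I) = 1 := rfl
lemma Xt_cons (n : ℕ) (a : I) (u : List I) : Xt s B n (a :: u) = - Rt s B n (a :: u) 1 := rfl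

/-- the words that are empty or begin with a large letter -/
def Lg (w : List I) : Prop := w = [] ∨ ∃ i u, w = i :: u ∧ B i = true

lemma Xt_mz (n : ℕ) {w : List I} (hw : Lg B w) : Xt s B n w = mz (aw s n w) := by
  rcases hw with rfl | ⟨i, u, rfl, hi⟩
  · rw [Xt_nil, aw_nil, mz]
  · rw [Xt_cons, Rt_big s B n hi, neg_neg, aw_cons, mz]
    rfl

/-- the splittings of a word with a small first part -/
def sp : List I → List (List I × List I)
  | [] => [([], [])]
  | i :: u => if B i then [([], i :: u)] else ([], i :: u) :: (sp u).map fun p => (i :: p.1, p.2)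

lemma sp_nil : sp B ([] : List I) = [([], [])] := by rw [sp]
lemma sp_big {i : I} (hi : B i = true) (u : List I) : sp B (i :: u) = [([], i :: u)] := by
  rw [sp, if_pos hi]
lemma sp_sml {i : I} (hi : B i = false) (u : List I) :
    sp B (i :: u) = ([], i :: u) :: (sp B u).map fun p => (i :: p.1, p.2) := by
  rw [sp, if_neg (by simp [hi])]

lemma sp_Lg {w : List I} (hw : Lg B w) : sp B w = [([], w)] := by
  rcases hw with rfl | ⟨i, u, rfl, hi⟩
  · rw [sp_nil]
  · rw [sp_big B hi]

lemma sp_small (w : List I) : ∀ p ∈ sp B w, ∀ i ∈ p.1, B i = false := by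
  induction w with
  | nil =>
    intro p hp
    rw [sp_nil, List.mem_singleton] at hp
    rw [hp]
    intro i hi
    exact absurd hi List.not_mem_nil
  | cons a u ih =>
    intro p hp
    cases ha : B a with
    | true =>
      rw [sp_big B ha, List.mem_singleton] at hp
      rw [hp]
      intro i hi
      exact absurd hi List.not_mem_nil
    | false =>
      rw [sp_sml B ha, List.mem_cons, List.mem_map] at hp
      rcases hp with rfl | ⟨p', hp', rfl⟩
      · intro i hi
        exact absurd hi List.not_mem_nil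
      · intro i hi
        rcases List.mem_cons.1 hi with rfl | hi
        · exact ha
        · exact ih p' hp' i hi

variable {B}

lemma Rt_bd (n : ℕ) (w : List I) {σ : ℕ} (hσ : 2 * w.length ≤ σ)
    (hs : ∀ i, B i = true → σ ≤ s n i) :
    ∀ k : ℕ, 1 ≤ k → |Rt s B n w k| ≤ ze 2 ^ w.length * (k : ℝ) ^ (2 * w.length) *
      ((k : ℝ) ^ σ)⁻¹ := by
  have hz := ze_ge_one (le_refl 2)
  have hz0 : 0 ≤ ze 2 := by linarith only [hz]
  induction w with
  | nil =>
    intro k _
    rw [Rt_nil, abs_zero]
    positivity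
  | cons i u ih =>
    intro k hk
    rw [List.length_cons] at hσ ⊢
    cases hi : B i with
    | true =>
      rw [Rt_big s B n hi, abs_neg]
      have h1 := tail_bd (f := fun m => hr (aw s n u) m / (m : ℝ) ^ (s n i)) (C := 1)
        (A := 2 * u.length) (σ := σ) zero_le_one (by omega) (fun m hm => by
          have hm1 : (1 : ℝ) ≤ m := by exact_mod_cast hm
          have h2 := hr_le (aw s n u) m hm
          rw [aw_length] at h2
          rw [abs_of_nonneg (div_nonneg (hr_nonneg _ _) (by positivity)), div_eq_mul_inv, one_mul]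
          refine mul_le_mul (h2.trans (pow_le_pow_right₀ hm1 (by omega)))
            (inv_anti₀ (by positivity) (pow_le_pow_right₀ hm1 (hs i hi))) (by positivity)
            (by positivity)) hk
      refine h1.trans ?_
      rw [one_mul]
      have h3 : ze 2 ≤ ze 2 ^ (u.length + 1) := by
        rw [pow_succ]
        exact le_mul_of_one_le_left hz0 (one_le_pow₀ hz)
      have h4 : 2 * u.length + 2 = 2 * (u.length + 1) := by ring
      rw [h4]
      gcongr
    | false =>
      rw [Rt_sml s B n hi, abs_neg]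
      have h1 := tail_bd (f := fun m => Rt s B n u m / (m : ℝ) ^ (s n i)) (C := ze 2 ^ u.length)
        (A := 2 * u.length) (σ := σ) (by positivity) (by omega) (fun m hm => by
          have hm1 : (1 : ℝ) ≤ m := by exact_mod_cast hm
          rw [abs_div, abs_of_nonneg (by positivity : (0 : ℝ) ≤ (m : ℝ) ^ (s n i))]
          exact (div_le_self (abs_nonneg _) (one_le_pow₀ hm1)).trans (ih (by omega) m hm)) hk
      refine h1.trans (le_of_eq ?_)
      rw [pow_succ]
      ring

/-- **the expansion** -/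
lemma expand (n : ℕ) (w : List I) {σ : ℕ} (hσ : 2 * w.length ≤ σ)
    (hs : ∀ i, B i = true → σ ≤ s n i) :
    ∀ k : ℕ, 1 ≤ k → hr (aw s n w) k =
      ((sp B w).map fun p => hr (aw s n p.1) k * Xt s B n p.2).sum + Rt s B n w k := by
  have hz := ze_ge_one (le_refl 2)
  have hz0 : 0 ≤ ze 2 := by linarith only [hz]
  induction w with
  | nil =>
    intro k _
    rw [sp_nil, aw_nil, hr_nil, Rt_nil]
    simp [aw_nil, hr_nil, Xt_nil]
  | cons i u ih =>
    intro k hk
    rw [List.length_cons] at hσ
    cases hi : B i with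
    | true =>
      rw [sp_big B hi]
      rw [aw_cons]
      have e2 : hr (s n i :: aw s n u) k =
        ∑ j ∈ Finset.Ico 1 k, hr (aw s n u) j / (j : ℝ) ^ (s n i) := hr_cons _ _ _
      rw [e2]
      have h1 : Summable fun m => (fun m => hr (aw s n u) m / (m : ℝ) ^ (s n i)) (m + 1) :=
        tail_sum (f := fun m => hr (aw s n u) m / (m : ℝ) ^ (s n i)) (k := 1) (C := 1)
          (A := 2 * u.length) (σ := σ) zero_le_one (by omega) (fun m hm => by
          have hm1 : (1 : ℝ) ≤ m := by exact_mod_cast hm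
          have h2 := hr_le (aw s n u) m hm
          rw [aw_length] at h2
          rw [abs_of_nonneg (div_nonneg (hr_nonneg _ _) (by positivity)), div_eq_mul_inv, one_mul]
          refine mul_le_mul (h2.trans (pow_le_pow_right₀ hm1 (by omega)))
            (inv_anti₀ (by positivity) (pow_le_pow_right₀ hm1 (hs i hi))) (by positivity)
            (by positivity)) le_rfl
      have h2 := tail_split (f := fun m => hr (aw s n u) m / (m : ℝ) ^ (s n i)) h1 hk
      rw [List.map_singleton, List.sum_singleton]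
      show _ = hr [] k * Xt s B n (i :: u) + _
      rw [hr_nil, one_mul, Xt_cons, Rt_big s B n hi, Rt_big s B n hi, neg_neg, ← sub_eq_add_neg]
      exact h2
    | false =>
      rw [sp_sml B hi, aw_cons, hr_cons]
      have h1 : Summable fun m => (fun m => Rt s B n u m / (m : ℝ) ^ (s n i)) (m + 1) :=
        tail_sum (f := fun m => Rt s B n u m / (m : ℝ) ^ (s n i)) (k := 1)
          (C := ze 2 ^ u.length) (A := 2 * u.length) (σ := σ) (by positivity) (by omega)
          (fun m hm => by
            have hm1 : (1 : ℝ) ≤ m := by exact_mod_cast hm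
            rw [abs_div, abs_of_nonneg (by positivity : (0 : ℝ) ≤ (m : ℝ) ^ (s n i))]
            exact (div_le_self (abs_nonneg _) (one_le_pow₀ hm1)).trans
              (Rt_bd s n u (by omega) hs m hm)) le_rfl
      have h2 := tail_split (f := fun m => Rt s B n u m / (m : ℝ) ^ (s n i)) h1 hk
      have h3 : ∑ j ∈ Finset.Ico 1 k, hr (aw s n u) j / (j : ℝ) ^ (s n i) =
          ∑ j ∈ Finset.Ico 1 k, ((sp B u).map fun p =>
            hr (aw s n p.1) j * Xt s B n p.2).sum / (j : ℝ) ^ (s n i) +
          ∑ j ∈ Finset.Ico 1 k, Rt s B n u j / (j : ℝ) ^ (s n i) := by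
        rw [← Finset.sum_add_distrib]
        refine Finset.sum_congr rfl fun j hj => ?_
        rw [Finset.mem_Ico] at hj
        rw [ih (by omega) j hj.1, add_div]
      rw [h3, h2]
      have h4 : ∀ l : List (List I × List I),
          ∑ j ∈ Finset.Ico 1 k, (l.map fun p =>
            hr (aw s n p.1) j * Xt s B n p.2).sum / (j : ℝ) ^ (s n i) =
          ((l.map fun p => (i :: p.1, p.2)).map fun p =>
            hr (aw s n p.1) k * Xt s B n p.2).sum := by
        intro l
        induction l with
        | nil => simp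
        | cons p l ihl =>
          simp only [List.map_cons, List.sum_cons] at ihl ⊢
          rw [← ihl]
          simp only [add_div]
          rw [Finset.sum_add_distrib]
          congr 1
          show _ = hr (s n i :: aw s n p.1) k * Xt s B n p.2
          rw [hr_cons, Finset.sum_mul]
          refine Finset.sum_congr rfl fun j _ => ?_
          ring
      rw [h4, List.map_cons, List.sum_cons]
      show _ = hr [] k * Xt s B n (i :: u) + _ + _
      rw [hr_nil, one_mul, Xt_cons, Rt_sml s B n hi, Rt_sml s B n hi, neg_neg]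
      ring

end

/-! ### germs -/

section

variable {I : Type} [Fintype I] [DecidableEq I] (s : ℕ → I → ℕ) (B : I → Bool)

lemma rho_Gq (w : List I) : ∀ k, rho (Gq s w k) = gr fun n => hr (aw s n w) k := by
  induction w with
  | nil =>
    intro k
    rw [Gq_nil, map_one, ← gr_one]
    rfl
  | cons a u ih =>
    intro k
    rw [Gq_cons, map_sum]
    have h1 : ∀ m ∈ Finset.Ico 1 k, rho (lg s a m * Gq s u m) =
        gr fun n => hr (aw s n u) m / (m : ℝ) ^ (s n a) := by
      intro m _
      rw [map_mul, ih m]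
      unfold lg
      rw [rho_gm, gr_mul]
      congr 1
      funext n
      push_cast
      rw [div_eq_inv_mul]
    rw [Finset.sum_congr rfl h1, gr_sum]
    rfl

/-- the remainder as a germ -/
noncomputable def Rg (w : List I) (k : ℕ) : HR := gr fun n => Rt s B n w k

/-- the coefficients as germs -/
noncomputable def Xg (w : List I) : HR := gr fun n => Xt s B n w

variable {s B} {L : ℕ → ℝ} (hL : Tendsto L atTop atTop)
  (hLs : ∀ᶠ n in (UU : Filter ℕ), ∀ i, B i = true → L n ≤ (s n i : ℝ))
include hL hLs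

lemma ev_sig (r : ℕ) : ∀ᶠ n in (UU : Filter ℕ), 2 * r ≤ ⌈L n⌉₊ ∧ ∀ i, B i = true →
    ⌈L n⌉₊ ≤ s n i := by
  filter_upwards [ev_of_atTop (hL.eventually_ge_atTop ((2 * r : ℕ) : ℝ)), hLs] with n hn hn'
  refine ⟨?_, fun i hi => Nat.ceil_le.2 (hn' i hi)⟩
  exact_mod_cast hn.trans (Nat.le_ceil _)

lemma SR_Rg (w : List I) {k : ℕ} (hk : 1 ≤ k) : Rg s B w k ∈ SR L (Real.log k) := by
  unfold Rg
  rw [mem_SR]
  intro ε hε
  have h1 := SR_cst hL (ze 2 ^ w.length * (k : ℝ) ^ (2 * w.length))
  rw [cst_eq, mem_SR] at h1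
  have hk1 : (1 : ℝ) ≤ k := by exact_mod_cast hk
  filter_upwards [h1 ε hε, ev_sig hL hLs w.length, L_nonneg hL] with n h2 h3 h4
  have h5 := Rt_bd s n w h3.1 h3.2 k hk
  refine h5.trans ?_
  have h6 : ((k : ℝ) ^ ⌈L n⌉₊)⁻¹ ≤ Real.exp (-(Real.log k) * L n) := by
    rw [show ((k : ℝ) ^ ⌈L n⌉₊)⁻¹ = Real.exp (-(Real.log k) * (⌈L n⌉₊ : ℝ)) by
      rw [neg_mul, Real.exp_neg, mul_comm (Real.log k), Real.exp_nat_mul,
        Real.exp_log (by linarith only [hk1])]]
    apply Real.exp_le_exp.2
    have h7 := Nat.le_ceil (L n)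
    have h8 := Real.log_nonneg hk1
    nlinarith only [h7, h8]
  have h7 := (le_abs_self _).trans h2
  calc ze 2 ^ w.length * (k : ℝ) ^ (2 * w.length) * ((k : ℝ) ^ ⌈L n⌉₊)⁻¹ ≤
      Real.exp (-(0 - ε) * L n) * Real.exp (-(Real.log k) * L n) :=
        mul_le_mul h7 h6 (by positivity) (by positivity)
    _ = Real.exp (-(Real.log k - ε) * L n) := by
      rw [← Real.exp_add]
      congr 1
      ring

lemma SR_Xg (w : List I) : Xg s B w ∈ SR L 0 := by
  cases w with
  | nil =>
    have h1 : Xg s B ([] : List I) = 1 := by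
      unfold Xg
      simp only [Xt_nil]
      exact gr_one
    rw [h1]
    exact (Un.one hL).2.1
  | cons a u =>
    have h1 : Xg s B (a :: u) = - Rg s B (a :: u) 1 := by
      unfold Xg Rg
      rw [gr_neg]
      rfl
    rw [h1]
    refine SR_neg ?_
    have h2 := SR_Rg hL hLs (a :: u) (le_refl 1)
    rwa [Nat.cast_one, Real.log_one] at h2

lemma Gq_expand (w : List I) {k : ℕ} (hk : 1 ≤ k) :
    rho (Gq s w k) = ((sp B w).map fun p => rho (Gq s p.1 k) * Xg s B p.2).sum +
      Rg s B w k := by
  have h1 : ∀ l : List (List I × List I),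
      (l.map fun p => rho (Gq s p.1 k) * Xg s B p.2).sum =
        gr fun n => (l.map fun p => hr (aw s n p.1) k * Xt s B n p.2).sum := by
    intro l
    induction l with
    | nil =>
      simp only [List.map_nil, List.sum_nil]
      exact gr_zero.symm
    | cons p l ih =>
      simp only [List.map_cons, List.sum_cons]
      rw [ih, rho_Gq]
      unfold Xg
      rw [gr_mul, gr_add]
  rw [rho_Gq, h1]
  unfold Rg
  rw [gr_add, gr_eq]
  filter_upwards [ev_sig hL hLs w.length] with n hn
  exact expand s n w hn.1 hn.2 k hk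

lemma Gq_Lg {w : List I} (hw : Lg B w) {k : ℕ} (hk : 1 ≤ k) :
    rho (Gq s w k) = Xg s B w + Rg s B w k := by
  rw [Gq_expand hL hLs w hk, sp_Lg B hw, List.map_singleton, List.sum_singleton]
  show rho (Gq s [] k) * _ + _ = _
  rw [Gq_nil, map_one, one_mul]

lemma DD_Xg {F : IntermediateField ℚ ℝ} {x : I → ℝ} (hs : Lim s x L) {w : List I}
    (hw : Lg B w) : DD hL F (Xg s B w) := by
  intro E
  obtain ⟨k, hk⟩ := exists_nat_ge (Real.exp E)
  have hk0 : (0 : ℝ) < k := lt_of_lt_of_le (Real.exp_pos E) hk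
  have hk1 : 1 ≤ k := by
    have : 0 < k := by exact_mod_cast hk0
    omega
  refine ⟨rho (Gq s w k), SF_Gq hs w k, ?_⟩
  rw [Gq_Lg hL hLs hw hk1, sub_add_cancel_left]
  refine SR_neg (SR_anti hL ?_ (SR_Rg hL hLs w hk1))
  rw [Real.le_log_iff_exp_le hk0]
  exact hk

lemma trunc_sum {W : Type} [Fintype W] {w : W → List I} (hw : ∀ v, Lg B (w v))
    {c : W → HR} {K : ℝ} (hK : ∀ v, c v ∈ SR L (-K)) (hn : Nul L (∑ v, c v * Xg s B (w v)))
    {k : ℕ} (hk : 1 ≤ k) : ∑ v, c v * rho (Gq s (w v) k) ∈ SR L (Real.log k - K) := by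
  have e1 : ∑ v, c v * rho (Gq s (w v) k) =
      ∑ v, c v * Xg s B (w v) + ∑ v, c v * Rg s B (w v) k := by
    rw [← Finset.sum_add_distrib]
    refine Finset.sum_congr rfl fun v _ => ?_
    rw [Gq_Lg hL hLs (hw v) hk]
    ring
  rw [e1]
  refine SR_add hL (hn _) (SR_sum hL _ _ fun v _ => ?_)
  have h1 := SR_mul hL (hK v) (SR_Rg hL hLs (w v) hk)
  refine SR_anti hL (le_of_eq ?_) h1
  ring

end

end Pool.Agent.Y760.ZF
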