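import Pool.Agent.Y760.ZF.Zb

/-!
# Weakly alternating sequences and sums of products of powers (helper760)
-/

set_option autoImplicit false

namespace Pool.Agent.Y760.ZF

open Polynomial

/-- a weakly alternating sequence of length `R + 1` -/
def WA (f : ℕ → ℝ) (lo hi R : ℕ) : Prop :=
  ∃ (u : ℕ → ℕ) (ε : ℝ), (ε = 1 ∨ ε = -1) ∧ lo ≤ u 0 ∧ u R ≤ hi ∧ (∀ i, i < R → u i < u (i + 1)) ∧
    ∀ i, i ≤ R → 0 ≤ ε * (-1) ^ i * f (u i)

lemma wa_mono {u : ℕ → ℕ} {R : ℕ} (hu : ∀ i, i < R → u i < u (i + 1)) {i j : ℕ} (hij : i ≤ j)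
    (hj : j ≤ R) : u i ≤ u j := by
  induction j, hij using Nat.le_induction with
  | base => exact le_rfl
  | succ j hij ih => exact (ih (by omega)).trans (hu j (by omega)).le

lemma wa_lt {u : ℕ → ℕ} {R : ℕ} (hu : ∀ i, i < R → u i < u (i + 1)) {i j : ℕ} (hij : i < j)
    (hj : j ≤ R) : u i < u j :=
  (hu i (by omega)).trans_le (wa_mono hu (Nat.succ_le_of_lt hij) hj)

lemma WA.mono {f : ℕ → ℝ} {lo hi R R' : ℕ} (h : WA f lo hi R) (hR : R' ≤ R) : WA f lo hi R' := by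
  obtain ⟨u, ε, h1, h2, h3, h4, h5⟩ := h
  exact ⟨u, ε, h1, h2, (wa_mono h4 hR le_rfl).trans h3, fun i hi => h4 i (by omega),
    fun i hi => h5 i (by omega)⟩

lemma WA.congr {f g : ℕ → ℝ} {lo hi R : ℕ} (h : WA f lo hi R)
    (hfg : ∀ k, lo ≤ k → k ≤ hi → f k = g k) : WA g lo hi R := by
  obtain ⟨u, ε, h1, h2, h3, h4, h5⟩ := h
  refine ⟨u, ε, h1, h2, h3, h4, fun i hi => ?_⟩
  rw [← hfg (u i) (h2.trans (wa_mono h4 (Nat.zero_le i) hi)) ((wa_mono h4 hi le_rfl).trans h3)]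
  exact h5 i hi

lemma WA.pos {f g : ℕ → ℝ} {lo hi R : ℕ} (h : WA f lo hi R)
    (hg : ∀ k, lo ≤ k → k ≤ hi → 0 < g k) : WA (fun k => g k * f k) lo hi R := by
  obtain ⟨u, ε, h1, h2, h3, h4, h5⟩ := h
  refine ⟨u, ε, h1, h2, h3, h4, fun i hi => ?_⟩
  have h6 := hg (u i) (h2.trans (wa_mono h4 (Nat.zero_le i) hi)) ((wa_mono h4 hi le_rfl).trans h3)
  have h7 := mul_nonneg h6.le (h5 i hi)
  refine h7.trans (le_of_eq ?_)
  ring

lemma WA.neg {f : ℕ → ℝ} {lo hi R : ℕ} (h : WA f lo hi R) : WA (fun k => - f k) lo hi R := by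
  obtain ⟨u, ε, h1, h2, h3, h4, h5⟩ := h
  refine ⟨u, -ε, ?_, h2, h3, h4, fun i hi => ?_⟩
  · rcases h1 with h1 | h1
    · right
      rw [h1]
    · left
      rw [h1, neg_neg]
  · refine (h5 i hi).trans (le_of_eq ?_)
    ring

lemma WA.sgn {f g : ℕ → ℝ} {lo hi R : ℕ} (h : WA f lo hi R)
    (hg : (∀ k, lo ≤ k → k ≤ hi → 0 < g k) ∨ (∀ k, lo ≤ k → k ≤ hi → g k < 0)) :
    WA (fun k => g k * f k) lo hi R := by
  rcases hg with hg | hg
  · exact h.pos hg
  · refine (h.neg.pos (g := fun k => - g k) fun k h1 h2 => neg_pos.2 (hg k h1 h2)).congr ?_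
    intro k _ _
    ring

/-- discrete Rolle -/
lemma WA.diff {f : ℕ → ℝ} {lo hi R : ℕ} (h : WA f lo hi (R + 1)) :
    WA (fun k => f (k + 1) - f k) lo (hi - 1) R := by
  obtain ⟨u, ε, h1, h2, h3, h4, h5⟩ := h
  have h6 : ∀ i, i ≤ R → ∃ k, u i ≤ k ∧ k < u (i + 1) ∧
      0 ≤ (-ε) * (-1) ^ i * (f (k + 1) - f k) := by
    intro i hi
    by_contra hcon
    push Not at hcon
    have h7 : ∀ b, u i + 1 ≤ b → b ≤ u (i + 1) → (-ε) * (-1) ^ i * (f b - f (u i)) < 0 := by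
      intro b hb
      induction b, hb using Nat.le_induction with
      | base =>
        intro hb
        exact hcon (u i) le_rfl (by omega)
      | succ b hb ih =>
        intro hb'
        have h8 := ih (by omega)
        have h9 := hcon b (by omega) (by omega)
        have e1 : (-ε) * (-1) ^ i * (f (b + 1) - f (u i)) =
            (-ε) * (-1) ^ i * (f (b + 1) - f b) + (-ε) * (-1) ^ i * (f b - f (u i)) := by ring
        rw [e1]
        linarith only [h8, h9]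
    have h8 := h7 (u (i + 1)) (h4 i (by omega)) le_rfl
    have h9 := h5 i (by omega)
    have h10 := h5 (i + 1) (by omega)
    rw [pow_succ] at h10
    have e1 : (-ε) * (-1) ^ i * (f (u (i + 1)) - f (u i)) =
        ε * ((-1) ^ i * -1) * f (u (i + 1)) + ε * (-1) ^ i * f (u i) := by ring
    rw [e1] at h8
    linarith only [h8, h9, h10]
  choose! v hv1 hv2 hv3 using h6
  refine ⟨v, -ε, ?_, h2.trans (hv1 0 (Nat.zero_le _)), ?_, fun i hi => ?_, fun i hi => hv3 i hi⟩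
  · rcases h1 with h1 | h1
    · right
      rw [h1]
    · left
      rw [h1, neg_neg]
  · have h7 := hv2 R le_rfl
    omega
  · exact (hv2 i hi.le).trans_le (hv1 (i + 1) hi)

/-- a polynomial without zeros on an interval has constant sign -/
lemma const_sign (φ : ℝ[X]) {a b : ℝ} (h : ∀ x, a ≤ x → x ≤ b → φ.eval x ≠ 0) :
    (∀ x, a ≤ x → x ≤ b → 0 < φ.eval x) ∨ (∀ x, a ≤ x → x ≤ b → φ.eval x < 0) := by
  by_cases ha : 0 < φ.eval a
  · left
    intro x h1 h2
    by_contra hcon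
    rw [not_lt] at hcon
    obtain ⟨z, hz, hz'⟩ := intermediate_value_Icc' h1 φ.continuous.continuousOn ⟨hcon, ha.le⟩
    exact h z hz.1 (hz.2.trans h2) hz'
  · right
    intro x h1 h2
    by_contra hcon
    rw [not_lt] at ha hcon
    obtain ⟨z, hz, hz'⟩ := intermediate_value_Icc h1 φ.continuous.continuousOn ⟨ha, hcon⟩
    exact h z hz.1 (hz.2.trans h2) hz'

lemma card_of_mono {Z : ℕ} {x : ℕ → ℝ} {p : ℝ → Prop} (hx : ∀ j, j ≤ Z → p (x j))
    (hlt : ∀ j, j < Z → x j < x (j + 1)) (hp : ∀ S : Finset ℝ, (∀ y ∈ S, p y) → S.card ≤ Z) :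
    False := by
  classical
  have h1 : ∀ i j, i < j → j ≤ Z → x i < x j := by
    intro i j hij
    induction j, (Nat.succ_le_of_lt hij) using Nat.le_induction with
    | base => intro hj; exact hlt i (by omega)
    | succ j hij' ih => intro hj; exact (ih (by omega) (by omega)).trans (hlt j (by omega))
  have h2 := hp ((Finset.range (Z + 1)).image x) (by
    intro y hy
    obtain ⟨j, hj, rfl⟩ := Finset.mem_image.1 hy
    exact hx j (by have := Finset.mem_range.1 hj; omega))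
  rw [Finset.card_image_of_injOn, Finset.card_range] at h2
  · omega
  · intro i hi j hj hij
    rw [Finset.coe_range, Set.mem_Iio] at hi hj
    rcases Nat.lt_trichotomy i j with h | h | h
    · exact absurd hij (h1 i j h (by omega)).ne
    · exact h
    · exact absurd hij.symm (h1 j i h (by omega)).ne

lemma WA.block {f : ℕ → ℝ} {lo hi R : ℕ} (h : WA f lo hi R) (hlo : 1 ≤ lo) (φ : ℝ[X]) {Z : ℕ}
    (hZ : ∀ S : Finset ℝ, (∀ x ∈ S, 0 < x ∧ φ.eval x = 0) → S.card ≤ Z) {R' : ℕ}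
    (hR : (Z + 1) * (R' + 1) ≤ R + 1) :
    ∃ lo' hi', lo ≤ lo' ∧ hi' ≤ hi ∧ (∀ x : ℝ, (lo' : ℝ) ≤ x → x ≤ (hi' : ℝ) → φ.eval x ≠ 0) ∧
      WA f lo' hi' R' := by
  obtain ⟨u, ε, h1, h2, h3, h4, h5⟩ := h
  by_contra hcon
  have hjR : ∀ j, j ≤ Z → j * (R' + 1) + R' ≤ R := by
    intro j hj
    have h6 : (j + 1) * (R' + 1) ≤ (Z + 1) * (R' + 1) := Nat.mul_le_mul_right _ (by omega)
    have h7 : (j + 1) * (R' + 1) = j * (R' + 1) + (R' + 1) := by ring
    omega
  have h6 : ∀ j, j ≤ Z → ∃ x : ℝ, ((u (j * (R' + 1)) : ℕ) : ℝ) ≤ x ∧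
      x ≤ ((u (j * (R' + 1) + R') : ℕ) : ℝ) ∧ φ.eval x = 0 := by
    intro j hj
    by_contra hcon2
    apply hcon
    have h7 := hjR j hj
    refine ⟨u (j * (R' + 1)), u (j * (R' + 1) + R'), h2.trans (wa_mono h4 (Nat.zero_le _) (by omega)),
      (wa_mono h4 h7 le_rfl).trans h3, fun x hx hx' h0 => hcon2 ⟨x, hx, hx', h0⟩, ?_⟩
    refine ⟨fun i => u (j * (R' + 1) + i), ε * (-1) ^ (j * (R' + 1)), ?_, le_rfl, le_rfl,
      fun i hi => h4 _ (by omega), fun i hi => ?_⟩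
    · rcases neg_one_pow_eq_or ℝ (j * (R' + 1)) with h8 | h8 <;> rcases h1 with h1 | h1 <;>
        rw [h8, h1] <;> norm_num
    · have h8 := h5 (j * (R' + 1) + i) (by omega)
      refine h8.trans (le_of_eq ?_)
      rw [pow_add]
      ring
  choose! x hx1 hx2 hx3 using h6
  refine card_of_mono (Z := Z) (x := x) (p := fun y => 0 < y ∧ φ.eval y = 0)
    (fun j hj => ⟨?_, hx3 j hj⟩) (fun j hj => ?_) hZ
  · have h7 := hjR j hj
    have h8 : lo ≤ u (j * (R' + 1)) := h2.trans (wa_mono h4 (Nat.zero_le _) (by omega))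
    have h9 : (1 : ℝ) ≤ (u (j * (R' + 1)) : ℕ) := by exact_mod_cast hlo.trans h8
    linarith only [hx1 j hj, h9]
  · have h7 := hjR (j + 1) (by omega)
    have h8 : u (j * (R' + 1) + R') < u ((j + 1) * (R' + 1)) :=
      wa_lt h4 (by
        have : (j + 1) * (R' + 1) = j * (R' + 1) + (R' + 1) := by ring
        omega) (by omega)
    have h9 : ((u (j * (R' + 1) + R') : ℕ) : ℝ) < ((u ((j + 1) * (R' + 1)) : ℕ) : ℝ) := by
      exact_mod_cast h8
    exact (hx2 j hj.le).trans_lt (h9.trans_le (hx1 (j + 1) (by omega)))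

lemma WA.poly {φ : ℝ[X]} {lo hi R : ℕ} (h : WA (fun k => φ.eval (k : ℝ)) lo hi R) (hlo : 1 ≤ lo)
    {Z : ℕ} (hZ : ∀ S : Finset ℝ, (∀ x ∈ S, 0 < x ∧ φ.eval x = 0) → S.card ≤ Z)
    (hR : 2 * Z + 1 ≤ R) : False := by
  obtain ⟨u, ε, h1, h2, h3, h4, h5⟩ := h
  have h6 : ∀ j, j ≤ Z → ∃ x : ℝ, ((u (2 * j) : ℕ) : ℝ) ≤ x ∧ x ≤ ((u (2 * j + 1) : ℕ) : ℝ) ∧
      φ.eval x = 0 := by
    intro j hj
    have h7 := h5 (2 * j) (by omega)
    have h8 := h5 (2 * j + 1) (by omega)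
    have h9 : (u (2 * j) : ℝ) ≤ (u (2 * j + 1) : ℝ) := by exact_mod_cast (h4 (2 * j) (by omega)).le
    rw [pow_succ, pow_mul] at h8
    rw [pow_mul] at h7
    norm_num at h7 h8
    rcases h1 with h1 | h1
    · rw [h1] at h7 h8
      obtain ⟨z, hz, hz'⟩ := intermediate_value_Icc' h9 φ.continuous.continuousOn
        (show (0 : ℝ) ∈ Set.Icc (φ.eval ((u (2 * j + 1) : ℕ) : ℝ)) (φ.eval ((u (2 * j) : ℕ) : ℝ)) from
          ⟨by linarith only [h8], by linarith only [h7]⟩)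
      exact ⟨z, hz.1, hz.2, hz'⟩
    · rw [h1] at h7 h8
      obtain ⟨z, hz, hz'⟩ := intermediate_value_Icc h9 φ.continuous.continuousOn
        (show (0 : ℝ) ∈ Set.Icc (φ.eval ((u (2 * j) : ℕ) : ℝ)) (φ.eval ((u (2 * j + 1) : ℕ) : ℝ)) from
          ⟨by linarith only [h7], by linarith only [h8]⟩)
      exact ⟨z, hz.1, hz.2, hz'⟩
  choose! x hx1 hx2 hx3 using h6
  refine card_of_mono (Z := Z) (x := x) (p := fun y => 0 < y ∧ φ.eval y = 0)
    (fun j hj => ⟨?_, hx3 j hj⟩) (fun j hj => ?_) hZ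
  · have h8 : lo ≤ u (2 * j) := h2.trans (wa_mono h4 (Nat.zero_le _) (by omega))
    have h9 : (1 : ℝ) ≤ (u (2 * j) : ℕ) := by exact_mod_cast hlo.trans h8
    linarith only [hx1 j hj, h9]
  · have h8 : u (2 * j + 1) < u (2 * (j + 1)) := wa_lt h4 (by omega) (by omega)
    have h9 : ((u (2 * j + 1) : ℕ) : ℝ) < ((u (2 * (j + 1)) : ℕ) : ℝ) := by exact_mod_cast h8
    exact (hx2 j hj.le).trans_lt (h9.trans_le (hx1 (j + 1) (by omega)))

/-! ### sums of products of powers of linear forms -/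

/-- at most `T` terms -/
def EC (A T : ℕ) (f : ℝ[X]) : Prop :=
  ∃ l : List (ℝ × (ℕ → ℕ)), l.length ≤ T ∧ f = (l.map fun p => C p.1 * Mo A p.2).sum

lemma EC.mono {A T T' : ℕ} {f : ℝ[X]} (h : EC A T f) (hT : T ≤ T') : EC A T' f := by
  obtain ⟨l, h1, h2⟩ := h
  exact ⟨l, h1.trans hT, h2⟩

lemma EC.zero {A : ℕ} : EC A 0 0 := ⟨[], by simp, by simp⟩

lemma EC.add {A T T' : ℕ} {f g : ℝ[X]} (hf : EC A T f) (hg : EC A T' g) : EC A (T + T') (f + g) := by
  obtain ⟨l, h1, rfl⟩ := hf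
  obtain ⟨l', h1', rfl⟩ := hg
  refine ⟨l ++ l', ?_, ?_⟩
  · rw [List.length_append]
    omega
  · rw [List.map_append, List.sum_append]

lemma EC.smul {A T : ℕ} {f : ℝ[X]} (c : ℝ) (hf : EC A T f) : EC A T (C c * f) := by
  obtain ⟨l, h1, rfl⟩ := hf
  refine ⟨l.map fun p => (c * p.1, p.2), by rwa [List.length_map], ?_⟩
  rw [List.map_map]
  clear h1
  induction l with
  | nil => simp
  | cons p l ih =>
    simp only [List.map_cons, List.sum_cons, Function.comp_apply] at ih ⊢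
    rw [mul_add, ih, C_mul, mul_assoc]

lemma EC.neg {A T : ℕ} {f : ℝ[X]} (hf : EC A T f) : EC A T (-f) := by
  have := hf.smul (-1)
  rwa [C_neg, C_1, neg_one_mul] at this

lemma EC.sub {A T T' : ℕ} {f g : ℝ[X]} (hf : EC A T f) (hg : EC A T' g) :
    EC A (T + T') (f - g) := by
  rw [sub_eq_add_neg]
  exact hf.add hg.neg

lemma EC.mul_term {A T : ℕ} {f : ℝ[X]} (hf : EC A T f) (c : ℝ) (e : ℕ → ℕ) :
    EC A T ((C c * Mo A e) * f) := by
  obtain ⟨l, h1, rfl⟩ := hf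
  refine ⟨l.map fun p => (c * p.1, fun a => e a + p.2 a), by rwa [List.length_map], ?_⟩
  rw [List.map_map]
  clear h1
  induction l with
  | nil => simp
  | cons p l ih =>
    simp only [List.map_cons, List.sum_cons, Function.comp_apply] at ih ⊢
    rw [mul_add, ih, C_mul, Mo_add]
    ring

lemma EC.mul {A T T' : ℕ} {f g : ℝ[X]} (hf : EC A T f) (hg : EC A T' g) :
    EC A (T * T') (f * g) := by
  obtain ⟨l, h1, rfl⟩ := hf
  refine EC.mono ?_ (Nat.mul_le_mul_right T' h1)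
  clear h1
  induction l with
  | nil =>
    simp only [List.map_nil, List.sum_nil, List.length_nil, zero_mul]
    exact EC.zero
  | cons p l ih =>
    simp only [List.map_cons, List.sum_cons, List.length_cons]
    have e1 : (l.length + 1) * T' = T' + l.length * T' := by ring
    rw [e1, add_mul]
    exact (hg.mul_term p.1 p.2).add ih

lemma Mo_up (A : ℕ) (e : ℕ → ℕ) : Mo A e = Mo (A + 1) (fun a => if a < A then e a else 0) := by
  unfold Mo
  rw [Finset.prod_range_succ]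
  simp only [lt_irrefl, if_false, pow_zero, mul_one]
  refine Finset.prod_congr rfl fun a ha => ?_
  rw [if_pos (Finset.mem_range.1 ha)]

lemma EC.up {A T : ℕ} {f : ℝ[X]} (hf : EC A T f) : EC (A + 1) T f := by
  obtain ⟨l, h1, rfl⟩ := hf
  refine ⟨l.map fun p => (p.1, fun a => if a < A then p.2 a else 0), by rwa [List.length_map], ?_⟩
  rw [List.map_map]
  congr 1
  refine List.map_congr_left fun p _ => ?_
  simp only [Function.comp_apply]
  rw [← Mo_up]

lemma Mo_shift (A : ℕ) (e : ℕ → ℕ) : (Mo A e).comp (X + C 1) =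
    Mo (A + 1) (fun a => match a with
      | 0 => 0
      | a + 1 => e a) := by
  unfold Mo
  rw [Finset.prod_range_succ', pow_zero, mul_one, Polynomial.prod_comp]
  refine Finset.prod_congr rfl fun a _ => ?_
  rw [pow_comp, add_comp, X_comp, C_comp, add_assoc, ← C_add]
  congr 3
  push_cast
  ring

lemma EC.shift {A T : ℕ} {f : ℝ[X]} (hf : EC A T f) : EC (A + 1) T (f.comp (X + C 1)) := by
  obtain ⟨l, h1, rfl⟩ := hf
  refine ⟨l.map fun p => (p.1, fun a => match a with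
      | 0 => 0
      | a + 1 => p.2 a), by rwa [List.length_map], ?_⟩
  clear h1
  induction l with
  | nil => simp
  | cons p l ih =>
    simp only [List.map_cons, List.sum_cons] at ih ⊢
    rw [add_comp, ih, mul_comp, C_comp, Mo_shift]

lemma EC.X_pow (A m : ℕ) : EC (A + 1) 1 (X ^ m) := by
  refine ⟨[(1, fun a => if a = 0 then m else 0)], by simp, ?_⟩
  rw [List.map_singleton, List.sum_singleton, C_1, one_mul]
  unfold Mo
  rw [Finset.prod_range_succ', Finset.prod_eq_one]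
  · simp
  · intro a _
    simp

lemma EC.sum {A T : ℕ} {ι : Type*} (s : Finset ι) (f : ι → ℝ[X]) (h : ∀ i ∈ s, EC A T (f i)) :
    EC A (s.card * T) (∑ i ∈ s, f i) := by
  classical
  induction s using Finset.induction_on with
  | empty =>
    rw [Finset.card_empty, zero_mul, Finset.sum_empty]
    exact EC.zero
  | insert b t hb ih =>
    rw [Finset.card_insert_of_notMem hb, Finset.sum_insert hb, Nat.succ_mul,
      add_comm (t.card * T)]
    exact (h b (Finset.mem_insert_self _ _)).add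
      (ih fun i hi => h i (Finset.mem_insert_of_mem hi))

/-- zeros -/
lemma ec_zb (A T : ℕ) : ∃ Z : ℕ, ∀ f, EC A T f → f ≠ 0 → ∀ S : Finset ℝ,
    (∀ x ∈ S, 0 < x ∧ f.eval x = 0) → S.card ≤ Z := by
  obtain ⟨Z, hZ⟩ := zb A T 0
  refine ⟨Z, ?_⟩
  rintro f ⟨l, h1, rfl⟩ h0 S hS
  have e1 : (l.map fun p => C p.1 * Mo A p.2).sum = ls A (l.map fun p => (C p.1, p.2)) := by
    unfold ls
    rw [List.map_map]
    rfl
  rw [e1] at h0 hS
  refine hZ _ (by rwa [List.length_map]) ?_ h0 S hS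
  intro p hp
  obtain ⟨p', _, rfl⟩ := List.mem_map.1 hp
  simp

end Pool.Agent.Y760.ZF
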