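import Pool.Agent.Y760.ZG.Ind

/-!
# Truncated multiple sums with arbitrary letters: the parts at one prime (helper760)
-/

set_option autoImplicit false

namespace Pool.Agent.Y760.ZF

open Filter Topology Pool.Agent.TH932.Abs Pool.Agent.TH932.Germs Pool.Agent.TH932.Chi
open Pool.Agent.TH796.AL Pool.Agent.Y760.ZG

variable {I : Type} [Fintype I] [DecidableEq I] (s : ℕ → I → ℕ) (x : I → ℝ)

/-- the germ of `m ^ (-a)` -/
noncomputable def lg (a : I) (m : ℕ) : GG := gm fun n => ((m : ℚ) ^ (s n a))⁻¹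

lemma lg_mul (a : I) (m m' : ℕ) : lg s a (m * m') = lg s a m * lg s a m' := by
  unfold lg
  rw [gm_mul]
  congr 1
  funext n
  push_cast
  rw [mul_pow, mul_inv]

lemma lg_one (a : I) : lg s a 1 = 1 := by
  unfold lg
  rw [← gm_one]
  congr 1
  funext n
  simp

lemma lg_pow (a : I) (m v : ℕ) : lg s a (m ^ v) = lg s a m ^ v := by
  induction v with
  | zero => rw [pow_zero, pow_zero, lg_one]
  | succ v ih => rw [pow_succ, pow_succ, lg_mul, ih]

lemma lg_prod (a : I) {ι : Type} (t : Finset ι) (f : ι → ℕ) :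
    lg s a (∏ i ∈ t, f i) = ∏ i ∈ t, lg s a (f i) := by
  classical
  induction t using Finset.induction_on with
  | empty => rw [Finset.prod_empty, Finset.prod_empty, lg_one]
  | insert b t hb ih => rw [Finset.prod_insert hb, Finset.prod_insert hb, lg_mul, ih]

lemma lg_pr (i : I) (q : ℕ) : lg s i (pr q) = ug s q i := rfl

lemma lg_primes (a : I) {m M : ℕ} (hm : 1 ≤ m) (hM : m ≤ M) :
    lg s a m = ∏ i ∈ Finset.range M, lg s a (pr i) ^ padicValNat (pr i) m := by
  classical
  have h1 : ∏ p ∈ (pr M).primesBelow, p ^ padicValNat p m = m := by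
    have h2 := Nat.prod_pow_prime_padicValNat m (by omega) (pr M) (by have := pr_ge M; omega)
    exact h2
  rw [primesBelow_pr, Finset.prod_image fun _ _ _ _ h => pr_inj h] at h1
  conv_lhs => rw [← h1]
  rw [lg_prod]
  exact Finset.prod_congr rfl fun i _ => lg_pow _ _ _ _

/-- truncated multiple sums -/
noncomputable def Gq : List (I) → ℕ → GG
  | [], _ => 1
  | a :: u, N => ∑ m ∈ Finset.Ico 1 N, lg s a m * Gq u m

lemma Gq_nil (N : ℕ) : Gq s ([] : List (I)) N = 1 := by rw [Gq]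
lemma Gq_cons (a : I) (u : List (I)) (N : ℕ) :
    Gq s (a :: u) N = ∑ m ∈ Finset.Ico 1 N, lg s a m * Gq s u m := by rw [Gq]

open Classical in
/-- the part of the weight `z` at the prime `q` -/
noncomputable def Gz (q : ℕ) : List (I) → ℕ → ℝ → GG
  | [], _, z => if z = 0 then 1 else 0
  | a :: u, N, z => ∑ m ∈ Finset.Ico 1 N,
      lg s a m * Gz q u m (z - padicValNat (pr q) m * x a)

open Classical in
lemma Gz_nil (q N : ℕ) (z : ℝ) :
    Gz s x q ([] : List (I)) N z = if z = 0 then 1 else 0 := by rw [Gz]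
lemma Gz_cons (q : ℕ) (a : I) (u : List (I)) (N : ℕ) (z : ℝ) :
    Gz s x q (a :: u) N z = ∑ m ∈ Finset.Ico 1 N,
      lg s a m * Gz s x q u m (z - padicValNat (pr q) m * x a) := by rw [Gz]

open Classical in
/-- the weights that occur -/
noncomputable def Ys (q : ℕ) : List (I) → ℕ → Finset ℝ
  | [], _ => {0}
  | a :: u, N => (Finset.Ico 1 N).biUnion fun m =>
      (Ys q u m).image fun z => z + padicValNat (pr q) m * x a

open Classical in
lemma Ys_nil (q N : ℕ) : Ys x q ([] : List (I)) N = {0} := by rw [Ys]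
open Classical in
lemma Ys_cons (q : ℕ) (a : I) (u : List (I)) (N : ℕ) :
    Ys x q (a :: u) N = (Finset.Ico 1 N).biUnion fun m =>
      (Ys x q u m).image fun z => z + padicValNat (pr q) m * x a := by rw [Ys]

lemma Gz_notMem (q : ℕ) (u : List (I)) : ∀ (N : ℕ) (z : ℝ), z ∉ Ys x q u N →
    Gz s x q u N z = 0 := by
  classical
  induction u with
  | nil =>
    intro N z hz
    rw [Ys_nil, Finset.mem_singleton] at hz
    rw [Gz_nil, if_neg hz]
  | cons a u ih =>
    intro N z hz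
    rw [Ys_cons] at hz
    rw [Gz_cons]
    refine Finset.sum_eq_zero fun m hm => ?_
    rw [ih m, mul_zero]
    intro h
    exact hz (Finset.mem_biUnion.2 ⟨m, hm, Finset.mem_image.2 ⟨_, h, by ring⟩⟩)

lemma Gz_sum (q : ℕ) (u : List (I)) : ∀ (N : ℕ) (Y : Finset ℝ), Ys x q u N ⊆ Y →
    ∑ z ∈ Y, Gz s x q u N z = Gq s u N := by
  classical
  induction u with
  | nil =>
    intro N Y hY
    rw [Ys_nil, Finset.singleton_subset_iff] at hY
    rw [Gq_nil, Finset.sum_eq_single_of_mem 0 hY]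
    · rw [Gz_nil, if_pos rfl]
    · intro z _ hz
      rw [Gz_nil, if_neg hz]
  | cons a u ih =>
    intro N Y hY
    rw [Ys_cons] at hY
    rw [Gq_cons]
    simp only [Gz_cons]
    rw [Finset.sum_comm]
    refine Finset.sum_congr rfl fun m hm => ?_
    rw [← Finset.mul_sum]
    congr 1
    rw [← ih m (Y.image fun z => z - padicValNat (pr q) m * x a) ?_, Finset.sum_image]
    · intro z _ z' _ h
      simpa using h
    · intro z hz
      refine Finset.mem_image.2 ⟨z + padicValNat (pr q) m * x a, ?_, by ring⟩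
      exact hY (Finset.mem_biUnion.2 ⟨m, hm, Finset.mem_image.2 ⟨_, hz, rfl⟩⟩)

variable {x}

lemma x_nonneg (hx : ∀ i, x i = 0 ∨ 1 ≤ x i) (a : I) : 0 ≤ x a := by
  rcases hx a with h | h <;> linarith only [h]

lemma Ys_zero_or (hx : ∀ i, x i = 0 ∨ 1 ≤ x i) (q : ℕ) (u : List (I)) : ∀ (N : ℕ) (z : ℝ),
    z ∈ Ys x q u N → z = 0 ∨ 1 ≤ z := by
  classical
  induction u with
  | nil =>
    intro N z hz
    rw [Ys_nil, Finset.mem_singleton] at hz
    exact Or.inl hz
  | cons a u ih =>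
    intro N z hz
    rw [Ys_cons, Finset.mem_biUnion] at hz
    obtain ⟨m, _, hz⟩ := hz
    obtain ⟨z', hz', rfl⟩ := Finset.mem_image.1 hz
    have h1 := ih m z' hz'
    have h2 : 0 ≤ z' := by rcases h1 with h | h <;> linarith only [h]
    rcases Nat.eq_zero_or_pos (padicValNat (pr q) m) with h3 | h3
    · rw [h3, Nat.cast_zero, zero_mul, add_zero]
      exact h1
    · have h4 : (1 : ℝ) ≤ (padicValNat (pr q) m : ℝ) := by exact_mod_cast h3
      rcases hx a with h5 | h5
      · rw [h5, mul_zero, add_zero]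
        exact h1
      · right
        nlinarith only [h2, h4, h5]

lemma Ys_nonneg (hx : ∀ i, x i = 0 ∨ 1 ≤ x i) {q : ℕ} {u : List (I)} {N : ℕ} {z : ℝ}
    (hz : z ∈ Ys x q u N) : 0 ≤ z := by
  rcases Ys_zero_or hx q u N z hz with h | h <;> linarith only [h]

lemma Gz_neg (hx : ∀ i, x i = 0 ∨ 1 ≤ x i) {q : ℕ} {u : List (I)} {N : ℕ} {z : ℝ} (hz : z < 0) :
    Gz s x q u N z = 0 :=
  Gz_notMem s x q u N z fun h => absurd (Ys_nonneg hx h) (not_le.2 hz)

lemma Ys_small {q : ℕ} (u : List (I)) : ∀ (N : ℕ) (z : ℝ), N ≤ pr q → z ∈ Ys x q u N →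
    z = 0 := by
  classical
  induction u with
  | nil =>
    intro N z _ hz
    rwa [Ys_nil, Finset.mem_singleton] at hz
  | cons a u ih =>
    intro N z hN hz
    rw [Ys_cons, Finset.mem_biUnion] at hz
    obtain ⟨m, hm, hz⟩ := hz
    obtain ⟨z', hz', rfl⟩ := Finset.mem_image.1 hz
    rw [Finset.mem_Ico] at hm
    have h1 := ih m z' (by omega) hz'
    have h2 : padicValNat (pr q) m = 0 := by
      refine padicValNat.eq_zero_of_not_dvd fun h => ?_
      have := Nat.le_of_dvd (by omega) h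
      omega
    rw [h1, h2, Nat.cast_zero, zero_mul, add_zero]

lemma Gz_small {q : ℕ} {u : List (I)} {N : ℕ} {z : ℝ} (hN : N ≤ pr q) (hz : z ≠ 0) :
    Gz s x q u N z = 0 :=
  Gz_notMem s x q u N z fun h => hz (Ys_small u N z hN h)

/-! ### sizes -/

section

variable {s} {L : ℕ → ℝ} (hL : Tendsto L atTop atTop) (hs : Lim s x L)
include hL hs

lemma SR_lg (a : I) {m : ℕ} (hm : 1 ≤ m) :
    rho (lg s a m) ∈ SR L (x a * Real.log m) := by
  have hm1 : (1 : ℝ) ≤ m := by exact_mod_cast hm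
  have hm0 : (0 : ℝ) < m := by linarith only [hm1]
  have hlog : 0 ≤ Real.log m := Real.log_nonneg hm1
  unfold lg
  rw [rho_gm, mem_SR]
  intro ε hε
  have h1 := hs a (ε / (Real.log m + 1)) (by positivity)
  filter_upwards [h1, L_nonneg hL] with n hn hL0
  show |((((m : ℚ) ^ (s n a))⁻¹ : ℚ) : ℝ)| ≤ Real.exp (-(x a * Real.log m - ε) * L n)
  push_cast
  rw [abs_of_nonneg (by positivity)]
  rw [show ((m : ℝ) ^ (s n a))⁻¹ = Real.exp (-(s n a : ℝ) * Real.log m) by
    rw [neg_mul, Real.exp_neg, Real.exp_nat_mul, Real.exp_log hm0]]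
  apply Real.exp_le_exp.2
  have h2 := (abs_le.1 hn).1
  have h3 : ε / (Real.log m + 1) * Real.log m ≤ ε := by
    rw [div_mul_eq_mul_div, div_le_iff₀ (by positivity)]
    nlinarith only [hε, hlog]
  have h4 : x a * L n - ε / (Real.log m + 1) * L n ≤ s n a := by linarith only [h2]
  have h5 := mul_le_mul_of_nonneg_right h4 hlog
  have h6 := mul_le_mul_of_nonneg_right h3 hL0
  nlinarith only [h5, h6]

lemma SR_lg_val (hx : ∀ i, x i = 0 ∨ 1 ≤ x i) (a : I) {m : ℕ} (hm : 1 ≤ m) (q : ℕ) :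
    rho (lg s a m) ∈ SR L (padicValNat (pr q) m * x a * Real.log (pr q)) := by
  refine SR_anti hL ?_ (SR_lg hL hs a hm)
  have h1 : (pr q) ^ padicValNat (pr q) m ≤ m := Nat.le_of_dvd hm pow_padicValNat_dvd
  have h2 : (padicValNat (pr q) m : ℝ) * Real.log (pr q) ≤ Real.log m := by
    rw [← Real.log_pow]
    refine Real.log_le_log ?_ (by exact_mod_cast h1)
    have := (pr_prime q).pos
    positivity
  have h3 := mul_le_mul_of_nonneg_left h2 (x_nonneg hx a)
  linarith only [h3]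

lemma SR_lg_zero (hx : ∀ i, x i = 0 ∨ 1 ≤ x i) (a : I) {m : ℕ} (hm : 1 ≤ m) :
    rho (lg s a m) ∈ SR L 0 := by
  refine SR_anti hL ?_ (SR_lg hL hs a hm)
  exact mul_nonneg (x_nonneg hx a) (Real.log_nonneg (by exact_mod_cast hm))

lemma SR_Gq (hx : ∀ i, x i = 0 ∨ 1 ≤ x i) (u : List (I)) : ∀ N : ℕ, rho (Gq s u N) ∈ SR L 0 := by
  induction u with
  | nil =>
    intro N
    rw [Gq_nil, map_one]
    exact (Un.one hL).2.1
  | cons a u ih =>
    intro N
    rw [Gq_cons, map_sum]
    refine SR_sum hL _ _ fun m hm => ?_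
    rw [Finset.mem_Ico] at hm
    rw [map_mul]
    have := SR_mul hL (SR_lg_zero hL hs hx a hm.1) (ih m)
    rwa [add_zero] at this

lemma SR_Gz (hx : ∀ i, x i = 0 ∨ 1 ≤ x i) (q : ℕ) (u : List (I)) : ∀ (N : ℕ) (z : ℝ),
    rho (Gz s x q u N z) ∈ SR L (z * Real.log (pr q)) := by
  classical
  induction u with
  | nil =>
    intro N z
    rw [Gz_nil]
    split_ifs with h
    · rw [map_one, h, zero_mul]
      exact (Un.one hL).2.1
    · rw [map_zero]
      exact SR_zero _
  | cons a u ih =>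
    intro N z
    rw [Gz_cons, map_sum]
    refine SR_sum hL _ _ fun m hm => ?_
    rw [Finset.mem_Ico] at hm
    rw [map_mul]
    have := SR_mul hL (SR_lg_val hL hs hx a hm.1 q) (ih m (z - padicValNat (pr q) m * x a))
    refine SR_anti hL (le_of_eq ?_) this
    ring

lemma SR_Gq_sub (hx : ∀ i, x i = 0 ∨ 1 ≤ x i) (q : ℕ) (u : List (I)) (N : ℕ) :
    rho (Gq s u N - Gz s x q u N 0) ∈ SR L (Real.log (pr q)) := by
  classical
  have h1 := Gz_sum s x q u N (insert 0 (Ys x q u N)) (Finset.subset_insert _ _)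
  rw [← Finset.add_sum_erase _ _ (Finset.mem_insert_self 0 (Ys x q u N))] at h1
  rw [← h1, add_sub_cancel_left, map_sum]
  refine SR_sum hL _ _ fun z hz => ?_
  rw [Finset.mem_erase, Finset.mem_insert] at hz
  have h2 := (hz.2.resolve_left hz.1)
  have h3 := (Ys_zero_or hx q u N z h2).resolve_left hz.1
  refine SR_anti hL ?_ (SR_Gz hL hs hx q u N z)
  have h5 : 0 < Real.log (pr q) := Real.log_pos (by exact_mod_cast (pr_prime q).one_lt)
  nlinarith only [h3, h5]

end

/-! ### the parts do not contain the prime -/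

section

variable {s} {L : ℕ → ℝ} {hL : Tendsto L atTop atTop} {F : IntermediateField ℚ ℝ}

lemma lg_const (hs : Lim s x L) (a : I) (q : ℕ) :
    lg s a (pr q) / ch1 hL q (-x a) ∈ KK L hL := ug_const hL hs q a

lemma NQ_lg_ne (hs : Lim s x L) (a : I) {q q' m : ℕ} (hne : q ≠ q') (hm : q' < m) :
    NQ hL F q m (rho (lg s a (pr q'))) := by
  rw [lg_pr, ug_eq hL (x := x), map_mul, ← ch1_eq hL hm]
  exact NQ.single ⟨_, rho_mem_KA hL F ⟨_, ug_const hL hs q' a⟩⟩ _ (by
    rw [ex_single, if_neg hne])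

lemma NQ_lg (hs : Lim s x L) (a : I) {q m M : ℕ} (hm : 1 ≤ m) (hM : m ≤ M) (hq : q < M) :
    NQ hL F q M (rho (lg s a m / ch1 hL q (-(padicValNat (pr q) m * x a)))) := by
  classical
  rw [lg_primes s a hm hM, ← Finset.mul_prod_erase _ _ (Finset.mem_range.2 hq)]
  have h1 : ch1 hL q (-(padicValNat (pr q) m * x a)) =
      ch1 hL q (-x a) ^ padicValNat (pr q) m := by
    rw [ch1_pow]
    congr 1
    ring
  rw [h1, mul_div_right_comm, ← div_pow, map_mul, map_pow]
  refine NQ.mul (NQ.pow (NQ.coe ⟨_, rho_mem_KA hL F ⟨_, lg_const hs a q⟩⟩) _) ?_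
  rw [map_prod]
  refine NQ.prod _ _ fun q' hq' => ?_
  rw [Finset.mem_erase, Finset.mem_range] at hq'
  rw [map_pow]
  exact (NQ_lg_ne hs a (Ne.symm hq'.1) hq'.2).pow _

lemma NQ_Gz (hs : Lim s x L) {q M : ℕ} (hq : q < M) (u : List (I)) : ∀ (N : ℕ) (z : ℝ),
    N ≤ M + 1 → NQ hL F q M (rho (Gz s x q u N z / ch1 hL q (-z))) := by
  classical
  induction u with
  | nil =>
    intro N z _
    rw [Gz_nil]
    split_ifs with h
    · rw [h, neg_zero, ch1_zero, div_one, map_one]
      exact NQ.one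
    · rw [zero_div, map_zero]
      exact NQ.zero
  | cons a u ih =>
    intro N z hN
    rw [Gz_cons, Finset.sum_div, map_sum]
    refine NQ.sum _ _ fun m hm => ?_
    rw [Finset.mem_Ico] at hm
    have h1 : ch1 hL q (-z) = ch1 hL q (-(padicValNat (pr q) m * x a)) *
        ch1 hL q (-(z - padicValNat (pr q) m * x a)) := by
      rw [← ch1_add]
      congr 1
      ring
    rw [h1, mul_div_mul_comm, map_mul]
    exact (NQ_lg hs a hm.1 (by omega) hq).mul (ih m _ (by omega))

lemma SF_Gq (hs : Lim s x L) (u : List (I)) (N : ℕ) : rho (Gq s u N) ∈ SF hL F := by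
  classical
  have h1 := Gz_sum s x N u N (Ys x N u N) (Finset.Subset.refl _)
  rw [← h1, map_sum]
  refine (SF hL F).sum_mem fun z hz => ?_
  have h2 := Ys_small (x := x) (q := N) u N z (by have := pr_ge N; omega) hz
  have h3 := NQ_Gz (F := F) (hL := hL) hs (q := N) (M := N + 1) (Nat.lt_succ_self N) u N z (by omega)
  rw [h2, neg_zero, ch1_zero, div_one] at h3
  rw [h2]
  exact SF_of_NQ h3

/-- **the part of a small sum at one prime is small** -/
lemma part (hF : FiniteDimensional ℚ F) (hs : Lim s x L) {W : Type} [Fintype W]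
    (w : W → List (I)) (c : W → HR) {q M N : ℕ} (hq : q < M) (hN : N ≤ M + 1)
    (hc : ∀ v, NQ hL F q M (c v)) {E : ℝ} (h : ∑ v, c v * rho (Gq s (w v) N) ∈ SR L E) (z : ℝ) :
    ∑ v, c v * rho (Gz s x q (w v) N z) ∈ SR L E := by
  classical
  set Y : Finset ℝ := Finset.univ.biUnion fun v => Ys x q (w v) N with hY
  by_cases hz : z ∈ Y
  · set R : ℝ → HR := fun z => ∑ v, c v * rho (Gz s x q (w v) N z / ch1 hL q (-z)) with hR
    have h1 : ∀ z, rho (ch1 hL q (-z)) * R z = ∑ v, c v * rho (Gz s x q (w v) N z) := by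
      intro z
      rw [hR]
      simp only
      rw [Finset.mul_sum]
      refine Finset.sum_congr rfl fun v _ => ?_
      rw [mul_left_comm, ← map_mul, mul_div_cancel₀ _ (ch1_ne hL q (-z))]
    have h2 : ∑ z ∈ Y, rho (ch (bs M) hL (Pi.single ⟨q, hq⟩ (-z))) * R z ∈ SR L E := by
      have e1 : ∑ z ∈ Y, rho (ch (bs M) hL (Pi.single ⟨q, hq⟩ (-z))) * R z =
          ∑ v, c v * rho (Gq s (w v) N) := by
        have e2 : ∀ z ∈ Y, rho (ch (bs M) hL (Pi.single ⟨q, hq⟩ (-z))) * R z =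
            ∑ v, c v * rho (Gz s x q (w v) N z) := by
          intro z _
          rw [ch1_eq, h1]
        rw [Finset.sum_congr rfl e2, Finset.sum_comm]
        refine Finset.sum_congr rfl fun v _ => ?_
        rw [← Finset.mul_sum, ← map_sum, Gz_sum s x q (w v) N Y
          (Finset.subset_biUnion_of_mem (fun v => Ys x q (w v) N) (Finset.mem_univ v))]
      rw [e1]
      exact h
    have h3 := split hF hq Y R (fun z _ => NQ.sum _ _ fun v _ => (hc v).mul
      (NQ_Gz hs hq (w v) N z hN)) h2 z hz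
    have h4 := SR_mul hL (ch1_mem (hL := hL) q z) h3
    rw [h1] at h4
    refine SR_anti hL (le_of_eq ?_) h4
    ring
  · have h1 : ∀ v, Gz s x q (w v) N z = 0 := fun v => Gz_notMem s x q (w v) N z fun h2 =>
      hz (Finset.mem_biUnion.2 ⟨v, Finset.mem_univ v, h2⟩)
    simp only [h1, map_zero, mul_zero, Finset.sum_const_zero]
    exact SR_zero _

end

end Pool.Agent.Y760.ZF
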