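import Mathlib

/-!
# Zeros of sums of products of powers of linear forms: a uniform bound (helper760)
-/

set_option autoImplicit false

namespace Pool.Agent.Y760.ZF

open Polynomial

/-- Rolle -/
lemma rolle {F : ℝ → ℝ} (hF : ∀ x, 0 < x → DifferentiableAt ℝ F x) (S : Finset ℝ)
    (hS : ∀ x ∈ S, 0 < x ∧ F x = 0) :
    ∃ S' : Finset ℝ, (∀ x ∈ S', 0 < x ∧ deriv F x = 0) ∧ S.card ≤ S'.card + 1 := by
  classical
  rcases Nat.eq_zero_or_pos S.card with h0 | h0
  · exact ⟨∅, by simp, by omega⟩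
  obtain ⟨k, hk⟩ : ∃ k, S.card = k + 1 := ⟨S.card - 1, by omega⟩
  set u : Fin (k + 1) ↪o ℝ := S.orderEmbOfFin hk with hu
  have huS : ∀ i, u i ∈ S := fun i => S.orderEmbOfFin_mem hk i
  have h1 : ∀ i : Fin k, ∃ y, u i.castSucc < y ∧ y < u i.succ ∧ deriv F y = 0 := by
    intro i
    have h2 : u i.castSucc < u i.succ := u.strictMono (Fin.castSucc_lt_succ)
    have hp := (hS _ (huS i.castSucc)).1
    obtain ⟨y, hy, hy'⟩ := exists_deriv_eq_zero (f := F) h2
      (fun x hx => ((hF x (lt_of_lt_of_le hp hx.1)).continuousAt).continuousWithinAt)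
      (by rw [(hS _ (huS i.castSucc)).2, (hS _ (huS i.succ)).2])
    exact ⟨y, hy.1, hy.2, hy'⟩
  choose y hy1 hy2 hy3 using h1
  have hmono : StrictMono y := by
    intro i j hij
    have h2 : i.succ ≤ j.castSucc := Fin.succ_le_castSucc_iff.2 hij
    exact (hy2 i).trans_le ((u.monotone h2).trans (hy1 j).le)
  refine ⟨Finset.univ.image y, ?_, ?_⟩
  · intro x hx
    obtain ⟨i, _, rfl⟩ := Finset.mem_image.1 hx
    exact ⟨(hS _ (huS i.castSucc)).1.trans (hy1 i), hy3 i⟩
  · rw [Finset.card_image_of_injective _ hmono.injective, Finset.card_univ, Fintype.card_fin, hk]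

/-- products of powers of linear forms -/
noncomputable def Mo (A : ℕ) (e : ℕ → ℕ) : ℝ[X] := ∏ a ∈ Finset.range A, (X + C (a : ℝ)) ^ (e a)

lemma Mo_add (A : ℕ) (e e' : ℕ → ℕ) : Mo A (fun a => e a + e' a) = Mo A e * Mo A e' := by
  unfold Mo
  rw [← Finset.prod_mul_distrib]
  exact Finset.prod_congr rfl fun a _ => pow_add _ _ _

lemma Mo_one_pos (A : ℕ) (e : ℕ → ℕ) {x : ℝ} (hx : 0 < x) : 0 < (Mo A e).eval x := by
  unfold Mo
  rw [eval_prod]
  refine Finset.prod_pos fun a _ => ?_
  rw [eval_pow, eval_add, eval_X, eval_C]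
  positivity

/-- the product of the linear forms -/
noncomputable def Qp (A : ℕ) : ℝ[X] := Mo A fun _ => 1

/-- the logarithmic derivative -/
noncomputable def Rp (A : ℕ) (e : ℕ → ℕ) : ℝ[X] :=
  ∑ a ∈ Finset.range A, C (e a : ℝ) * ∏ b ∈ (Finset.range A).erase a, (X + C (b : ℝ))

lemma Mo_der (A : ℕ) (e : ℕ → ℕ) : Qp A * derivative (Mo A e) = Mo A e * Rp A e := by
  unfold Qp Mo Rp
  rw [derivative_prod_finset, Finset.mul_sum, Finset.mul_sum]
  refine Finset.sum_congr rfl fun a ha => ?_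
  rw [← Finset.mul_prod_erase (Finset.range A) (fun b => (X + C (b : ℝ)) ^ 1) ha,
    ← Finset.mul_prod_erase (Finset.range A) (fun b => (X + C (b : ℝ)) ^ (e b)) ha]
  simp only [pow_one]
  rw [derivative_pow, derivative_add, derivative_X, derivative_C, add_zero, mul_one]
  rcases Nat.eq_zero_or_pos (e a) with h | h
  · rw [h]
    simp
  · obtain ⟨m, hm⟩ : ∃ m, e a = m + 1 := ⟨e a - 1, by omega⟩
    rw [hm, Nat.add_sub_cancel, pow_succ]
    ring

lemma Qp_natDegree (A : ℕ) : (Qp A).natDegree ≤ A := by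
  unfold Qp Mo
  refine (natDegree_prod_le _ _).trans ?_
  calc ∑ i ∈ Finset.range A, ((X + C (i : ℝ)) ^ 1 : ℝ[X]).natDegree ≤
      ∑ _i ∈ Finset.range A, 1 := by
        refine Finset.sum_le_sum fun i _ => ?_
        rw [pow_one, natDegree_X_add_C]
    _ = A := by simp

lemma Rp_natDegree (A : ℕ) (e : ℕ → ℕ) : (Rp A e).natDegree ≤ A := by
  unfold Rp
  refine natDegree_sum_le_of_forall_le _ _ fun a _ => ?_
  refine (natDegree_C_mul_le _ _).trans ((natDegree_prod_le _ _).trans ?_)
  calc ∑ i ∈ (Finset.range A).erase a, (X + C (i : ℝ) : ℝ[X]).natDegree ≤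
      ∑ _i ∈ (Finset.range A).erase a, 1 := by
        refine Finset.sum_le_sum fun i _ => ?_
        rw [natDegree_X_add_C]
    _ = ((Finset.range A).erase a).card := by simp
    _ ≤ A := (Finset.card_erase_le).trans (by rw [Finset.card_range])

/-- the Wronskian with a product of powers -/
noncomputable def Wr (A : ℕ) (e0 : ℕ → ℕ) (f : ℝ[X]) : ℝ[X] :=
  Qp A * (derivative f * Mo A e0 - f * derivative (Mo A e0))

lemma Wr_add (A : ℕ) (e0 : ℕ → ℕ) (f g : ℝ[X]) : Wr A e0 (f + g) = Wr A e0 f + Wr A e0 g := by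
  unfold Wr
  rw [derivative_add]
  ring

lemma Wr_zero (A : ℕ) (e0 : ℕ → ℕ) : Wr A e0 0 = 0 := by
  unfold Wr
  rw [derivative_zero]
  ring

lemma Wr_term (A : ℕ) (e0 : ℕ → ℕ) (P : ℝ[X]) (e : ℕ → ℕ) :
    Wr A e0 (P * Mo A e) =
      (Qp A * derivative P + P * (Rp A e - Rp A e0)) * Mo A (fun a => e a + e0 a) := by
  unfold Wr
  rw [derivative_mul, Mo_add]
  have h1 := Mo_der A e
  have h2 := Mo_der A e0
  linear_combination (P * Mo A e0) * h1 - (P * Mo A e) * h2

lemma Wr_self (A : ℕ) (e0 : ℕ → ℕ) (P : ℝ[X]) :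
    Wr A e0 (P * Mo A e0) = derivative P * Mo A (fun a => (e0 a + e0 a) + 1) := by
  rw [Wr_term, sub_self, mul_zero, add_zero]
  have h1 : Mo A (fun a => (e0 a + e0 a) + 1) = Mo A (fun a => e0 a + e0 a) * Qp A := by
    unfold Qp
    rw [← Mo_add]
  rw [h1]
  ring

/-- one step -/
lemma wr_step (A : ℕ) (e0 : ℕ → ℕ) {f : ℝ[X]} (hf : f ≠ 0) {Z : ℕ}
    (hZ : Wr A e0 f ≠ 0 → ∀ S : Finset ℝ, (∀ x ∈ S, 0 < x ∧ (Wr A e0 f).eval x = 0) → S.card ≤ Z)
    (S : Finset ℝ) (hS : ∀ x ∈ S, 0 < x ∧ f.eval x = 0) : S.card ≤ Z + 1 := by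
  set F : ℝ → ℝ := fun x => f.eval x / (Mo A e0).eval x with hF
  have hg : ∀ x : ℝ, 0 < x → (Mo A e0).eval x ≠ 0 := fun x hx => (Mo_one_pos A e0 hx).ne'
  have hdiff : ∀ x, 0 < x → HasDerivAt F
      (((derivative f).eval x * (Mo A e0).eval x - f.eval x * (derivative (Mo A e0)).eval x) /
        (Mo A e0).eval x ^ 2) x := fun x hx =>
    (f.hasDerivAt x).div ((Mo A e0).hasDerivAt x) (hg x hx)
  have hder : ∀ x, 0 < x → (deriv F x = 0 ↔ (Wr A e0 f).eval x = 0) := by
    intro x hx
    rw [(hdiff x hx).deriv]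
    unfold Wr
    rw [eval_mul, eval_sub, eval_mul, eval_mul]
    have h1 : (Qp A).eval x ≠ 0 := (Mo_one_pos A _ hx).ne'
    constructor
    · intro h
      rw [div_eq_zero_iff] at h
      rcases h with h | h
      · rw [h, mul_zero]
      · exact absurd h (pow_ne_zero 2 (hg x hx))
    · intro h
      rw [(mul_eq_zero.1 h).resolve_left h1, zero_div]
  obtain ⟨S', hS', hcard⟩ := rolle (F := F) (fun x hx => (hdiff x hx).differentiableAt) S
    (fun x hx => ⟨(hS x hx).1, by rw [hF]; simp only; rw [(hS x hx).2, zero_div]⟩)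
  by_cases hW : Wr A e0 f = 0
  · -- the quotient is constant
    rcases S.eq_empty_or_nonempty with h | ⟨x0, hx0⟩
    · rw [h, Finset.card_empty]
      omega
    exfalso
    apply hf
    have h1 : ∀ x ∈ Set.Ioi (0 : ℝ), F x = 0 := by
      intro x hx
      have h2 : F x = F x0 := by
        refine (convex_Ioi (0 : ℝ)).is_const_of_fderivWithin_eq_zero (𝕜 := ℝ) ?_ ?_ hx
          (hS x0 hx0).1
        · intro z hz
          exact (hdiff z hz).differentiableAt.differentiableWithinAt
        · intro z hz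
          have h3 := (hder z hz).2 (by rw [hW, eval_zero])
          rw [fderivWithin_of_isOpen isOpen_Ioi hz]
          ext
          simp only [zero_apply]
          exact h3
      rw [h2, hF]
      simp only
      rw [(hS x0 hx0).2, zero_div]
    have h2 : Set.Infinite {x : ℝ | f.IsRoot x} := by
      refine (Set.Ioi_infinite (0 : ℝ)).mono fun x hx => ?_
      have h3 := h1 x hx
      rw [hF] at h3
      simp only at h3
      exact (div_eq_zero_iff.1 h3).resolve_right (hg x hx)
    exact eq_zero_of_infinite_isRoot f h2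
  · have h1 := hZ hW S' fun x hx => ⟨(hS' x hx).1, (hder x (hS' x hx).1).1 (hS' x hx).2⟩
    omega

/-- sums of products of polynomials of bounded degree with products of powers of linear forms -/
noncomputable def ls (A : ℕ) (l : List (ℝ[X] × (ℕ → ℕ))) : ℝ[X] :=
  (l.map fun p => p.1 * Mo A p.2).sum

lemma Wr_ls (A : ℕ) (e0 : ℕ → ℕ) (l : List (ℝ[X] × (ℕ → ℕ))) :
    Wr A e0 (ls A l) = ls A (l.map fun p =>
      (Qp A * derivative p.1 + p.1 * (Rp A p.2 - Rp A e0), fun a => p.2 a + e0 a)) := by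
  unfold ls
  induction l with
  | nil =>
    simp only [List.map_nil, List.sum_nil]
    exact Wr_zero A e0
  | cons p l ih =>
    simp only [List.map_cons, List.sum_cons]
    rw [Wr_add, ih, Wr_term]

/-- **the zero estimate for sums of products of powers** -/
theorem zb (A T : ℕ) : ∀ D : ℕ, ∃ Z : ℕ, ∀ l : List (ℝ[X] × (ℕ → ℕ)), l.length ≤ T →
    (∀ p ∈ l, p.1.natDegree ≤ D) → ls A l ≠ 0 → ∀ S : Finset ℝ,
      (∀ x ∈ S, 0 < x ∧ (ls A l).eval x = 0) → S.card ≤ Z := by
  induction T with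
  | zero =>
    intro D
    refine ⟨0, fun l hl _ h0 => ?_⟩
    exfalso
    apply h0
    rw [List.length_eq_zero_iff.1 (Nat.le_zero.1 hl)]
    rfl
  | succ T ih =>
    have hin : ∀ D0 D : ℕ, ∃ Z : ℕ, ∀ (P0 : ℝ[X]) (e0 : ℕ → ℕ) (l : List (ℝ[X] × (ℕ → ℕ))),
        l.length ≤ T → P0.degree < D0 → (∀ p ∈ l, p.1.natDegree ≤ D) →
        P0 * Mo A e0 + ls A l ≠ 0 → ∀ S : Finset ℝ,
        (∀ x ∈ S, 0 < x ∧ (P0 * Mo A e0 + ls A l).eval x = 0) → S.card ≤ Z := by
      intro D0
      induction D0 with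
      | zero =>
        intro D
        obtain ⟨Z, hZ⟩ := ih D
        refine ⟨Z, fun P0 e0 l hl hP0 hD h0 S hS => ?_⟩
        have h1 : P0 = 0 := by
          rw [Nat.cast_zero] at hP0
          exact degree_eq_bot.1 (Nat.WithBot.lt_zero_iff.1 hP0)
        rw [h1, zero_mul, zero_add] at h0 hS
        exact hZ l hl hD h0 S hS
      | succ D0 ihD =>
        intro D
        obtain ⟨Z, hZ⟩ := ihD (D + A)
        refine ⟨Z + 1, fun P0 e0 l hl hP0 hD h0 S hS => ?_⟩
        refine wr_step A e0 h0 (Z := Z) (fun hW S' hS' => ?_) S hS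
        have h1 : Wr A e0 (P0 * Mo A e0 + ls A l) =
            derivative P0 * Mo A (fun a => (e0 a + e0 a) + 1) + ls A (l.map fun p =>
              (Qp A * derivative p.1 + p.1 * (Rp A p.2 - Rp A e0), fun a => p.2 a + e0 a)) := by
          rw [Wr_add, Wr_self, Wr_ls]
        rw [h1] at hW hS'
        refine hZ _ _ _ (by rw [List.length_map]; exact hl) ?_ ?_ hW S' hS'
        · by_cases h2 : P0 = 0
          · rw [h2, derivative_zero, degree_zero]
            exact WithBot.bot_lt_coe _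
          · have h3 := degree_derivative_lt h2
            have h4 : P0.degree ≤ (D0 : WithBot ℕ) := by
              rw [degree_eq_natDegree h2] at hP0 ⊢
              have h5 : P0.natDegree < D0 + 1 := by exact_mod_cast hP0
              exact_mod_cast Nat.lt_succ_iff.1 h5
            exact h3.trans_le h4
        · intro p hp
          obtain ⟨p', hp', rfl⟩ := List.mem_map.1 hp
          simp only
          have h2 := hD p' hp'
          refine (natDegree_add_le _ _).trans (max_le ?_ ?_)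
          · refine natDegree_mul_le.trans ?_
            have h3 := Qp_natDegree A
            have h4 := natDegree_derivative_le p'.1
            omega
          · refine natDegree_mul_le.trans ?_
            have h3 := (natDegree_sub_le (Rp A p'.2) (Rp A e0)).trans
              (max_le (Rp_natDegree A p'.2) (Rp_natDegree A e0))
            omega
    intro D
    obtain ⟨Z1, hZ1⟩ := ih D
    obtain ⟨Z2, hZ2⟩ := hin (D + 1) D
    refine ⟨Z1 + Z2, fun l hl hD h0 S hS => ?_⟩
    cases l with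
    | nil =>
      exfalso
      apply h0
      rfl
    | cons p l =>
      have h1 : ls A (p :: l) = p.1 * Mo A p.2 + ls A l := by
        unfold ls
        rw [List.map_cons, List.sum_cons]
      rw [h1] at h0 hS
      rw [List.length_cons] at hl
      have h2 := hZ2 p.1 p.2 l (by omega) (by
        have h3 := hD p List.mem_cons_self
        refine lt_of_le_of_lt degree_le_natDegree ?_
        exact_mod_cast Nat.lt_succ_of_le h3) (fun p' hp' => hD p' (List.mem_cons_of_mem _ hp')) h0
        S hS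
      omega

end Pool.Agent.Y760.ZF
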