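import Pool.Agent.Y760.ZF.Wa
import Pool.Agent.Y760.ZG.Env

/-!
# A uniform zero estimate for combinations of harmonic sums with arbitrary exponents (helper760)
-/

set_option autoImplicit false

namespace Pool.Agent.Y760.ZF

open Polynomial
open Pool.Agent.Y760.ZG (hr hr_nil hr_cons cl hr_cl)
open Pool.Agent.TH507.HS (hs)

/-- independence over the real numbers -/
lemma ind_real (Λ : Finset (List ℕ+)) (h K0 : ℕ) (c : Fin (h + 1) × Λ → ℝ)
    (hc : ∀ k : ℕ, K0 ≤ k →
      ∑ x : Fin (h + 1) × Λ, c x * (hr (cl x.2.1) k / (k : ℝ) ^ (x.1 : ℕ)) = 0) : c = 0 := by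
  funext x0
  refine (Module.forall_dual_apply_eq_zero_iff ℚ (c x0)).1 fun φ => ?_
  have h1 := Pool.Agent.TH507.ZS.hs_ind Λ h 1 K0 le_rfl (fun x => φ (c x)) (fun q hq _ => by
    have h2 := congrArg φ (hc q hq)
    rw [map_zero, map_sum] at h2
    rw [← h2]
    refine Finset.sum_congr rfl fun x _ => ?_
    have e1 : c x * (hr (cl x.2.1) q / (q : ℝ) ^ (x.1 : ℕ)) =
        (hs x.2.1 q / (q : ℚ) ^ (x.1 : ℕ)) • c x := by
      rw [Rat.smul_def, hr_cl]
      push_cast
      ring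
    rw [e1, map_smul, smul_eq_mul, mul_comm])
  exact congrFun h1 x0

/-- independence over the polynomials -/
lemma ind_poly (Λ : Finset (List ℕ+)) (P : List ℕ+ → ℝ[X]) (K0 : ℕ)
    (hc : ∀ k : ℕ, K0 ≤ k → ∑ β ∈ Λ, (P β).eval (k : ℝ) * hr (cl β) k = 0) :
    ∀ β ∈ Λ, P β = 0 := by
  classical
  set D : ℕ := ∑ β ∈ Λ, (P β).natDegree with hD
  have hdeg : ∀ β ∈ Λ, (P β).natDegree < D + 1 := fun β hβ =>
    Nat.lt_succ_of_le (Finset.single_le_sum (f := fun β => (P β).natDegree)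
      (fun _ _ => Nat.zero_le _) hβ)
  have h1 := ind_real Λ D (K0 + 1) (fun x => (P x.2.1).coeff (D - x.1)) (fun k hk => by
    have hk0 : (k : ℝ) ≠ 0 := by
      have : 0 < k := by omega
      exact_mod_cast this.ne'
    have h2 := hc k (by omega)
    rw [← Finset.sum_coe_sort] at h2
    have h3 : ∑ x : Fin (D + 1) × Λ, (P x.2.1).coeff (D - x.1) *
        (hr (cl x.2.1) k / (k : ℝ) ^ (x.1 : ℕ)) =
        (∑ β : Λ, (P β.1).eval (k : ℝ) * hr (cl β.1) k) * ((k : ℝ) ^ D)⁻¹ := by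
      rw [Fintype.sum_prod_type, Finset.sum_comm, Finset.sum_mul]
      refine Finset.sum_congr rfl fun β _ => ?_
      rw [eval_eq_sum_range' (hdeg β.1 β.2), Finset.sum_mul, Finset.sum_mul,
        Fin.sum_univ_eq_sum_range (fun i => (P β.1).coeff (D - i) *
          (hr (cl β.1) k / (k : ℝ) ^ i)) (D + 1),
        ← Finset.sum_range_reflect]
      refine Finset.sum_congr rfl fun i hi => ?_
      rw [Finset.mem_range] at hi
      have h4 : D - (D + 1 - 1 - i) = i := by omega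
      have h5 : D + 1 - 1 - i = D - i := by omega
      rw [h4, h5]
      have h6 : (k : ℝ) ^ D = (k : ℝ) ^ i * (k : ℝ) ^ (D - i) := by
        rw [← pow_add]
        congr 1
        omega
      rw [h6]
      field_simp
    rw [h3, h2, zero_mul])
  intro β hβ
  ext i
  rw [coeff_zero]
  by_cases hi : i ≤ D
  · have h2 := congrFun h1 (⟨D - i, by omega⟩, ⟨β, hβ⟩)
    simp only [Pi.zero_apply] at h2
    have h3 : D - (D - i) = i := by omega
    rw [h3] at h2
    exact h2
  · exact coeff_eq_zero_of_natDegree_lt (by have := hdeg β hβ; omega)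

/-- the first letter -/
def hv : List ℕ+ → ℕ
  | [] => 0
  | t :: _ => t

lemma hr_succ {β : List ℕ+} (hβ : β ≠ []) {k : ℕ} (hk : 1 ≤ k) :
    hr (cl β) (k + 1) = hr (cl β) k + hr (cl β.tail) k / (k : ℝ) ^ hv β := by
  cases β with
  | nil => exact absurd rfl hβ
  | cons t β =>
    rw [cl, hr_cons, hr_cons, Finset.sum_Ico_succ_top hk]
    rfl

/-- the combination -/
noncomputable def Fc (Λ : Finset (List ℕ+)) (φ : List ℕ+ → ℝ[X]) (k : ℕ) : ℝ :=
  ∑ β ∈ Λ, (φ β).eval (k : ℝ) * hr (cl β) k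

open Classical in
/-- the new coefficients -/
noncomputable def nc (Λ : Finset (List ℕ+)) (φ : List ℕ+ → ℝ[X]) (τ : ℕ) (β0 γ : List ℕ+) :
    ℝ[X] :=
  X ^ τ * (φ β0 * (φ γ).comp (X + C 1) - (φ β0).comp (X + C 1) * φ γ) +
    ∑ β ∈ Λ.filter (fun β => β ≠ [] ∧ β.tail = γ),
      X ^ (τ - hv β) * (φ β0 * (φ β).comp (X + C 1))

lemma nc_eval (Λ : Finset (List ℕ+)) (hΛ : ∀ t β, (t :: β) ∈ Λ → β ∈ Λ)
    (φ : List ℕ+ → ℝ[X]) {τ : ℕ} (hτ : ∀ β ∈ Λ, hv β ≤ τ) (β0 : List ℕ+) {k : ℕ} (hk : 1 ≤ k) :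
    ∑ γ ∈ Λ, (nc Λ φ τ β0 γ).eval (k : ℝ) * hr (cl γ) k =
      (k : ℝ) ^ τ * ((φ β0).eval (k : ℝ) * Fc Λ φ (k + 1) -
        (φ β0).eval ((k + 1 : ℕ) : ℝ) * Fc Λ φ k) := by
  classical
  have hk0 : (k : ℝ) ≠ 0 := by
    have : 0 < k := by omega
    exact_mod_cast this.ne'
  have hcomp : ∀ β, ((φ β).comp (X + C 1)).eval (k : ℝ) = (φ β).eval ((k + 1 : ℕ) : ℝ) := by
    intro β
    rw [eval_comp, eval_add, eval_X, eval_C]
    push_cast
    rfl
  have h1 : Fc Λ φ (k + 1) = ∑ β ∈ Λ, (φ β).eval ((k + 1 : ℕ) : ℝ) * hr (cl β) k +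
      ∑ γ ∈ Λ, (∑ β ∈ Λ.filter (fun β => β ≠ [] ∧ β.tail = γ),
        (φ β).eval ((k + 1 : ℕ) : ℝ) / (k : ℝ) ^ hv β) * hr (cl γ) k := by
    have e1 : ∀ β ∈ Λ, (φ β).eval ((k + 1 : ℕ) : ℝ) * hr (cl β) (k + 1) =
        (φ β).eval ((k + 1 : ℕ) : ℝ) * hr (cl β) k +
          if β ≠ [] then (φ β).eval ((k + 1 : ℕ) : ℝ) / (k : ℝ) ^ hv β * hr (cl β.tail) k
          else 0 := by
      intro β _
      by_cases hβ : β = []
      · rw [if_neg (by simpa using hβ), add_zero, hβ]
        show _ * hr [] (k + 1) = _ * hr [] k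
        rw [hr_nil, hr_nil]
      · rw [if_pos hβ, hr_succ hβ hk]
        ring
    unfold Fc
    rw [Finset.sum_congr rfl e1, Finset.sum_add_distrib]
    congr 1
    rw [← Finset.sum_filter]
    have e2 : ∀ γ ∈ Λ, (∑ β ∈ Λ.filter (fun β => β ≠ [] ∧ β.tail = γ),
        (φ β).eval ((k + 1 : ℕ) : ℝ) / (k : ℝ) ^ hv β) * hr (cl γ) k =
        ∑ β ∈ (Λ.filter (fun β => β ≠ [])).filter (fun β => β.tail = γ),
          (φ β).eval ((k + 1 : ℕ) : ℝ) / (k : ℝ) ^ hv β * hr (cl β.tail) k := by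
      intro γ _
      rw [Finset.filter_filter, Finset.sum_mul]
      refine Finset.sum_congr rfl fun β hβ => ?_
      rw [(Finset.mem_filter.1 hβ).2.2]
    rw [Finset.sum_congr rfl e2]
    symm
    refine Finset.sum_fiberwise_of_maps_to (fun β hβ => ?_) _
    rw [Finset.mem_filter] at hβ
    obtain ⟨t, β', rfl⟩ := List.exists_cons_of_ne_nil hβ.2
    exact hΛ t β' hβ.1
  have h2 : ∀ γ ∈ Λ, (nc Λ φ τ β0 γ).eval (k : ℝ) * hr (cl γ) k =
      (k : ℝ) ^ τ * ((φ β0).eval (k : ℝ) * ((φ γ).eval ((k + 1 : ℕ) : ℝ) * hr (cl γ) k +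
        (∑ β ∈ Λ.filter (fun β => β ≠ [] ∧ β.tail = γ),
          (φ β).eval ((k + 1 : ℕ) : ℝ) / (k : ℝ) ^ hv β) * hr (cl γ) k) -
        (φ β0).eval ((k + 1 : ℕ) : ℝ) * ((φ γ).eval (k : ℝ) * hr (cl γ) k)) := by
    intro γ _
    unfold nc
    rw [eval_add, eval_mul, eval_sub, eval_mul, eval_mul, eval_pow, eval_X, hcomp, hcomp,
      eval_finset_sum]
    have e1 : ∑ β ∈ Λ.filter (fun β => β ≠ [] ∧ β.tail = γ),
        (X ^ (τ - hv β) * (φ β0 * (φ β).comp (X + C 1))).eval (k : ℝ) =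
        (k : ℝ) ^ τ * (φ β0).eval (k : ℝ) * ∑ β ∈ Λ.filter (fun β => β ≠ [] ∧ β.tail = γ),
          (φ β).eval ((k + 1 : ℕ) : ℝ) / (k : ℝ) ^ hv β := by
      rw [Finset.mul_sum]
      refine Finset.sum_congr rfl fun β hβ => ?_
      rw [Finset.mem_filter] at hβ
      rw [eval_mul, eval_mul, eval_pow, eval_X, hcomp]
      have h3 : (k : ℝ) ^ τ = (k : ℝ) ^ (τ - hv β) * (k : ℝ) ^ hv β := by
        rw [← pow_add]
        congr 1
        have := hτ β hβ.1
        omega
      rw [h3]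
      field_simp
    rw [e1]
    ring
  rw [Finset.sum_congr rfl h2, ← Finset.mul_sum, Finset.sum_sub_distrib, ← Finset.mul_sum,
    ← Finset.mul_sum, Finset.sum_add_distrib, h1]
  rfl

/-- **the uniform zero estimate** -/
theorem ze (M : ℕ) : ∀ A T : ℕ, ∃ R : ℕ, ∀ Λ : Finset (List ℕ+), Λ.card ≤ M →
    (∀ t β, (t :: β) ∈ Λ → β ∈ Λ) → ∀ φ : List ℕ+ → ℝ[X], (∀ β ∈ Λ, EC A T (φ β)) →
    (∃ β ∈ Λ, φ β ≠ 0) → ∀ lo hi, 1 ≤ lo → ¬ WA (Fc Λ φ) lo hi R := by
  classical
  induction M with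
  | zero =>
    intro A T
    refine ⟨0, fun Λ hΛ _ φ _ ⟨β, hβ, _⟩ => ?_⟩
    rw [Finset.card_eq_zero.1 (Nat.le_zero.1 hΛ)] at hβ
    exact absurd hβ (Finset.notMem_empty β)
  | succ M ih =>
    intro A T
    obtain ⟨Z, hZ⟩ := ec_zb A T
    obtain ⟨R1, hR1⟩ := ih A T
    obtain ⟨R2, hR2⟩ := ih (A + 1) (1 * (T * T + T * T) + (M + 1) * (1 * (T * T)))
    refine ⟨R1 + (2 * Z + 1) + (Z + 1) * (R2 + 1 + 1), fun Λ hΛ hsuf φ hφ hne lo hi hlo hWA => ?_⟩
    obtain ⟨β1, hβ1, hβ1'⟩ := hne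
    obtain ⟨β0, hβ0, hmax⟩ := Finset.exists_max_image Λ List.length ⟨β1, hβ1⟩
    have hsuf' : ∀ t β, (t :: β) ∈ Λ.erase β0 → β ∈ Λ.erase β0 := by
      intro t β h
      rw [Finset.mem_erase] at h ⊢
      refine ⟨?_, hsuf t β h.2⟩
      rintro rfl
      have h1 := hmax _ h.2
      rw [List.length_cons] at h1
      omega
    have hcard : (Λ.erase β0).card ≤ M := by
      rw [Finset.card_erase_of_mem hβ0]
      omega
    by_cases h0 : φ β0 = 0
    · -- drop the word
      refine hR1 (Λ.erase β0) hcard hsuf' φ (fun β hβ => hφ β (Finset.mem_of_mem_erase hβ))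
        ⟨β1, Finset.mem_erase.2 ⟨?_, hβ1⟩, hβ1'⟩ lo hi hlo ((hWA.mono (by omega)).congr ?_)
      · rintro rfl
        exact hβ1' h0
      · intro k _ _
        unfold Fc
        rw [← Finset.add_sum_erase _ _ hβ0, h0, eval_zero, zero_mul, zero_add]
    by_cases hnil : β0 = []
    · -- only the empty word
      subst hnil
      have hΛ1 : Λ = {[]} := by
        ext β
        rw [Finset.mem_singleton]
        constructor
        · intro h
          have h1 := hmax β h
          rw [List.length_nil] at h1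
          exact List.length_eq_zero_iff.1 (Nat.le_zero.1 h1)
        · rintro rfl
          exact hβ0
      refine WA.poly (φ := φ []) ((hWA.mono (R' := 2 * Z + 1) (by omega)).congr ?_) hlo
        (hZ _ (hφ [] hβ0) h0) le_rfl
      intro k _ _
      unfold Fc
      rw [hΛ1, Finset.sum_singleton]
      show _ * hr [] k = _
      rw [hr_nil, mul_one]
    -- the main case
    obtain ⟨lo', hi', hlo', hhi', hnz, hWA'⟩ := (hWA.mono (R' := (Z + 1) * (R2 + 1 + 1))
      (by omega)).block hlo (φ β0) (Z := Z) (hZ _ (hφ β0 hβ0) h0) (R' := R2 + 1) (by omega)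
    have hsg := const_sign (φ β0) hnz
    have hnz' : ∀ k : ℕ, lo' ≤ k → k ≤ hi' → (φ β0).eval (k : ℝ) ≠ 0 := fun k h1 h2 =>
      hnz k (by exact_mod_cast h1) (by exact_mod_cast h2)
    set τ : ℕ := ∑ β ∈ Λ, hv β with hτ
    have hτ' : ∀ β ∈ Λ, hv β ≤ τ := fun β hβ =>
      Finset.single_le_sum (f := hv) (fun _ _ => Nat.zero_le _) hβ
    have hG := (hWA'.sgn (g := fun k => ((φ β0).eval (k : ℝ))⁻¹) (by
      rcases hsg with h | h
      · left
        intro k h1 h2
        exact inv_pos.2 (h k (by exact_mod_cast h1) (by exact_mod_cast h2))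
      · right
        intro k h1 h2
        exact inv_neg''.2 (h k (by exact_mod_cast h1) (by exact_mod_cast h2)))).diff
    have hpos : ∀ k, lo' ≤ k → k ≤ hi' - 1 → 0 < (k : ℝ) ^ τ *
        ((φ β0).eval (k : ℝ) * (φ β0).eval ((k + 1 : ℕ) : ℝ)) := by
      intro k h1 h2
      have h3 : 1 ≤ k := hlo.trans (hlo'.trans h1)
      have h4 : k + 1 ≤ hi' := by omega
      have h5 : (0 : ℝ) < (k : ℝ) ^ τ := pow_pos (by exact_mod_cast (by omega : 0 < k)) _
      refine mul_pos h5 ?_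
      rcases hsg with h | h
      · exact mul_pos (h k (by exact_mod_cast h1) (by exact_mod_cast (by omega : k ≤ hi')))
          (h _ (by exact_mod_cast (by omega : lo' ≤ k + 1)) (by exact_mod_cast h4))
      · exact mul_pos_of_neg_of_neg
          (h k (by exact_mod_cast h1) (by exact_mod_cast (by omega : k ≤ hi')))
          (h _ (by exact_mod_cast (by omega : lo' ≤ k + 1)) (by exact_mod_cast h4))
    have hF1 := hG.pos hpos
    have hnc0 : nc Λ φ τ β0 β0 = 0 := by
      unfold nc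
      rw [mul_comm ((φ β0).comp (X + C 1)), sub_self, mul_zero, zero_add]
      refine Finset.sum_eq_zero fun β hβ => ?_
      exfalso
      rw [Finset.mem_filter] at hβ
      obtain ⟨t, β', rfl⟩ := List.exists_cons_of_ne_nil hβ.2.1
      have h1 := hmax _ hβ.1
      have h2 : β' = β0 := hβ.2.2
      rw [h2, List.length_cons] at h1
      omega
    refine hR2 (Λ.erase β0) hcard hsuf' (nc Λ φ τ β0) ?_ ?_ lo' (hi' - 1) (hlo.trans hlo')
      (hF1.congr ?_)
    · -- number of terms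
      intro γ hγ
      unfold nc
      have h1 := (hφ β0 hβ0)
      have h2 := (hφ γ (Finset.mem_of_mem_erase hγ))
      refine EC.mono ((EC.mul (EC.X_pow A τ) ((h1.up.mul h2.shift).sub (h1.shift.mul h2.up))).add
        (EC.sum _ _ (T := 1 * (T * T)) fun β hβ => ?_)) ?_
      · rw [Finset.mem_filter] at hβ
        exact (EC.X_pow A _).mul (h1.up.mul (hφ β hβ.1).shift)
      · have h3 : (Λ.filter (fun β => β ≠ [] ∧ β.tail = γ)).card ≤ M + 1 :=
          (Finset.card_filter_le _ _).trans hΛ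
        have h4 := Nat.mul_le_mul_right (1 * (T * T)) h3
        omega
    · -- some coefficient is not zero
      by_contra hcon
      push Not at hcon
      have hall : ∀ γ ∈ Λ, nc Λ φ τ β0 γ = 0 := by
        intro γ hγ
        by_cases h1 : γ = β0
        · rw [h1, hnc0]
        · exact hcon γ (Finset.mem_erase.2 ⟨h1, hγ⟩)
      have h1 : ∀ k : ℕ, 1 ≤ k → (φ β0).eval (k : ℝ) * Fc Λ φ (k + 1) =
          (φ β0).eval ((k + 1 : ℕ) : ℝ) * Fc Λ φ k := by
        intro k hk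
        have h2 := nc_eval Λ hsuf φ hτ' β0 hk
        rw [Finset.sum_eq_zero fun γ hγ => by rw [hall γ hγ, eval_zero, zero_mul]] at h2
        have h3 : (k : ℝ) ^ τ ≠ 0 := pow_ne_zero _ (by exact_mod_cast (by omega : k ≠ 0))
        exact sub_eq_zero.1 ((mul_eq_zero.1 h2.symm).resolve_left h3)
      obtain ⟨K0, hK0⟩ : ∃ K0 : ℕ, ∀ k : ℕ, K0 ≤ k → (φ β0).eval (k : ℝ) ≠ 0 := by
        obtain ⟨K0, hK0⟩ := exists_nat_gt (∑ x ∈ (φ β0).roots.toFinset, |x|)
        refine ⟨K0, fun k hk hroot => ?_⟩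
        have h2 : (k : ℝ) ∈ (φ β0).roots.toFinset := by
          rw [Multiset.mem_toFinset, mem_roots h0]
          exact hroot
        have h3 := Finset.single_le_sum (f := fun x : ℝ => |x|) (fun _ _ => abs_nonneg _) h2
        simp only [Nat.abs_cast] at h3
        have h4 : (K0 : ℝ) ≤ k := by exact_mod_cast hk
        linarith only [hK0, h3, h4]
      set c : ℝ := Fc Λ φ (K0 + 1) / (φ β0).eval ((K0 + 1 : ℕ) : ℝ) with hc
      have h2 : ∀ k : ℕ, K0 + 1 ≤ k → Fc Λ φ k = c * (φ β0).eval (k : ℝ) := by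
        intro k hk
        induction k, hk using Nat.le_induction with
        | base =>
          rw [hc, div_mul_cancel₀]
          exact hK0 _ (by omega)
        | succ k hk ihk =>
          have h3 := h1 k (by omega)
          rw [ihk] at h3
          have h4 := hK0 k (by omega)
          have h5 : (φ β0).eval (k : ℝ) * (Fc Λ φ (k + 1) - c * (φ β0).eval ((k + 1 : ℕ) : ℝ)) = 0 := by
            linear_combination h3
          exact sub_eq_zero.1 ((mul_eq_zero.1 h5).resolve_left h4)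
      have hnilΛ : ([] : List ℕ+) ∈ Λ := by
        have h3 : ∀ β : List ℕ+, β ∈ Λ → ([] : List ℕ+) ∈ Λ := by
          intro β
          induction β with
          | nil => exact fun h => h
          | cons t β ihβ => exact fun h => ihβ (hsuf t β h)
        exact h3 β0 hβ0
      have h3 := ind_poly Λ (fun β => φ β - if β = [] then C c * φ β0 else 0) (K0 + 1)
        (fun k hk => by
          have h4 := h2 k hk
          unfold Fc at h4
          have e1 : ∀ β ∈ Λ, (φ β - if β = [] then C c * φ β0 else 0).eval (k : ℝ) * hr (cl β) k =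
              (φ β).eval (k : ℝ) * hr (cl β) k -
                if β = [] then c * (φ β0).eval (k : ℝ) else 0 := by
            intro β _
            rw [eval_sub]
            split_ifs with h5
            · rw [h5, eval_mul, eval_C]
              show _ * hr [] k = _ * hr [] k - _
              rw [hr_nil]
              ring
            · rw [eval_zero]
              ring
          rw [Finset.sum_congr rfl e1, Finset.sum_sub_distrib, h4, Finset.sum_ite_eq' Λ []]
          rw [if_pos hnilΛ, sub_self]) β0 hβ0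
      simp only [if_neg hnil, sub_zero] at h3
      exact h0 h3
    · -- the values
      intro k hk1 hk2
      have h1 : 1 ≤ k := hlo.trans (hlo'.trans hk1)
      have h2 := nc_eval Λ hsuf φ hτ' β0 h1
      have h3 : Fc (Λ.erase β0) (nc Λ φ τ β0) k =
          ∑ γ ∈ Λ, (nc Λ φ τ β0 γ).eval (k : ℝ) * hr (cl γ) k := by
        unfold Fc
        rw [← Finset.add_sum_erase _ _ hβ0, hnc0, eval_zero, zero_mul, zero_add]
      rw [h3, h2]
      have h4 := hnz' k hk1 (by omega)
      have h5 : k + 1 ≤ hi' := by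
        by_contra hcon
        have h6 : hi' = 0 ∨ k = hi' - 1 + 1 - 1 + 1 ∨ hi' ≤ k := by omega
        omega
      have h6 := hnz' (k + 1) (by omega) h5
      field_simp

end Pool.Agent.Y760.ZF
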